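import Pool.Agent.McT.W.StageB

/-! The exhaustion. -/

set_option autoImplicit false

namespace Pool.McT

open Filter Topology

variable {A : Type*} [CStarAlgebra A] {τ : A →ₗ[ℂ] ℂ}

private theorem exh_cm (hW : WT τ) (u : A) {x : ℕ → A} {y : A} (h : Lim2 τ x y) :
    Lim2 τ (fun n => cm (x n) u) (cm y u) := by
  unfold cm
  exact (h.mul_right hW u).sub hW (h.mul_left hW u)

theorem Lim2.tendsto_S (hW : WT τ) (F : Finset A) {x : ℕ → A} {y : A} (h : Lim2 τ x y) :
    Tendsto (fun n => S τ F (x n)) atTop (𝓝 (S τ F y)) := by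
  unfold S
  refine tendsto_finsetSum _ fun u _ => ?_
  exact ((exh_cm hW u h).tendsto_N hW).add ((exh_cm hW u (h.star hW)).tendsto_N hW)

private theorem exh_ev {x : ℕ → A} {y : A} {n : ℕ} (h : ∀ m, n ≤ m → x m = y) :
    Lim2 τ x y := by
  refine tendsto_const_nhds.congr' ?_
  filter_upwards [eventually_ge_atTop n] with m hm
  rw [h m hm, sub_self, N_zero]

private theorem exh_S_zero (F : Finset A) : S τ F (0 : A) = 0 := by
  unfold S
  refine Finset.sum_eq_zero fun u _ => ?_
  have h : cm (0 : A) u = 0 := by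
    unfold cm
    rw [zero_mul, mul_zero, sub_zero]
  rw [star_zero, h, N_zero, add_zero]

private theorem exh_down {u w w' : A} (hu : IsPI u) (h1 : star u * w = 0) (h2 : u * star w = 0)
    (k1 : star (u + w) * w' = 0) (k2 : (u + w) * star w' = 0) (k3 : (u + w) * w' = 0)
    (k4 : w' * (u + w) = 0) :
    star u * w' = 0 ∧ u * star w' = 0 ∧ u * w' = 0 ∧ w' * u = 0 := by
  have hus : star u * u * star u = star u := by
    have := congrArg star hu
    rw [star_mul, star_mul, star_star, ← mul_assoc] at this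
    exact this
  have h3 : w * star u = 0 := by
    have := congrArg star h2
    rwa [star_mul, star_star, star_zero] at this
  have e1 : u * star u * (u + w) = u := by
    rw [mul_add, mul_assoc u (star u) w, h1, mul_zero, add_zero]
    exact hu
  have e2 : star u * u * star (u + w) = star u := by
    rw [star_add, mul_add, hus, mul_assoc (star u) u (star w), h2, mul_zero, add_zero]
  have e3 : (u + w) * (star u * u) = u := by
    rw [add_mul, ← mul_assoc, ← mul_assoc, h3, zero_mul, add_zero]
    exact hu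
  refine ⟨?_, ?_, ?_, ?_⟩
  · rw [← e2, mul_assoc, k1, mul_zero]
  · rw [← e1, mul_assoc (u * star u), k2, mul_zero]
  · rw [← e1, mul_assoc (u * star u), k3, mul_zero]
  · rw [← e3, ← mul_assoc, k4, zero_mul]

/-- `exists_greedy` with `Q v`: `IsPI v`, `v * v = 0`, `S τ F v ≤ ε N v`; `R v y`:
`star v * y = 0`, `v * star y = 0`, `v * y = 0`, `y * v = 0`; `P v y`: `IsPI y`, `y * y = 0`,
`R v y`, `S τ F (v + y) ≤ ε N (v + y)`; `u₀ = 0`. The limit `v` satisfies `Q`. If
`N v ≤ 1 / 40`, `stage` gives `y ≠ 0`; since its inequality is strict, `P (u n) y` holds for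
large `n` (`R (u n) y` from `R v y`, as `u n = u n * star (u n) * v = v * star (u n) * u n`),
so `N y ≤ 2 N (w n) → 0`: contradiction. -/
theorem exists_big (hF : Fac τ) (hno : ∀ (F : Finset A) (κ : ℝ), ¬ NM τ F κ) (F : Finset A)
    {ε : ℝ} (hε : 0 < ε) :
    ∃ v : A, IsPI v ∧ v * v = 0 ∧ 1 / 40 < N τ v ∧ S τ F v ≤ ε * N τ v := by
  have hW : WT τ := hF.toWT
  let R : A → A → Prop := fun v y => star v * y = 0 ∧ v * star y = 0 ∧ v * y = 0 ∧ y * v = 0
  let Q : A → Prop := fun v => IsPI v ∧ v * v = 0 ∧ S τ F v ≤ ε * N τ v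
  let P : A → A → Prop := fun v y => IsPI y ∧ y * y = 0 ∧ R v y ∧ S τ F (v + y) ≤ ε * N τ (v + y)
  have hPI0 : IsPI (0 : A) := by
    change (0 : A) * star 0 * 0 = 0
    rw [mul_zero]
  obtain ⟨u, w, hu0, hQ, hP, hstep, hmax, hRnm, hw0, v, hv, hv1⟩ :=
    exists_greedy hW P R Q 0
      ⟨hPI0, mul_zero 0, by rw [exh_S_zero, N_zero, mul_zero]⟩
      (fun u hu => ⟨hPI0, mul_zero 0, ⟨mul_zero _, by rw [star_zero, mul_zero], mul_zero _,
        zero_mul _⟩, by rw [add_zero]; exact hu.2.2⟩)
      (fun u w hu hw => ⟨hu.1.add hw.1 hw.2.2.1.1 hw.2.2.1.2.1, by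
        rw [add_mul, mul_add, mul_add, hu.2.1, hw.2.1, hw.2.2.1.2.2.1, hw.2.2.1.2.2.2]
        simp, hw.2.2.2⟩)
      (fun u hu => hu.1.norm_le)
      (fun u w _ hw => hw.2.2.1)
      (fun u w w' hu hw h => exh_down hu.1 hw.2.2.1.1 hw.2.2.1.2.1 h.1 h.2.1 h.2.2.1 h.2.2.2)
      (fun u w h => h.1)
  have hun : ∀ n, ‖u n‖ ≤ 1 := fun n => (hQ n).1.norm_le
  -- the limit
  have hvPI : IsPI v := by
    have h1 : Lim2 τ (fun n => u n * star (u n)) (v * star v) := hv.mul hW (hv.star hW) hun
    have h2 : Lim2 τ (fun n => u n * star (u n) * u n) (v * star v * v) :=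
      h1.mul hW hv (C := 1) (fun n => by
        refine (norm_mul_le _ _).trans ?_
        rw [norm_star]
        exact mul_le_one₀ (hun n) (norm_nonneg _) (hun n))
    have h3 : Lim2 τ u (v * star v * v) := by
      have : (fun n => u n * star (u n) * u n) = u := funext fun n => (hQ n).1
      rwa [this] at h2
    exact h3.unique hW hv
  have hvv : v * v = 0 := by
    have h1 : Lim2 τ (fun n => u n * u n) (v * v) := hv.mul hW hv hun
    have h2 : (fun n => u n * u n) = fun _ => (0 : A) := funext fun n => (hQ n).2.1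
    rw [h2] at h1
    exact h1.unique hW (Lim2.const 0)
  have hvS : S τ F v ≤ ε * N τ v :=
    le_of_tendsto_of_tendsto' (hv.tendsto_S hW F) ((hv.tendsto_N hW).const_mul ε)
      fun n => (hQ n).2.2
  refine ⟨v, hvPI, hvv, ?_, hvS⟩
  by_contra hN
  rw [not_lt] at hN
  obtain ⟨y, hy0, hyPI, hyy, k1, k2, k3, k4, hS⟩ := stage hF hno F hε hvPI hvv hN hvS
  -- relations between `u n` and `v`
  have hdiff : ∀ n m, n ≤ m → star (u n) * (u m - u n) = 0 ∧ u n * star (u m - u n) = 0 := by
    intro n m hnm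
    induction m, hnm using Nat.le_induction with
    | base => simp
    | succ m hm ih =>
      have e : u (m + 1) - u n = (u m - u n) + w m := by
        rw [hstep m]
        abel
      rw [e, mul_add, star_add, mul_add, ih.1, ih.2, (hRnm n m hm).1, (hRnm n m hm).2.1]
      simp
  have hr1 : ∀ n, star (u n) * v = star (u n) * u n := by
    intro n
    have h1 : Lim2 τ (fun m => star (u n) * u m) (star (u n) * v) := hv.mul_left hW _
    have h2 : Lim2 τ (fun m => star (u n) * u m) (star (u n) * u n) := by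
      refine exh_ev (n := n) fun m hm => ?_
      have h3 := (hdiff n m hm).1
      rw [mul_sub, sub_eq_zero] at h3
      exact h3
    exact h1.unique hW h2
  have hr2 : ∀ n, v * star (u n) = u n * star (u n) := by
    intro n
    have h1 : Lim2 τ (fun m => u m * star (u n)) (v * star (u n)) := hv.mul_right hW _
    have h2 : Lim2 τ (fun m => u m * star (u n)) (u n * star (u n)) := by
      refine exh_ev (n := n) fun m hm => ?_
      have h3 := congrArg star (hdiff n m hm).2
      rw [star_mul, star_star, star_zero, sub_mul, sub_eq_zero] at h3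
      exact h3
    exact h1.unique hW h2
  have ha : ∀ n, u n * star (u n) * v = u n := by
    intro n
    rw [mul_assoc, hr1, ← mul_assoc]
    exact (hQ n).1
  have hb : ∀ n, v * star (u n) * u n = u n := by
    intro n
    rw [hr2]
    exact (hQ n).1
  have hc : ∀ n, star (u n) * u n * star v = star (u n) := by
    intro n
    have := congrArg star (hb n)
    rw [star_mul, star_mul, star_star, ← mul_assoc] at this
    exact this
  have hRy : ∀ n, R (u n) y := by
    intro n
    refine ⟨?_, ?_, ?_, ?_⟩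
    · rw [← hc n, mul_assoc, k1, mul_zero]
    · rw [← ha n, mul_assoc, k2, mul_zero]
    · rw [← ha n, mul_assoc, k3, mul_zero]
    · rw [← hb n, mul_assoc v, ← mul_assoc y, k4, zero_mul]
  have hlim : Lim2 τ (fun n => u n + y) (v + y) := hv.add hW (Lim2.const y)
  have hev : ∀ᶠ n in atTop, S τ F (u n + y) < ε * N τ (u n + y) :=
    (hlim.tendsto_S hW F).eventually_lt ((hlim.tendsto_N hW).const_mul ε) hS
  have hNy : N τ y ≤ 0 := by
    have h1 : Tendsto (fun n => 2 * N τ (w n)) atTop (𝓝 0) := by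
      simpa using hw0.const_mul 2
    refine ge_of_tendsto h1 ?_
    filter_upwards [hev] with n hn
    exact hmax n y ⟨hyPI, hyy, hRy n, hn.le⟩
  exact hy0 (hW.faithful y (le_antisymm hNy (N_nonneg hW.tr y)))

end Pool.McT
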