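import Pool.Agent.McT.W.Exh

/-! The local criterion. -/

set_option autoImplicit false

namespace Pool.McT

open Filter Topology

variable {A : Type*} [CStarAlgebra A] {τ : A →ₗ[ℂ] ℂ}

private theorem cm_le_Crit (hτ : IsTr τ) {v : A} (hv : ‖v‖ ≤ 1) (b : A) :
    N τ (cm v b) ≤ 4 * N τ b := by
  have h1 : cm v b = v * b + -(b * v) := by
    unfold cm
    abel
  rw [h1]
  have h2 := N_add_le hτ (v * b) (-(b * v))
  rw [N_neg] at h2
  have h3 := N_mul_le_left hτ v b
  have h4 := N_mul_le_right hτ b v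
  have h5 : ‖v‖ ^ 2 ≤ 1 := pow_le_one₀ (norm_nonneg _) hv
  have h6 := mul_le_of_le_one_left (N_nonneg hτ b) h5
  linarith

private theorem central_Crit (hτ : IsTr τ) {d : ℕ → A}
    (hd : ∀ x : A, ∀ ε : ℝ, 0 < ε → ∃ n, N τ (x - d n) ≤ ε) {v : ℕ → A} (hv : ∀ n, ‖v n‖ ≤ 1)
    (h : ∀ m n, m ≤ n → N τ (cm (v n) (d m)) ≤ 1 / ((n : ℝ) + 1)) : CentralSeq τ v := by
  refine ⟨⟨1, hv⟩, fun a => ?_⟩
  rw [Metric.tendsto_atTop]
  intro ε hε
  obtain ⟨m, hm⟩ := hd a (ε / 16) (by positivity)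
  obtain ⟨n₀, hn₀⟩ := exists_nat_one_div_lt (show (0 : ℝ) < ε / 8 by positivity)
  refine ⟨max m n₀, fun n hn => ?_⟩
  have h1 : cm (v n) a = cm (v n) (a - d m) + cm (v n) (d m) := by
    unfold cm
    noncomm_ring
  have h2 := N_add_le hτ (cm (v n) (a - d m)) (cm (v n) (d m))
  rw [← h1] at h2
  have h3 := cm_le_Crit hτ (hv n) (a - d m)
  have h4 := h m n (le_trans (le_max_left _ _) hn)
  have h6 : n₀ ≤ n := le_trans (le_max_right _ _) hn
  have h7 : (n₀ : ℝ) ≤ n := by exact_mod_cast h6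
  have h5 : 1 / ((n : ℝ) + 1) ≤ 1 / ((n₀ : ℝ) + 1) :=
    one_div_le_one_div_of_le (by positivity) (by linarith)
  rw [Real.dist_eq, sub_zero, abs_of_nonneg (N_nonneg hτ _)]
  linarith

private theorem N_cm_Crit (hτ : IsTr τ) {v : A} (hv : IsPI v) (hvv : v * v = 0) :
    N τ (cm v (star v)) = 2 * N τ v := by
  have h1 : star v * star v = 0 := by rw [← star_mul, hvv, star_zero]
  have h2 : star (cm v (star v)) = cm v (star v) := by
    unfold cm
    rw [star_sub, star_mul, star_mul, star_star]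
  have h3 : cm v (star v) * cm v (star v) = v * star v + star v * v := by
    unfold cm
    have e1 : v * star v * (v * star v) = v * star v := hv.isPr_left.2
    have e2 : star v * v * (star v * v) = star v * v := hv.isPr_right.2
    have e3 : v * star v * (star v * v) = 0 := by
      rw [mul_assoc, ← mul_assoc (star v) (star v) v, h1, zero_mul, mul_zero]
    have e4 : star v * v * (v * star v) = 0 := by
      rw [mul_assoc, ← mul_assoc v v (star v), hvv, zero_mul, mul_zero]
    rw [sub_mul, mul_sub, mul_sub, e1, e2, e3, e4]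
    abel
  unfold N
  rw [h2, h3, map_add, Complex.add_re, hτ.comm v (star v)]
  ring

/-- `v n` from `exists_big` for `F = {d 0, ..., d n}` (`Sep`), `ε = 1 / (n + 1)`; the central
sequences are `v n` and `star (v n)`, with
`N [v, v*] = N (v v* - v* v) = 2 N v` (`(v v*) (v* v) = 0`). -/
theorem mcduff_of_not_NM (hF : Fac τ) (hs : Sep τ)
    (hno : ∀ (F : Finset A) (κ : ℝ), ¬ NM τ F κ) : McDuff τ := by
  classical
  obtain ⟨d, hd⟩ := hs
  have hex : ∀ n : ℕ, ∃ v : A, IsPI v ∧ v * v = 0 ∧ 1 / 40 < N τ v ∧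
      S τ ((Finset.range (n + 1)).image d) v ≤ 1 / ((n : ℝ) + 1) * N τ v := fun n =>
    exists_big hF hno _ (by positivity)
  choose v hv1 hv2 hv3 hv4 using hex
  have hn1 : N τ (1 : A) = 1 := by
    unfold N
    rw [star_one, one_mul, hF.one, Complex.one_re]
  have hN : ∀ n, N τ (v n) ≤ 1 := by
    intro n
    have h1 := N_mul_le_left hF.tr (v n) 1
    rw [mul_one, hn1, mul_one] at h1
    exact h1.trans (pow_le_one₀ (norm_nonneg _) (hv1 n).norm_le)
  have hS : ∀ m n, m ≤ n → N τ (cm (v n) (d m)) + N τ (cm (star (v n)) (d m)) ≤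
      1 / ((n : ℝ) + 1) := by
    intro m n hmn
    have h1 : N τ (cm (v n) (d m)) + N τ (cm (star (v n)) (d m)) ≤
        S τ ((Finset.range (n + 1)).image d) (v n) := by
      unfold S
      refine Finset.single_le_sum (f := fun u => N τ (cm (v n) u) + N τ (cm (star (v n)) u))
        (fun u _ => add_nonneg (N_nonneg hF.tr _) (N_nonneg hF.tr _)) ?_
      exact Finset.mem_image_of_mem d (Finset.mem_range.2 (Nat.lt_succ_of_le hmn))
    refine (h1.trans (hv4 n)).trans (mul_le_of_le_one_right (by positivity) (hN n))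
  refine ⟨v, fun n => star (v n), ?_, ?_, ?_⟩
  · refine central_Crit hF.tr hd (fun n => (hv1 n).norm_le) fun m n hmn => ?_
    have h1 := hS m n hmn
    have h2 := N_nonneg hF.tr (cm (star (v n)) (d m))
    linarith
  · refine central_Crit hF.tr hd (fun n => ?_) fun m n hmn => ?_
    · rw [norm_star]
      exact (hv1 n).norm_le
    · have h1 := hS m n hmn
      have h2 := N_nonneg hF.tr (cm (v n) (d m))
      linarith
  · intro h
    rw [Metric.tendsto_atTop] at h
    obtain ⟨n₀, hn₀⟩ := h (1 / 20) (by norm_num)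
    have h1 := hn₀ n₀ le_rfl
    rw [Real.dist_eq, sub_zero, abs_of_nonneg (N_nonneg hF.tr _),
      N_cm_Crit hF.tr (hv1 n₀) (hv2 n₀)] at h1
    have h2 := hv3 n₀
    linarith

/-- Marrakchi's local criterion. -/
theorem exists_NM (hF : Fac τ) (hs : Sep τ) (hM : ¬ McDuff τ) :
    ∃ (F : Finset A) (κ : ℝ), 0 ≤ κ ∧ NM τ F κ := by
  by_contra hc
  refine hM (mcduff_of_not_NM hF hs fun F κ h => hc ⟨F, max κ 0, le_max_right _ _, ?_⟩)
  intro w hw
  refine (h w hw).trans (mul_le_mul_of_nonneg_right (le_max_left _ _) ?_)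
  exact Finset.sum_nonneg fun u _ => N_nonneg hF.tr _

end Pool.McT
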