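import Pool.Agent.McT.W.Spec
import Pool.Agent.McT.MatCfc

/-! The partial isometries of the polar decomposition of `x`, cut at level `t`. -/

set_option autoImplicit false

namespace Pool.McT

open Filter Topology

variable {A : Type*} [CStarAlgebra A] {τ : A →ₗ[ℂ] ℂ}

/-- Odd: `0` for `|s| ≤ t`, `1` for `s ≥ t + w`, linear between. -/
noncomputable def oddr (t w s : ℝ) : ℝ :=
  min 1 (max 0 ((s - t) / w)) - min 1 (max 0 ((-s - t) / w))

/-- `u` is the partial isometry of the polar decomposition of `x`, cut at level `t`. -/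
def IsCut (τ : A →ₗ[ℂ] ℂ) (x : A) (t : ℝ) (u : A) : Prop :=
  ∀ w : ℕ → ℝ, (∀ m, 0 < w m) → Tendsto w atTop (𝓝 0) →
    Lim2 τ (fun m : ℕ => ent (cfc (oddr t (w m)) (XX x)) 0 1) u

theorem continuous_oddr (t : ℝ) {w : ℝ} (hw : 0 < w) : Continuous (oddr t w) := by
  unfold oddr
  refine Continuous.sub ?_ ?_
  · exact continuous_const.min (continuous_const.max
      ((continuous_id.sub continuous_const).div_const w))
  · exact continuous_const.min (continuous_const.max
      ((continuous_id.neg.sub continuous_const).div_const w))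

theorem oddr_neg (t w s : ℝ) : oddr t w (-s) = - oddr t w s := by
  unfold oddr
  rw [neg_neg, neg_sub]

theorem abs_oddr_le (t w s : ℝ) : |oddr t w s| ≤ 1 := by
  unfold oddr
  have h1 : ∀ a : ℝ, 0 ≤ min 1 (max 0 a) ∧ min 1 (max 0 a) ≤ 1 := fun a =>
    ⟨le_min zero_le_one (le_max_left _ _), min_le_left _ _⟩
  have h2 := h1 ((s - t) / w)
  have h3 := h1 ((-s - t) / w)
  rw [abs_le]
  constructor <;> linarith [h2.1, h2.2, h3.1, h3.2]

private theorem oddr_nonneg_PI {t w s : ℝ} (ht : 0 < t) (hw : 0 < w) (hs : 0 ≤ s) :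
    oddr t w s = min 1 (max 0 ((s - t) / w)) := by
  unfold oddr
  have h1 : (-s - t) / w ≤ 0 := div_nonpos_of_nonpos_of_nonneg (by linarith) hw.le
  rw [max_eq_left h1, min_eq_right zero_le_one, sub_zero]

private theorem ramp_anti_PI {t w w' s : ℝ} (hw' : 0 < w') (h : w' ≤ w) :
    min 1 (max 0 ((s - t) / w)) ≤ min 1 (max 0 ((s - t) / w')) := by
  refine min_le_min le_rfl ?_
  rcases le_total s t with h1 | h1
  · rw [max_eq_left (div_nonpos_of_nonpos_of_nonneg (by linarith) (hw'.le.trans h))]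
    exact le_max_left _ _
  · refine max_le_max le_rfl ?_
    exact div_le_div_of_nonneg_left (by linarith) hw' h

/-- the difference has the sign of the function -/
private theorem oddr_sign_PI {t w w' : ℝ} (ht : 0 < t) (hw' : 0 < w') (h : w' ≤ w) (s : ℝ) :
    0 ≤ oddr t w s * (oddr t w' s - oddr t w s) := by
  have hw : 0 < w := hw'.trans_le h
  have key : ∀ s : ℝ, 0 ≤ s → 0 ≤ oddr t w s * (oddr t w' s - oddr t w s) := by
    intro s hs
    rw [oddr_nonneg_PI ht hw hs, oddr_nonneg_PI ht hw' hs]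
    refine mul_nonneg (le_min zero_le_one (le_max_left _ _)) ?_
    exact sub_nonneg.2 (ramp_anti_PI hw' h)
  rcases le_total 0 s with hs | hs
  · exact key s hs
  · have h1 := key (-s) (by linarith)
    rw [oddr_neg, oddr_neg] at h1
    linarith

private theorem oddr_one_PI {t w s : ℝ} (ht : 0 < t) (hw : 0 < w) (hs : t + w ≤ |s|) :
    oddr t w s * oddr t w s = 1 := by
  have key : ∀ s : ℝ, 0 ≤ s → t + w ≤ s → oddr t w s = 1 := by
    intro s hs h1
    rw [oddr_nonneg_PI ht hw hs]
    refine min_eq_left (le_max_of_le_right ?_)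
    rw [le_div_iff₀ hw]
    linarith
  rcases le_total 0 s with h1 | h1
  · rw [abs_of_nonneg h1] at hs
    rw [key s h1 hs, mul_one]
  · rw [abs_of_nonpos h1] at hs
    have h2 := key (-s) (by linarith) hs
    rw [oddr_neg] at h2
    have h3 : oddr t w s = -1 := by linarith
    rw [h3]
    norm_num

private theorem oddr_le_PI {t w s b : ℝ} (ht : 0 < t) (hw : 0 < w) (hb : 0 ≤ b)
    (hs : |s| ≤ t + b) : |oddr t w s| ≤ b / w := by
  have key : ∀ s : ℝ, 0 ≤ s → s ≤ t + b → |oddr t w s| ≤ b / w := by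
    intro s hs h1
    rw [oddr_nonneg_PI ht hw hs, abs_of_nonneg (le_min zero_le_one (le_max_left _ _))]
    refine (min_le_right _ _).trans (max_le (div_nonneg hb hw.le) ?_)
    exact div_le_div_of_nonneg_right (by linarith) hw.le
  rcases le_total 0 s with h1 | h1
  · rw [abs_of_nonneg h1] at hs
    exact key s h1 hs
  · rw [abs_of_nonpos h1] at hs
    have h2 := key (-s) (by linarith) hs
    rwa [oddr_neg, abs_neg] at h2

private theorem oddr_zero_PI {t w s : ℝ} (ht : 0 < t) (hw : 0 < w) (hs : |s| ≤ t) :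
    oddr t w s = 0 := by
  have h1 := oddr_le_PI (b := 0) ht hw le_rfl (by rwa [add_zero])
  rw [zero_div] at h1
  exact abs_eq_zero.1 (le_antisymm h1 (abs_nonneg _))

private theorem oddr_cube_PI {t w w' : ℝ} (ht : 0 < t) (hw : 0 < w) (hw' : 0 < w') (s : ℝ) :
    |oddr t w s * oddr t w' s * oddr t w' s - oddr t w s| ≤ w' / w := by
  rcases le_total (t + w') |s| with h1 | h1
  · rw [mul_assoc, oddr_one_PI ht hw' h1, mul_one, sub_self, abs_zero]
    exact (div_pos hw' hw).le
  · have h2 := oddr_le_PI ht hw hw'.le h1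
    have h3 : oddr t w s * oddr t w' s * oddr t w' s - oddr t w s =
        -(oddr t w s * (1 - oddr t w' s * oddr t w' s)) := by ring
    have h4 := abs_oddr_le t w' s
    have h5 : |1 - oddr t w' s * oddr t w' s| ≤ 1 := by
      have h6 : oddr t w' s * oddr t w' s ≤ 1 := by
        rw [← abs_mul_abs_self]
        nlinarith [abs_nonneg (oddr t w' s)]
      rw [abs_of_nonneg (by linarith)]
      nlinarith [mul_self_nonneg (oddr t w' s)]
    rw [h3, abs_neg, abs_mul]
    calc |oddr t w s| * |1 - oddr t w' s * oddr t w' s| ≤ |oddr t w s| * 1 :=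
          mul_le_mul_of_nonneg_left h5 (abs_nonneg _)
      _ ≤ w' / w := by rwa [mul_one]

private theorem sq_le_PI {t w s B : ℝ} (ht : 0 < t) (hw : 0 < w) (hs : |s| ≤ B) :
    s * s ≤ B ^ 2 * (oddr t w s * oddr t w s) + (t + w) ^ 2 := by
  have h0 : s * s = |s| * |s| := (abs_mul_abs_self s).symm
  have h00 := abs_nonneg s
  rcases le_total (t + w) |s| with h1 | h1
  · rw [oddr_one_PI ht hw h1, h0, mul_one]
    nlinarith
  · have h2 := mul_self_nonneg (oddr t w s)
    have h3 : 0 ≤ B ^ 2 * (oddr t w s * oddr t w s) := mul_nonneg (sq_nonneg B) h2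
    rw [h0]
    nlinarith

section Gen

variable {M : Type*} [CStarAlgebra M] {T : M →ₗ[ℂ] ℂ}

private theorem star_cfc_PI (f : ℝ → ℝ) (h : M) : star (cfc f h) = cfc f h :=
  (cfc_predicate (R := ℝ) (p := IsSelfAdjoint) f h).star_eq

private theorem N_cfc_PI {f : ℝ → ℝ} (hf : Continuous f) (h : M) :
    N T (cfc f h) = (T (cfc (fun s => f s * f s) h)).re := by
  unfold N
  rw [star_cfc_PI, cfc_mul f f h hf.continuousOn hf.continuousOn]

private theorem mono_cfc_PI (hT : IsTr T) {h : M} {f g : ℝ → ℝ} (hf : Continuous f)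
    (hg : Continuous g) (hfg : ∀ s ∈ spectrum ℝ h, f s ≤ g s) :
    (T (cfc f h)).re ≤ (T (cfc g h)).re := by
  have hk : Continuous fun s => Real.sqrt (g s - f s) := Real.continuous_sqrt.comp (hg.sub hf)
  have h1 : cfc g h - cfc f h = star (cfc (fun s => Real.sqrt (g s - f s)) h) *
      cfc (fun s => Real.sqrt (g s - f s)) h := by
    rw [star_cfc_PI, ← cfc_mul _ _ h hk.continuousOn hk.continuousOn,
      ← cfc_sub g f h hg.continuousOn hf.continuousOn]
    refine cfc_congr fun s hs => ?_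
    exact (Real.mul_self_sqrt (sub_nonneg.2 (hfg s hs))).symm
  have h2 := hT.nonneg (cfc (fun s => Real.sqrt (g s - f s)) h)
  rw [← h1, map_sub, Complex.sub_re] at h2
  linarith

end Gen

/-- the corner -/
private noncomputable def eP (x : A) (t w : ℝ) : A := ent (cfc (oddr t w) (XX x)) 0 1

/-- the trace of the square -/
private noncomputable def fP (τ : A →ₗ[ℂ] ℂ) (x : A) (t w : ℝ) : ℝ :=
  (tr2 τ (cfc (fun s => oddr t w s * oddr t w s) (XX x))).re

private theorem N_ent_le_PI (hτ : IsTr τ) (M : M2 A) : N τ (ent M 0 1) ≤ N (tr2 τ) M := by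
  rw [N_tr2 hτ]
  have h1 := N_nonneg hτ (ent M 0 0)
  have h2 := N_nonneg hτ (ent M 1 0)
  have h3 := N_nonneg hτ (ent M 1 1)
  linarith

private theorem eP_sub_PI (hW : WT τ) (x : A) {t w w' : ℝ} (ht : 0 < t) (hw' : 0 < w')
    (h : w' ≤ w) : N τ (eP x t w' - eP x t w) ≤ fP τ x t w' - fP τ x t w := by
  have hw : 0 < w := hw'.trans_le h
  have hT := isTr_tr2 hW.tr
  have hc := continuous_oddr t hw
  have hc' := continuous_oddr t hw'
  have h1 : eP x t w' - eP x t w =
      ent (cfc (fun s => oddr t w' s - oddr t w s) (XX x)) 0 1 := by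
    rw [cfc_sub (oddr t w') (oddr t w) (XX x) hc'.continuousOn hc.continuousOn, ent_sub]
    rfl
  rw [h1]
  refine (N_ent_le_PI hW.tr _).trans ?_
  rw [N_cfc_PI (f := fun s => oddr t w' s - oddr t w s) (hc'.sub hc)]
  have h2 : fP τ x t w' - fP τ x t w = (tr2 τ (cfc (fun s => oddr t w' s * oddr t w' s -
      oddr t w s * oddr t w s) (XX x))).re := by
    unfold fP
    rw [cfc_sub (fun s => oddr t w' s * oddr t w' s) (fun s => oddr t w s * oddr t w s) (XX x)
      (hc'.mul hc').continuousOn (hc.mul hc).continuousOn, map_sub, Complex.sub_re]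
  rw [h2]
  refine mono_cfc_PI hT ((hc'.sub hc).mul (hc'.sub hc)) ((hc'.mul hc').sub (hc.mul hc))
    fun s _ => ?_
  have h3 := oddr_sign_PI ht hw' h s
  nlinarith

private theorem fP_mono_PI (hW : WT τ) (x : A) {t w w' : ℝ} (ht : 0 < t) (hw' : 0 < w')
    (h : w' ≤ w) : fP τ x t w ≤ fP τ x t w' := by
  have h1 := eP_sub_PI hW x ht hw' h
  have h2 := N_nonneg hW.tr (eP x t w' - eP x t w)
  linarith

private theorem fP_le_PI (hW : WT τ) (x : A) {t w : ℝ} (hw : 0 < w) :
    fP τ x t w ≤ (tr2 τ (cfc (fun _ : ℝ => (1 : ℝ)) (XX x))).re := by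
  have hc := continuous_oddr t hw
  refine mono_cfc_PI (isTr_tr2 hW.tr) (hc.mul hc) continuous_const fun s _ => ?_
  have h1 := abs_oddr_le t w s
  have h2 : oddr t w s * oddr t w s = |oddr t w s| * |oddr t w s| :=
    (abs_mul_abs_self _).symm
  have h3 := abs_nonneg (oddr t w s)
  show oddr t w s * oddr t w s ≤ 1
  rw [h2]
  nlinarith

private theorem norm_eP_PI (x : A) (t w : ℝ) : ‖eP x t w‖ ≤ 1 :=
  (norm_ent_le _ 0 1).trans (norm_cfc_le_one (XX x) (abs_oddr_le t w))

/-- the standard sequence -/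
private noncomputable def wS (m : ℕ) : ℝ := 1 / ((m : ℝ) + 1)

private theorem wS_pos (m : ℕ) : 0 < wS m := by
  unfold wS
  positivity

private theorem wS_lim : Tendsto wS atTop (𝓝 0) := tendsto_one_div_add_atTop_nhds_zero_nat

private theorem wS_anti {m n : ℕ} (h : m ≤ n) : wS n ≤ wS m := by
  unfold wS
  have h1 : (m : ℝ) ≤ n := by exact_mod_cast h
  have h2 : (0 : ℝ) < (m : ℝ) + 1 := by positivity
  exact one_div_le_one_div_of_le h2 (by linarith)

private theorem IsCut.lim_PI {x u : A} {t : ℝ} (h : IsCut τ x t u) :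
    Lim2 τ (fun m : ℕ => eP x t (wS m)) u := h wS wS_pos wS_lim

/-- For `0 < w' ≤ w` and `0 ≤ t`, `(oddr t w' - oddr t w)² ≤ oddr t w' ² - oddr t w ²`: so for
a decreasing sequence `w` the matrices `cfc (oddr t (w m)) (XX x)` are 2-norm Cauchy in
`tr2 τ` (trace of the squares increasing and bounded), and the entries too. Two sequences have
the same limit (compare both with `1 / (m + 1)`: `|f_w - f_w'|² ≤ |f_w² - f_w'²|` for all
`w`, `w'`). -/
theorem exists_cut (hW : WT τ) (x : A) {t : ℝ} (ht : 0 < t) : ∃ u : A, IsCut τ x t u := by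
  obtain ⟨u, -, hu⟩ := exists_lim2_mono (C := 1)
    (K := (tr2 τ (cfc (fun _ : ℝ => (1 : ℝ)) (XX x))).re) hW (x := fun m => eP x t (wS m))
    (fun n => norm_eP_PI x t _) (fun n => fP τ x t (wS n))
    (fun m n h => fP_mono_PI hW x ht (wS_pos n) (wS_anti h))
    (fun n => fP_le_PI hW x (wS_pos n))
    (fun m n h => eP_sub_PI hW x ht (wS_pos n) (wS_anti h))
  refine ⟨u, fun w hw hlim => ?_⟩
  have hbd : BddAbove (Set.range fun n => fP τ x t (wS n)) := by
    refine ⟨(tr2 τ (cfc (fun _ : ℝ => (1 : ℝ)) (XX x))).re, ?_⟩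
    rintro _ ⟨n, rfl⟩
    exact fP_le_PI hW x (wS_pos n)
  have hmono : Monotone fun n => fP τ x t (wS n) := fun m n h =>
    fP_mono_PI hW x ht (wS_pos n) (wS_anti h)
  have hL := tendsto_atTop_ciSup hmono hbd
  set Lm : ℝ := ⨆ n, fP τ x t (wS n) with hLm
  -- the distance of `u` to `eP x t v`
  have key : ∀ v : ℝ, 0 < v → N τ (eP x t v - u) ≤ Lm - fP τ x t v := by
    intro v hv
    have h1 : Tendsto (fun n => N τ (eP x t (wS n) - eP x t v)) atTop
        (𝓝 (N τ (u - eP x t v))) := (hu.sub hW (Lim2.const (eP x t v))).tendsto_N hW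
    have h2 : Tendsto (fun n => fP τ x t (wS n) - fP τ x t v) atTop
        (𝓝 (Lm - fP τ x t v)) := hL.sub_const _
    have h3 : N τ (eP x t v - u) = N τ (u - eP x t v) := by
      rw [← N_neg, neg_sub]
    rw [h3]
    refine le_of_tendsto_of_tendsto h1 h2 ?_
    have h4 : ∀ᶠ n in atTop, wS n < v := wS_lim.eventually (gt_mem_nhds hv)
    filter_upwards [h4] with n hn
    exact eP_sub_PI hW x ht (wS_pos n) hn.le
  show Tendsto (fun m => N τ (eP x t (w m) - u)) atTop (𝓝 0)
  rw [Metric.tendsto_atTop]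
  intro ε hε
  obtain ⟨n, hn⟩ := (hL.eventually (lt_mem_nhds (show Lm - ε < Lm by linarith))).exists
  obtain ⟨m₀, hm₀⟩ := eventually_atTop.1 (hlim.eventually (gt_mem_nhds (wS_pos n)))
  refine ⟨m₀, fun m hm => ?_⟩
  have h1 := key (w m) (hw m)
  have h2 := fP_mono_PI hW x ht (hw m) (hm₀ m hm).le
  have h3 := N_nonneg hW.tr (eP x t (w m) - u)
  rw [Real.dist_eq, sub_zero, abs_of_nonneg h3]
  linarith

/-- `oddr t w * oddr t w' ² = oddr t w` up to `w' / w`. With `W = lim cfc (oddr t (w m)) (XX x)`,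
`W = ((0, u), (u*, 0))`, `W³ = W`. -/
theorem IsCut.isPI (hW : WT τ) {x u : A} {t : ℝ} (ht : 0 < t) (h : IsCut τ x t u) : IsPI u := by
  have hu := h.lim_PI
  have hX := XX_selfAdjoint x
  -- the triple product
  have h1 : ∀ w w' : ℝ, 0 < w → 0 < w' →
      ‖eP x t w * (star (eP x t w') * eP x t w') - eP x t w‖ ≤ w' / w := by
    intro w w' hw hw'
    have hc := continuous_oddr t hw
    have hc' := continuous_oddr t hw'
    have h2 : cfc (fun s => oddr t w s * oddr t w' s * oddr t w' s) (XX x) =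
        cfc (oddr t w) (XX x) * cfc (oddr t w') (XX x) * cfc (oddr t w') (XX x) := by
      rw [cfc_mul (fun s => oddr t w s * oddr t w' s) (oddr t w') (XX x)
        (hc.mul hc').continuousOn hc'.continuousOn,
        cfc_mul (oddr t w) (oddr t w') (XX x) hc.continuousOn hc'.continuousOn]
    have h3 : ent (cfc (oddr t w') (XX x)) 1 0 = star (eP x t w') := by
      have h4 := star_cfc_PI (oddr t w') (XX x)
      have h5 : ent (star (cfc (oddr t w') (XX x))) 1 0 = star (eP x t w') := ent_star _ 1 0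
      rw [h4] at h5
      exact h5
    have h4 := cfc_odd x hc (oddr_neg t w)
    have h5 := cfc_odd x hc' (oddr_neg t w')
    have h6 : eP x t w * (star (eP x t w') * eP x t w') - eP x t w =
        ent (cfc (fun s => oddr t w s * oddr t w' s * oddr t w' s - oddr t w s) (XX x)) 0 1 := by
      rw [cfc_sub (fun s => oddr t w s * oddr t w' s * oddr t w' s) (oddr t w) (XX x)
        ((hc.mul hc').mul hc').continuousOn hc.continuousOn, ent_sub, h2,
        ent_mul, ent_mul, h4.1, h3, h5.2, mul_zero, add_zero, zero_mul, zero_add, mul_assoc]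
      rfl
    rw [h6]
    refine (norm_ent_le _ 0 1).trans ?_
    refine norm_cfc_le (div_pos hw' hw).le fun s _ => ?_
    rw [Real.norm_eq_abs]
    exact oddr_cube_PI ht hw hw' s
  have h2 : ∀ w : ℝ, 0 < w → eP x t w = eP x t w * (star u * u) := by
    intro w hw
    have h3 : Lim2 τ (fun k => eP x t w * (star (eP x t (wS k)) * eP x t (wS k)))
        (eP x t w * (star u * u)) := by
      refine Lim2.mul_left hW _ (Lim2.mul (C := 1) hW (hu.star hW) hu fun n => ?_)
      rw [norm_star]
      exact norm_eP_PI x t _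
    have h4 : Lim2 τ (fun k => eP x t w * (star (eP x t (wS k)) * eP x t (wS k)))
        (eP x t w) := by
      refine lim2_of_norm hW ?_
      have h5 : Tendsto (fun k => wS k / w) atTop (𝓝 0) := by
        have h6 := wS_lim.div_const w
        rwa [zero_div] at h6
      exact squeeze_zero (fun k => norm_nonneg _) (fun k => h1 w (wS k) hw (wS_pos k)) h5
    exact h4.unique hW h3
  have h3 : Lim2 τ (fun m => eP x t (wS m)) (u * (star u * u)) := by
    have h4 := Lim2.mul_right hW (star u * u) hu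
    refine h4.congr fun m => ?_
    show N τ (eP x t (wS m) * (star u * u) - _) = N τ (eP x t (wS m) - _)
    rw [← h2 _ (wS_pos m)]
  show u * star u * u = u
  rw [mul_assoc]
  exact h3.unique hW hu

private theorem cfc_fac_PI (x : A) {t w : ℝ} (ht : 0 < t) (hw : 0 < w) :
    ∃ G : M2 A, cfc (oddr t w) (XX x) = XX x * G ∧ cfc (oddr t w) (XX x) = G * XX x := by
  have hX := XX_selfAdjoint x
  have hc := continuous_oddr t hw
  have hg : Continuous fun s => oddr t w s * s / max (s * s) (t * t) := by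
    refine (hc.mul continuous_id).div ((continuous_id.mul continuous_id).max
      continuous_const) fun s => ?_
    exact (lt_max_of_lt_right (mul_pos ht ht)).ne'
  have h1 : ∀ s, oddr t w s = s * (oddr t w s * s / max (s * s) (t * t)) := by
    intro s
    rcases le_total |s| t with h2 | h2
    · rw [oddr_zero_PI ht hw h2]
      simp
    · have h3 : t * t ≤ s * s := by
        rw [← abs_mul_abs_self s]
        exact mul_self_le_mul_self ht.le h2
      have h4 : s * s ≠ 0 := (lt_of_lt_of_le (mul_pos ht ht) h3).ne'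
      rw [max_eq_left h3, ← mul_div_assoc, eq_div_iff h4]
      ring
  refine ⟨cfc (fun s => oddr t w s * s / max (s * s) (t * t)) (XX x), ?_, ?_⟩
  · conv_lhs => rw [show oddr t w = fun s => s * (oddr t w s * s / max (s * s) (t * t)) from
      funext h1]
    rw [cfc_mul (fun s : ℝ => s) _ (XX x) continuous_id.continuousOn hg.continuousOn,
      cfc_id' ℝ (XX x) hX]
  · conv_lhs => rw [show oddr t w = fun s => (oddr t w s * s / max (s * s) (t * t)) * s from
      funext fun s => (h1 s).trans (mul_comm _ _)]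
    rw [cfc_mul _ (fun s : ℝ => s) (XX x) hg.continuousOn continuous_id.continuousOn,
      cfc_id' ℝ (XX x) hX]

/-- `E X = 0` implies `E (cfc f X) = 0` for `f 0 = 0`, here `E = diag (c, 0)` or `diag (0, c)`
(`ent (E * XX x) 0 1 = c * x`). -/
theorem IsCut.left_zero (hW : WT τ) {x u c : A} {t : ℝ} (ht : 0 < t) (h : IsCut τ x t u)
    (hc : c * x = 0) : c * u = 0 := by
  have h1 : ∀ w : ℝ, 0 < w → c * eP x t w = 0 := by
    intro w hw
    obtain ⟨G, hG, -⟩ := cfc_fac_PI x ht hw
    have h2 : mk2 c 0 0 0 * XX x = 0 := by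
      refine ext2 ?_ ?_ ?_ ?_ <;> rw [ent_mul]
      · show c * 0 + 0 * star x = 0
        simp
      · show c * x + 0 * 0 = 0
        rw [hc]
        simp
      · show (0 : A) * 0 + 0 * star x = 0
        simp
      · show (0 : A) * x + 0 * 0 = 0
        simp
    have h3 : mk2 c 0 0 0 * cfc (oddr t w) (XX x) = 0 := by
      rw [hG, ← mul_assoc, h2, zero_mul]
    have h4 : ent (mk2 c 0 0 0 * cfc (oddr t w) (XX x)) 0 1 = c * eP x t w := by
      rw [ent_mul]
      show c * eP x t w + 0 * _ = _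
      rw [zero_mul, add_zero]
    rw [← h4, h3]
    rfl
  have h2 := Lim2.mul_left hW c h.lim_PI
  have h3 : (fun n => c * eP x t (wS n)) = fun _ => 0 := funext fun n => h1 _ (wS_pos n)
  rw [h3] at h2
  exact h2.unique hW (Lim2.const 0)

theorem IsCut.right_zero (hW : WT τ) {x u c : A} {t : ℝ} (ht : 0 < t) (h : IsCut τ x t u)
    (hc : x * c = 0) : u * c = 0 := by
  have h1 : ∀ w : ℝ, 0 < w → eP x t w * c = 0 := by
    intro w hw
    obtain ⟨G, -, hG⟩ := cfc_fac_PI x ht hw
    have h2 : XX x * mk2 0 0 0 c = 0 := by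
      refine ext2 ?_ ?_ ?_ ?_ <;> rw [ent_mul]
      · show (0 : A) * 0 + x * 0 = 0
        simp
      · show (0 : A) * 0 + x * c = 0
        rw [hc]
        simp
      · show star x * (0 : A) + 0 * 0 = 0
        simp
      · show star x * (0 : A) + 0 * c = 0
        simp
    have h3 : cfc (oddr t w) (XX x) * mk2 0 0 0 c = 0 := by
      rw [hG, mul_assoc, h2, mul_zero]
    have h4 : ent (cfc (oddr t w) (XX x) * mk2 0 0 0 c) 0 1 = eP x t w * c := by
      rw [ent_mul]
      show _ * 0 + eP x t w * c = _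
      rw [mul_zero, zero_add]
    rw [← h4, h3]
    rfl
  have h2 := Lim2.mul_right hW c h.lim_PI
  have h3 : (fun n => eP x t (wS n) * c) = fun _ => 0 := funext fun n => h1 _ (wS_pos n)
  rw [h3] at h2
  exact h2.unique hW (Lim2.const 0)

/-- Twice `left_zero`, `right_zero`: `x * x = 0` gives `u * x = 0`, then `u * u = 0`. -/
theorem IsCut.sq_zero (hW : WT τ) {x u : A} {t : ℝ} (ht : 0 < t) (h : IsCut τ x t u)
    (hx : x * x = 0) : u * u = 0 := by
  exact h.right_zero hW ht (h.left_zero hW ht hx)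

/-- `s² ≤ ‖X‖² φ(s)² + (t + w)²` on the spectrum, where `φ = oddr t w`; in the limit
`2 N x = T (X²) ≤ ‖X‖² 2 N u + 2 t²`. -/
theorem IsCut.N_le (hW : WT τ) {x u : A} {t : ℝ} (ht : 0 < t) (h : IsCut τ x t u) :
    N τ x ≤ ‖XX x‖ ^ 2 * N τ u + t ^ 2 := by
  have hX := XX_selfAdjoint x
  have h1 : ∀ w : ℝ, 0 < w → N τ x ≤ ‖XX x‖ ^ 2 * N τ (eP x t w) + (t + w) ^ 2 := by
    intro w hw
    have hc := continuous_oddr t hw
    have h2 : N (tr2 τ) (cfc (oddr t w) (XX x)) = 2 * N τ (eP x t w) := by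
      rw [N_tr2 hW.tr, (cfc_odd x hc (oddr_neg t w)).1, (cfc_odd x hc (oddr_neg t w)).2, N_zero]
      have h3 : ent (cfc (oddr t w) (XX x)) 1 0 = star (eP x t w) := by
        have h4 := star_cfc_PI (oddr t w) (XX x)
        have h5 : ent (star (cfc (oddr t w) (XX x))) 1 0 = star (eP x t w) := ent_star _ 1 0
        rw [h4] at h5
        exact h5
      rw [h3, N_star hW.tr]
      show 0 + N τ (eP x t w) + N τ (eP x t w) + 0 = _
      ring
    have h3 : N (tr2 τ) (XX x) = (tr2 τ (cfc (fun s : ℝ => s * s) (XX x))).re := by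
      have h4 := N_cfc_PI (T := tr2 τ) (f := fun s : ℝ => s) continuous_id (XX x)
      rwa [cfc_id' ℝ (XX x) hX] at h4
    have h4 : (tr2 τ (cfc (fun s : ℝ => ‖XX x‖ ^ 2 * (oddr t w s * oddr t w s) +
        (t + w) ^ 2) (XX x))).re = ‖XX x‖ ^ 2 * (2 * N τ (eP x t w)) + 2 * (t + w) ^ 2 := by
      rw [cfc_add (XX x) (fun s : ℝ => ‖XX x‖ ^ 2 * (oddr t w s * oddr t w s))
        (fun _ => (t + w) ^ 2) (continuous_const.mul (hc.mul hc)).continuousOn
        continuous_const.continuousOn, map_add, Complex.add_re,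
        cfc_const_mul (‖XX x‖ ^ 2) (fun s => oddr t w s * oddr t w s) (XX x)
        (hc.mul hc).continuousOn, cfc_const ((t + w) ^ 2) (XX x) hX]
      have h5 : ∀ (r : ℝ) (M : M2 A), (tr2 τ (r • M)).re = r * (tr2 τ M).re := by
        intro r M
        have h6 : r • M = (r : ℂ) • M := (Complex.coe_smul r M).symm
        rw [h6, map_smul, smul_eq_mul, Complex.re_ofReal_mul]
      rw [h5, ← N_cfc_PI hc (XX x), h2, Algebra.algebraMap_eq_smul_one, h5]
      have h6 : (tr2 τ (1 : M2 A)).re = 2 := by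
        rw [tr2_apply, ent_one_00, ent_one_11, hW.one]
        norm_num
      rw [h6]
      ring
    have h5 := mono_cfc_PI (isTr_tr2 hW.tr) (h := XX x) (f := fun s : ℝ => s * s)
      (g := fun s => ‖XX x‖ ^ 2 * (oddr t w s * oddr t w s) + (t + w) ^ 2)
      (continuous_id.mul continuous_id)
      ((continuous_const.mul (hc.mul hc)).add continuous_const) (fun s hs => by
        refine sq_le_PI ht hw ?_
        rcases subsingleton_or_nontrivial (M2 A) with h6 | h6
        · rw [spectrum.of_subsingleton] at hs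
          exact absurd hs (Set.notMem_empty s)
        · have h7 := spectrum.norm_le_norm_of_mem hs
          rwa [Real.norm_eq_abs] at h7)
    rw [← h3, h4, N_XX hW.tr] at h5
    linarith
  have h2 : Tendsto (fun m => ‖XX x‖ ^ 2 * N τ (eP x t (wS m)) + (t + wS m) ^ 2) atTop
      (𝓝 (‖XX x‖ ^ 2 * N τ u + (t + 0) ^ 2)) :=
    ((h.lim_PI.tendsto_N hW).const_mul _).add ((wS_lim.const_add t).pow 2)
  rw [add_zero] at h2
  exact ge_of_tendsto' h2 fun m => h1 _ (wS_pos m)

/-- Every nonzero `x` gives a nonzero partial isometry. -/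
theorem exists_pi (hW : WT τ) {x : A} (hx : x ≠ 0) :
    ∃ u : A, u ≠ 0 ∧ IsPI u ∧ (∀ c, c * x = 0 → c * u = 0) ∧ (∀ c, x * c = 0 → u * c = 0) := by
  have hN : 0 < N τ x := by
    rcases (N_nonneg hW.tr x).lt_or_eq with h1 | h1
    · exact h1
    · exact absurd (hW.faithful x h1.symm) hx
  have ht : 0 < Real.sqrt (N τ x) / 2 := by positivity
  obtain ⟨u, hu⟩ := exists_cut hW x ht
  refine ⟨u, ?_, hu.isPI hW ht, fun c hc => hu.left_zero hW ht hc,
    fun c hc => hu.right_zero hW ht hc⟩
  rintro rfl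
  have h1 := hu.N_le hW ht
  rw [N_zero, mul_zero, zero_add, div_pow, Real.sq_sqrt hN.le] at h1
  linarith

end Pool.McT
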