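import Pool.Agent.McT.GridC
import Pool.Agent.McT.W.PI

/-! Kernel inequalities of the fine grid. -/

set_option autoImplicit false

namespace Pool.McT

variable {A : Type*} [CStarAlgebra A] {τ : A →ₗ[ℂ] ℂ}

private theorem tele_GenB (g : ℤ → ℝ) (a : ℤ) (n : ℕ) :
    ∑ i ∈ Finset.Icc a (a + n), (g (i + 1) - g i) = g (a + n + 1) - g a := by
  induction n with
  | zero => simp
  | succ n ih =>
    have h1 : Finset.Icc a (a + ((n + 1 : ℕ) : ℤ)) =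
        insert (a + ((n + 1 : ℕ) : ℤ)) (Finset.Icc a (a + n)) := by
      ext x
      simp only [Finset.mem_Icc, Finset.mem_insert, Nat.cast_add, Nat.cast_one]
      omega
    rw [h1, Finset.sum_insert, ih]
    · have e : a + (n : ℤ) + 1 = a + ((n + 1 : ℕ) : ℤ) := by push_cast; ring
      rw [e]
      ring
    · simp only [Finset.mem_Icc, Nat.cast_add, Nat.cast_one]
      omega

private theorem tele2_GenB (g : ℤ → ℝ) (m : ℕ) :
    ∑ i ∈ Finset.Icc (-(m : ℤ)) m, (g (i + 1) - g i) = g (m + 1) - g (-m) := by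
  have h := tele_GenB g (-(m : ℤ)) (2 * m)
  have e : -(m : ℤ) + ((2 * m : ℕ) : ℤ) = m := by push_cast; ring
  rw [e] at h
  exact h

private theorem qq_pos_GenB {η : ℝ} (hη : 0 < η) (i : ℤ) : 0 < qq η i := by
  unfold qq
  positivity

private theorem qq_succ_GenB {η : ℝ} (hη : 0 < η) (i : ℤ) :
    qq η (i + 1) = (1 + η) * qq η i := by
  unfold qq
  rw [zpow_add_one₀ (by positivity), mul_comm]

private theorem w_pos_GenB {η : ℝ} (hη : 0 < η) (M : ℕ) (i : ℤ) :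
    0 < η * qq η i / ((M : ℝ) + 1) := by
  have := qq_pos_GenB hη i
  positivity

private theorem w_le_GenB {η : ℝ} (hη : 0 < η) (M : ℕ) (i : ℤ) :
    qq η i + η * qq η i / ((M : ℝ) + 1) ≤ (1 + η) * qq η i := by
  have h := qq_pos_GenB hη i
  have h1 : η * qq η i / ((M : ℝ) + 1) ≤ η * qq η i := by
    refine div_le_self (by positivity) ?_
    have : (0 : ℝ) ≤ M := Nat.cast_nonneg M
    linarith
  linarith

private theorem oddr_nn_GenB {t w s : ℝ} (ht : 0 < t) (hw : 0 < w) (hs : 0 ≤ s) :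
    oddr t w s = min 1 (max 0 ((s - t) / w)) := by
  unfold oddr
  have h1 : (-s - t) / w ≤ 0 := div_nonpos_of_nonpos_of_nonneg (by linarith) hw.le
  rw [max_eq_left h1, min_eq_right zero_le_one, sub_zero]

private theorem oddr_zero_GenB {t w s : ℝ} (ht : 0 < t) (hw : 0 < w) (hs : 0 ≤ s)
    (hst : s ≤ t) : oddr t w s = 0 := by
  rw [oddr_nn_GenB ht hw hs, max_eq_left (div_nonpos_of_nonpos_of_nonneg (by linarith) hw.le),
    min_eq_right zero_le_one]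

private theorem oddr_one_GenB {t w s : ℝ} (ht : 0 < t) (hw : 0 < w)
    (hst : t + w ≤ s) : oddr t w s = 1 := by
  rw [oddr_nn_GenB ht hw (by linarith)]
  have h1 : 1 ≤ (s - t) / w := by
    rw [le_div_iff₀ hw]
    linarith
  rw [max_eq_right (by linarith), min_eq_left h1]

private theorem oddr_mem_GenB {t w s : ℝ} (ht : 0 < t) (hw : 0 < w) (hs : 0 ≤ s) :
    0 ≤ oddr t w s ∧ oddr t w s ≤ 1 := by
  rw [oddr_nn_GenB ht hw hs]
  exact ⟨le_min zero_le_one (le_max_left _ _), min_le_left _ _⟩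

private theorem oddr_neg_GenB (t w s : ℝ) : oddr t w (-s) = - oddr t w s := by
  unfold oddr
  rw [neg_neg]
  ring

private theorem term_GenB {η t w s r : ℝ} (hη : 0 < η) (ht : 0 < t) (hw : 0 < w)
    (htw : t + w ≤ (1 + η) * t) (hs : 0 ≤ s) (hsr : s ≤ r) :
    (((1 + η) * t) ^ 2 - t ^ 2) * (oddr t w s - oddr t w r) ^ 2 ≤
      max ((s / (1 + η)) ^ 2) (min (((1 + η) * t) ^ 2) (((1 + η) * r) ^ 2)) -
      max ((s / (1 + η)) ^ 2) (min (t ^ 2) (((1 + η) * r) ^ 2)) := by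
  have hq : t ≤ (1 + η) * t := by nlinarith
  have hsq : t ^ 2 ≤ ((1 + η) * t) ^ 2 := pow_le_pow_left₀ ht.le hq 2
  have hmono : max ((s / (1 + η)) ^ 2) (min (t ^ 2) (((1 + η) * r) ^ 2)) ≤
      max ((s / (1 + η)) ^ 2) (min (((1 + η) * t) ^ 2) (((1 + η) * r) ^ 2)) :=
    max_le_max_left _ (min_le_min_right _ hsq)
  by_cases h1 : r ≤ t
  · rw [oddr_zero_GenB ht hw hs (hsr.trans h1), oddr_zero_GenB ht hw (hs.trans hsr) h1]
    simp only [sub_self, ne_eq, OfNat.ofNat_ne_zero, not_false_eq_true, zero_pow, mul_zero]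
    linarith
  · by_cases h2 : (1 + η) * t ≤ s
    · rw [oddr_one_GenB ht hw (htw.trans h2), oddr_one_GenB ht hw ((htw.trans h2).trans hsr)]
      simp only [sub_self, ne_eq, OfNat.ofNat_ne_zero, not_false_eq_true, zero_pow, mul_zero]
      linarith
    · push Not at h1 h2
      have h3 : s / (1 + η) ≤ t := by
        rw [div_le_iff₀ (by linarith)]
        linarith
      have h3' : 0 ≤ s / (1 + η) := by positivity
      have h4 : (s / (1 + η)) ^ 2 ≤ t ^ 2 := pow_le_pow_left₀ h3' h3 2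
      have hr : 0 ≤ r := hs.trans hsr
      have h5 : t ^ 2 ≤ ((1 + η) * r) ^ 2 := pow_le_pow_left₀ ht.le (by nlinarith) 2
      have h6 : ((1 + η) * t) ^ 2 ≤ ((1 + η) * r) ^ 2 :=
        pow_le_pow_left₀ (by positivity) (by nlinarith) 2
      rw [min_eq_left h5, min_eq_left h6, max_eq_right h4, max_eq_right (h4.trans hsq)]
      have h7 := oddr_mem_GenB ht hw hs
      have h8 := oddr_mem_GenB ht hw hr
      have h9 : (oddr t w s - oddr t w r) ^ 2 ≤ 1 := by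
        nlinarith
      nlinarith

private theorem key_GenB {η : ℝ} (hη : 0 < η) (m M : ℕ) {s r : ℝ} (hs : 0 ≤ s) (hsr : s ≤ r) :
    ∑ i ∈ Finset.Icc (-(m : ℤ)) m, ((qq η (i + 1)) ^ 2 - (qq η i) ^ 2) *
      (oddr (qq η i) (η * qq η i / (M + 1)) s - oddr (qq η i) (η * qq η i / (M + 1)) r) ^ 2
      ≤ ((1 + η) * r) ^ 2 - (s / (1 + η)) ^ 2 := by
  have h1 : ∑ i ∈ Finset.Icc (-(m : ℤ)) m, ((qq η (i + 1)) ^ 2 - (qq η i) ^ 2) *
      (oddr (qq η i) (η * qq η i / (M + 1)) s - oddr (qq η i) (η * qq η i / (M + 1)) r) ^ 2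
      ≤ ∑ i ∈ Finset.Icc (-(m : ℤ)) m,
        ((fun j : ℤ => max ((s / (1 + η)) ^ 2) (min ((qq η j) ^ 2) (((1 + η) * r) ^ 2)))
          (i + 1) -
        (fun j : ℤ => max ((s / (1 + η)) ^ 2) (min ((qq η j) ^ 2) (((1 + η) * r) ^ 2))) i) := by
    refine Finset.sum_le_sum fun i _ => ?_
    have h := term_GenB (s := s) (r := r) hη (qq_pos_GenB hη i) (w_pos_GenB hη M i)
      (w_le_GenB hη M i) hs hsr
    simp only [qq_succ_GenB hη]
    exact h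
  refine (h1.trans_eq (tele2_GenB (fun j : ℤ => max ((s / (1 + η)) ^ 2)
    (min ((qq η j) ^ 2) (((1 + η) * r) ^ 2))) m)).trans ?_
  have hr : 0 ≤ r := hs.trans hsr
  have h2 : (s / (1 + η)) ^ 2 ≤ ((1 + η) * r) ^ 2 := by
    refine pow_le_pow_left₀ (by positivity) ?_ 2
    rw [div_le_iff₀ (by linarith)]
    nlinarith [mul_nonneg hη.le hr, mul_nonneg (mul_nonneg hη.le hη.le) hr]
  have h3 : max ((s / (1 + η)) ^ 2) (min ((qq η ((m : ℤ) + 1)) ^ 2) (((1 + η) * r) ^ 2)) ≤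
      ((1 + η) * r) ^ 2 := max_le h2 (min_le_right _ _)
  have h4 : (s / (1 + η)) ^ 2 ≤
      max ((s / (1 + η)) ^ 2) (min ((qq η (-(m : ℤ))) ^ 2) (((1 + η) * r) ^ 2)) :=
    le_max_left _ _
  show max ((s / (1 + η)) ^ 2) (min ((qq η ((m : ℤ) + 1)) ^ 2) (((1 + η) * r) ^ 2)) -
    max ((s / (1 + η)) ^ 2) (min ((qq η (-(m : ℤ))) ^ 2) (((1 + η) * r) ^ 2)) ≤ _
  linarith

private theorem same_GenB {η : ℝ} (hη : 0 < η) (hη8 : η ≤ 1 / 8) (m M : ℕ) {s r : ℝ}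
    (hs : 0 ≤ s) (hsr : s ≤ r) :
    ∑ i ∈ Finset.Icc (-(m : ℤ)) m, ((qq η (i + 1)) ^ 2 - (qq η i) ^ 2) *
      (oddr (qq η i) (η * qq η i / (M + 1)) s - oddr (qq η i) (η * qq η i / (M + 1)) r) ^ 2
      ≤ 1 / η * (s - r) ^ 2 + 8 * η * (s ^ 2 + r ^ 2) := by
  refine (key_GenB hη m M hs hsr).trans ?_
  have h1 : s ^ 2 * (1 - 2 * η) ≤ (s / (1 + η)) ^ 2 := by
    rw [div_pow, le_div_iff₀ (by positivity)]
    have h2 : (1 - 2 * η) * (1 + η) ^ 2 ≤ 1 := by nlinarith [mul_pos hη hη, pow_pos hη 3]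
    calc s ^ 2 * (1 - 2 * η) * (1 + η) ^ 2 = s ^ 2 * ((1 - 2 * η) * (1 + η) ^ 2) := by ring
      _ ≤ s ^ 2 * 1 := mul_le_mul_of_nonneg_left h2 (sq_nonneg s)
      _ = s ^ 2 := mul_one _
  have h3 : ((1 + η) * r) ^ 2 ≤ r ^ 2 + 3 * η * r ^ 2 := by
    have h4 : (1 + η) ^ 2 ≤ 1 + 3 * η := by nlinarith
    calc ((1 + η) * r) ^ 2 = (1 + η) ^ 2 * r ^ 2 := by ring
      _ ≤ (1 + 3 * η) * r ^ 2 := mul_le_mul_of_nonneg_right h4 (sq_nonneg r)
      _ = _ := by ring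
  have h5 : r ^ 2 - s ^ 2 ≤ 1 / η * (s - r) ^ 2 + η * (s ^ 2 + r ^ 2) := by
    have h6 : η * (r ^ 2 - s ^ 2) ≤ (s - r) ^ 2 + η * (η * (s ^ 2 + r ^ 2)) := by
      nlinarith [sq_nonneg ((r - s) - η * (r + s) / 2), sq_nonneg (η * (r - s))]
    have h7 : 1 / η * (s - r) ^ 2 = (s - r) ^ 2 / η := by ring
    rw [h7]
    have h8 : r ^ 2 - s ^ 2 - η * (s ^ 2 + r ^ 2) ≤ (s - r) ^ 2 / η := by
      rw [le_div_iff₀ hη]
      nlinarith
    linarith
  nlinarith [mul_nonneg hη.le (sq_nonneg s), mul_nonneg hη.le (sq_nonneg r)]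

private theorem opp_GenB {η : ℝ} (hη : 0 < η) (hη8 : η ≤ 1 / 8) (m M : ℕ) {s r : ℝ}
    (hs : 0 ≤ s) (hr : 0 ≤ r) :
    ∑ i ∈ Finset.Icc (-(m : ℤ)) m, ((qq η (i + 1)) ^ 2 - (qq η i) ^ 2) *
      (oddr (qq η i) (η * qq η i / (M + 1)) (-s) - oddr (qq η i) (η * qq η i / (M + 1)) r) ^ 2
      ≤ 1 / η * (-s - r) ^ 2 + 8 * η * ((-s) ^ 2 + r ^ 2) := by
  have k1 := key_GenB hη m M le_rfl hs
  have k2 := key_GenB hη m M le_rfl hr
  have h1 : ∑ i ∈ Finset.Icc (-(m : ℤ)) m, ((qq η (i + 1)) ^ 2 - (qq η i) ^ 2) *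
      (oddr (qq η i) (η * qq η i / (M + 1)) (-s) - oddr (qq η i) (η * qq η i / (M + 1)) r) ^ 2
      ≤ 2 * (∑ i ∈ Finset.Icc (-(m : ℤ)) m, ((qq η (i + 1)) ^ 2 - (qq η i) ^ 2) *
      (oddr (qq η i) (η * qq η i / (M + 1)) 0 - oddr (qq η i) (η * qq η i / (M + 1)) s) ^ 2) +
      2 * (∑ i ∈ Finset.Icc (-(m : ℤ)) m, ((qq η (i + 1)) ^ 2 - (qq η i) ^ 2) *
      (oddr (qq η i) (η * qq η i / (M + 1)) 0 - oddr (qq η i) (η * qq η i / (M + 1)) r) ^ 2) := by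
    rw [Finset.mul_sum, Finset.mul_sum, ← Finset.sum_add_distrib]
    refine Finset.sum_le_sum fun i _ => ?_
    rw [oddr_neg_GenB, oddr_zero_GenB (s := 0) (qq_pos_GenB hη i) (w_pos_GenB hη M i) le_rfl
      (qq_pos_GenB hη i).le]
    have hc : 0 ≤ (qq η (i + 1)) ^ 2 - (qq η i) ^ 2 := by
      rw [qq_succ_GenB hη]
      have := qq_pos_GenB hη i
      have h2 : (qq η i) ^ 2 ≤ ((1 + η) * qq η i) ^ 2 :=
        pow_le_pow_left₀ this.le (by nlinarith) 2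
      linarith
    generalize oddr (qq η i) (η * qq η i / (M + 1)) s = a
    generalize oddr (qq η i) (η * qq η i / (M + 1)) r = b
    generalize (qq η (i + 1)) ^ 2 - (qq η i) ^ 2 = c at hc
    nlinarith [mul_nonneg hc (sq_nonneg (a - b))]
  have h2 : (1 + η) ^ 2 ≤ 3 / 2 := by nlinarith
  have h3 : ((1 + η) * s) ^ 2 ≤ 3 / 2 * s ^ 2 := by
    rw [mul_pow]
    exact mul_le_mul_of_nonneg_right h2 (sq_nonneg s)
  have h4 : ((1 + η) * r) ^ 2 ≤ 3 / 2 * r ^ 2 := by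
    rw [mul_pow]
    exact mul_le_mul_of_nonneg_right h2 (sq_nonneg r)
  have h5 : (8 : ℝ) ≤ 1 / η := by
    rw [le_div_iff₀ hη]
    linarith
  have h6 : 8 * (-s - r) ^ 2 ≤ 1 / η * (-s - r) ^ 2 :=
    mul_le_mul_of_nonneg_right h5 (sq_nonneg _)
  have h7 : 0 ≤ 8 * η * ((-s) ^ 2 + r ^ 2) := by positivity
  have h8 : s ^ 2 + r ^ 2 ≤ (-s - r) ^ 2 := by nlinarith [mul_nonneg hs hr]
  have h9 : (0 / (1 + η)) ^ 2 = (0 : ℝ) := by simp
  rw [h9] at k1 k2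
  nlinarith [sq_nonneg s, sq_nonneg r]

/-- For `0 ≤ s < r` only the `i` with `t_i < r` and `s < t_(i+1)` contribute, each at most
`c_i = t_(i+1)² - t_i²`, and the sum telescopes:
`≤ (1+η)² r² - s² / (1+η)² ≤ (r - s) (r + s) + 3 η r² + 2 η s²
≤ (r - s)² / (4 η) + 5 η (r² + s²)`. For opposite signs the sum is at most
`2 (1+η)² (r² + s²) ≤ 3 (r - s)²`. -/
theorem fine_upper {η : ℝ} (hη : 0 < η) (hη8 : η ≤ 1 / 8) (m M : ℕ) (s r : ℝ) :
    ∑ i ∈ Finset.Icc (-(m : ℤ)) m, ((qq η (i + 1)) ^ 2 - (qq η i) ^ 2) *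
      (oddr (qq η i) (η * qq η i / (M + 1)) s - oddr (qq η i) (η * qq η i / (M + 1)) r) ^ 2
      ≤ 1 / η * (s - r) ^ 2 + 8 * η * (s ^ 2 + r ^ 2) := by
  rcases le_total 0 s with hs | hs <;> rcases le_total 0 r with hr | hr
  · rcases le_total s r with h | h
    · exact same_GenB hη hη8 m M hs h
    · have h1 := same_GenB hη hη8 m M hr h
      have e : 1 / η * (s - r) ^ 2 + 8 * η * (s ^ 2 + r ^ 2) =
          1 / η * (r - s) ^ 2 + 8 * η * (r ^ 2 + s ^ 2) := by ring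
      rw [e]
      refine le_trans (le_of_eq (Finset.sum_congr rfl fun i _ => ?_)) h1
      ring
  · have h1 := opp_GenB hη hη8 m M (neg_nonneg.2 hr) hs
    rw [neg_neg] at h1
    have e : 1 / η * (s - r) ^ 2 + 8 * η * (s ^ 2 + r ^ 2) =
        1 / η * (r - s) ^ 2 + 8 * η * (r ^ 2 + s ^ 2) := by ring
    rw [e]
    refine le_trans (le_of_eq (Finset.sum_congr rfl fun i _ => ?_)) h1
    ring
  · have h1 := opp_GenB hη hη8 m M (neg_nonneg.2 hs) hr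
    rw [neg_neg] at h1
    exact h1
  · have hneg : ∀ i ∈ Finset.Icc (-(m : ℤ)) m, ((qq η (i + 1)) ^ 2 - (qq η i) ^ 2) *
      (oddr (qq η i) (η * qq η i / (M + 1)) s - oddr (qq η i) (η * qq η i / (M + 1)) r) ^ 2 =
      ((qq η (i + 1)) ^ 2 - (qq η i) ^ 2) * (oddr (qq η i) (η * qq η i / (M + 1)) (-s) -
        oddr (qq η i) (η * qq η i / (M + 1)) (-r)) ^ 2 := by
      intro i _
      rw [oddr_neg_GenB, oddr_neg_GenB]
      ring
    rw [Finset.sum_congr rfl hneg]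
    rcases le_total s r with h | h
    · have h1 := same_GenB hη hη8 m M (neg_nonneg.2 hr) (neg_le_neg h)
      have e : 1 / η * (s - r) ^ 2 + 8 * η * (s ^ 2 + r ^ 2) =
          1 / η * (-r - -s) ^ 2 + 8 * η * ((-r) ^ 2 + (-s) ^ 2) := by ring
      rw [e]
      refine le_trans (le_of_eq (Finset.sum_congr rfl fun i _ => ?_)) h1
      ring
    · have h1 := same_GenB hη hη8 m M (neg_nonneg.2 hs) (neg_le_neg h)
      have e : 1 / η * (s - r) ^ 2 + 8 * η * (s ^ 2 + r ^ 2) =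
          1 / η * (-s - -r) ^ 2 + 8 * η * ((-s) ^ 2 + (-r) ^ 2) := by ring
      rw [e]
      exact h1

/-- `oddr t w s ² = 1` for `|s| ≥ t (1 + η)`; telescope. -/
theorem fine_lower {η : ℝ} (hη : 0 < η) (hη8 : η ≤ 1 / 8) (m M : ℕ) {s : ℝ}
    (hs : |s| ≤ qq η m) :
    s ^ 2 / 2 ≤ ∑ i ∈ Finset.Icc (-(m : ℤ)) m, ((qq η (i + 1)) ^ 2 - (qq η i) ^ 2) *
      (oddr (qq η i) (η * qq η i / (M + 1)) s) ^ 2 + (qq η (-m)) ^ 2 := by
  have habs : ∀ i ∈ Finset.Icc (-(m : ℤ)) m, ((qq η (i + 1)) ^ 2 - (qq η i) ^ 2) *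
      (oddr (qq η i) (η * qq η i / (M + 1)) s) ^ 2 = ((qq η (i + 1)) ^ 2 - (qq η i) ^ 2) *
      (oddr (qq η i) (η * qq η i / (M + 1)) |s|) ^ 2 := by
    intro i _
    rcases abs_cases s with ⟨h, -⟩ | ⟨h, -⟩
    · rw [h]
    · rw [h, oddr_neg_GenB, neg_sq]
  rw [Finset.sum_congr rfl habs, ← sq_abs s]
  have hs0 : 0 ≤ |s| := abs_nonneg s
  generalize |s| = u at hs hs0
  have h1 : ∑ i ∈ Finset.Icc (-(m : ℤ)) m,
      ((fun j : ℤ => min ((qq η j) ^ 2) ((u / (1 + η)) ^ 2)) (i + 1) -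
        (fun j : ℤ => min ((qq η j) ^ 2) ((u / (1 + η)) ^ 2)) i) ≤
      ∑ i ∈ Finset.Icc (-(m : ℤ)) m, ((qq η (i + 1)) ^ 2 - (qq η i) ^ 2) *
      (oddr (qq η i) (η * qq η i / (M + 1)) u) ^ 2 := by
    refine Finset.sum_le_sum fun i _ => ?_
    have ht := qq_pos_GenB hη i
    have hw := w_pos_GenB hη M i
    have htw := w_le_GenB hη M i
    simp only [qq_succ_GenB hη]
    generalize qq η i = t at ht hw htw
    generalize η * t / ((M : ℝ) + 1) = w at hw htw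
    have hq : t ≤ (1 + η) * t := by nlinarith
    have hsq : t ^ 2 ≤ ((1 + η) * t) ^ 2 := pow_le_pow_left₀ ht.le hq 2
    by_cases h2 : (1 + η) * t ≤ u
    · rw [oddr_one_GenB ht hw (htw.trans h2)]
      have h3 : t ≤ u / (1 + η) := by
        rw [le_div_iff₀ (by linarith)]
        linarith
      have h4 : t ^ 2 ≤ (u / (1 + η)) ^ 2 := pow_le_pow_left₀ ht.le h3 2
      rw [min_eq_left h4]
      have h5 : min (((1 + η) * t) ^ 2) ((u / (1 + η)) ^ 2) ≤ ((1 + η) * t) ^ 2 :=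
        min_le_left _ _
      linarith
    · push Not at h2
      have h3 : u / (1 + η) ≤ t := by
        rw [div_le_iff₀ (by linarith)]
        linarith
      have h3' : 0 ≤ u / (1 + η) := by positivity
      have h4 : (u / (1 + η)) ^ 2 ≤ t ^ 2 := pow_le_pow_left₀ h3' h3 2
      rw [min_eq_right h4, min_eq_right (h4.trans hsq), sub_self]
      exact mul_nonneg (by linarith) (sq_nonneg _)
  replace h1 := (tele2_GenB (fun j : ℤ => min ((qq η j) ^ 2) ((u / (1 + η)) ^ 2)) m).symm.trans_le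
    h1
  have h2 : (fun j : ℤ => min ((qq η j) ^ 2) ((u / (1 + η)) ^ 2)) ((m : ℤ) + 1) =
      (u / (1 + η)) ^ 2 := by
    refine min_eq_right (pow_le_pow_left₀ (by positivity) ?_ 2)
    rw [qq_succ_GenB hη, div_le_iff₀ (by linarith)]
    have h3 := qq_pos_GenB hη (m : ℤ)
    nlinarith [mul_pos hη h3, mul_pos hη (mul_pos hη h3)]
  have h3 : (fun j : ℤ => min ((qq η j) ^ 2) ((u / (1 + η)) ^ 2)) (-(m : ℤ)) ≤
      (qq η (-(m : ℤ))) ^ 2 := min_le_left _ _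
  have h1' := (sub_le_sub_left h3 _).trans h1
  have h2' : min ((qq η ((m : ℤ) + 1)) ^ 2) ((u / (1 + η)) ^ 2) = (u / (1 + η)) ^ 2 := h2
  rw [h2'] at h1'
  have h4 : u ^ 2 / 2 ≤ (u / (1 + η)) ^ 2 := by
    rw [div_pow, div_le_div_iff₀ (by norm_num) (by positivity)]
    have h5 : (1 + η) ^ 2 ≤ 2 := by nlinarith
    exact mul_le_mul_of_nonneg_left h5 (sq_nonneg u)
  linarith

theorem exists_grid' {η : ℝ} (hη : 0 < η) (R ρ : ℝ) (hρ : 0 < ρ) :
    ∃ m : ℕ, R ≤ qq η m ∧ (qq η (-m)) ^ 2 ≤ ρ := by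
  obtain ⟨m, h1, h2⟩ := exists_grid hη R ρ hρ
  refine ⟨m + 2, ?_, ?_⟩
  · have e : (((m + 2 : ℕ) : ℤ)) = (m : ℤ) + 2 := by push_cast; ring
    rw [e]
    exact h1
  · refine le_trans (pow_le_pow_left₀ (qq_pos_GenB hη _).le ?_ 2) h2
    unfold qq
    refine zpow_le_zpow_right₀ (by linarith) ?_
    push_cast
    linarith

end Pool.McT
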