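import Pool.Agent.McT.W.Gen
import Pool.Agent.McT.W.GenB

/-! From a nilpotent element to a partial isometry (Connes' trick). -/

set_option autoImplicit false

namespace Pool.McT

open Filter Topology

variable {A : Type*} [CStarAlgebra A] {τ : A →ₗ[ℂ] ℂ}

private theorem cm_zero_Connes (u : A) : cm (0 : A) u = 0 := by
  unfold cm
  rw [zero_mul, mul_zero, sub_zero]

private theorem N_one_Connes (hW : WT τ) : N τ (1 : A) = 1 := by
  unfold N
  rw [star_one, one_mul, hW.one, Complex.one_re]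

private theorem ent10_Connes {M : M2 A} (hM : star M = M) : ent M 1 0 = star (ent M 0 1) := by
  rw [← ent_star, hM]

private theorem S_tendsto_Connes (hW : WT τ) (G : Finset A) {e : ℕ → A} {y : A}
    (h : Lim2 τ e y) : Tendsto (fun M => S τ G (e M)) atTop (𝓝 (S τ G y)) := by
  unfold S
  refine tendsto_finsetSum _ fun u _ => ?_
  have h1 : Lim2 τ (fun M => cm (e M) u) (cm y u) :=
    Lim2.sub hW (Lim2.mul_right hW u h) (Lim2.mul_left hW u h)
  have h2 : Lim2 τ (fun M => cm (star (e M)) u) (cm (star y) u) :=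
    Lim2.sub hW (Lim2.mul_right hW u (Lim2.star hW h)) (Lim2.mul_left hW u (Lim2.star hW h))
  exact (Lim2.tendsto_N hW h1).add (Lim2.tendsto_N hW h2)

/-- the `2`-norm of an odd function of `XX w` -/
private theorem N_odd_Connes (hW : WT τ) (w : A) {f : ℝ → ℝ} (hf : Continuous f)
    (ho : ∀ s, f (-s) = - f s) :
    N (tr2 τ) (cfc f (XX w)) = 2 * N τ (ent (cfc f (XX w)) 0 1) := by
  obtain ⟨h00, h11⟩ := cfc_odd w hf ho
  have hs : star (cfc f (XX w)) = cfc f (XX w) :=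
    (cfc_predicate (R := ℝ) f (XX w) : IsSelfAdjoint _)
  rw [N_tr2 hW.tr, h00, h11, ent10_Connes hs, N_zero, N_star hW.tr]
  ring

private theorem cm_odd_Connes (hW : WT τ) (w u : A) {f : ℝ → ℝ} (hf : Continuous f)
    (ho : ∀ s, f (-s) = - f s) :
    N (tr2 τ) (cm (cfc f (XX w)) (UU u)) = N τ (cm (ent (cfc f (XX w)) 0 1) u) +
      N τ (cm (star (ent (cfc f (XX w)) 0 1)) u) := by
  obtain ⟨h00, h11⟩ := cfc_odd w hf ho
  have hs : star (cfc f (XX w)) = cfc f (XX w) :=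
    (cfc_predicate (R := ℝ) f (XX w) : IsSelfAdjoint _)
  rw [N_cm_UU hW.tr, h00, h11, ent10_Connes hs, cm_zero_Connes, N_zero]
  ring

private theorem odd_cont_Connes {η : ℝ} (hη : 0 < η) (i : ℤ) (M : ℕ) :
    Continuous (oddr (qq η i) (η * qq η i / (M + 1))) := by
  refine continuous_oddr _ ?_
  have := qq_pos hη i
  positivity

private theorem c_nonneg_Connes {η : ℝ} (hη : 0 < η) (i : ℤ) :
    0 ≤ (qq η (i + 1)) ^ 2 - (qq η i) ^ 2 := by
  have h1 := qq_pos hη i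
  have h2 := qq_succ hη i
  have h3 : qq η i ≤ qq η (i + 1) := by
    rw [h2]
    have := mul_pos hη h1
    linarith
  have h4 := pow_le_pow_left₀ h1.le h3 2
  linarith

/-- the upper bound for the sum of the commutators -/
private theorem upper_Connes (hW : WT τ) (G : Finset A) {η : ℝ} (hη : 0 < η)
    (hη8 : η ≤ 1 / 8) (w : A) (m M : ℕ) :
    ∑ i ∈ Finset.Icc (-(m : ℤ)) m, ((qq η (i + 1)) ^ 2 - (qq η i) ^ 2) *
      S τ G (ent (cfc (oddr (qq η i) (η * qq η i / (M + 1))) (XX w)) 0 1) ≤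
      1 / η * S τ G w + 32 * η * (∑ g ∈ G, ‖UU g‖ ^ 2) * N τ w := by
  have h1 : ∀ g ∈ G, ∑ i ∈ Finset.Icc (-(m : ℤ)) m, ((qq η (i + 1)) ^ 2 - (qq η i) ^ 2) *
      (N τ (cm (ent (cfc (oddr (qq η i) (η * qq η i / (M + 1))) (XX w)) 0 1) g) +
        N τ (cm (star (ent (cfc (oddr (qq η i) (η * qq η i / (M + 1))) (XX w)) 0 1)) g)) ≤
      1 / η * (N τ (cm w g) + N τ (cm (star w) g)) + 32 * η * ‖UU g‖ ^ 2 * N τ w := by
    intro g _
    have h2 := comm_sum_gen (isTr_tr2 hW.tr) (XX_selfAdjoint w) (UU g)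
      (ι := Finset.Icc (-(m : ℤ)) m)
      (fun i => oddr (qq η i) (η * qq η i / (M + 1)))
      (fun i => odd_cont_Connes hη i M)
      (fun i => (qq η ((i : ℤ) + 1)) ^ 2 - (qq η (i : ℤ)) ^ 2) (1 / η) (8 * η) (by positivity)
      (fun s r _ _ => by
        have h3 := fine_upper hη hη8 m M s r
        rw [← Finset.sum_coe_sort] at h3
        exact h3)
    rw [N_cm_XX hW.tr, N_XX hW.tr] at h2
    rw [← Finset.sum_coe_sort]
    calc _ = ∑ i : Finset.Icc (-(m : ℤ)) m, ((qq η ((i : ℤ) + 1)) ^ 2 - (qq η (i : ℤ)) ^ 2) *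
          N (tr2 τ) (cm (cfc (oddr (qq η i) (η * qq η i / (M + 1))) (XX w)) (UU g)) := by
          refine Finset.sum_congr rfl fun i _ => ?_
          rw [cm_odd_Connes hW w g (odd_cont_Connes hη i M) (oddr_neg _ _)]
      _ ≤ _ := h2
      _ = _ := by ring
  calc _ = ∑ g ∈ G, ∑ i ∈ Finset.Icc (-(m : ℤ)) m, ((qq η (i + 1)) ^ 2 - (qq η i) ^ 2) *
      (N τ (cm (ent (cfc (oddr (qq η i) (η * qq η i / (M + 1))) (XX w)) 0 1) g) +
        N τ (cm (star (ent (cfc (oddr (qq η i) (η * qq η i / (M + 1))) (XX w)) 0 1)) g)) := by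
        rw [Finset.sum_comm]
        refine Finset.sum_congr rfl fun i _ => ?_
        unfold S
        rw [Finset.mul_sum]
    _ ≤ ∑ g ∈ G, (1 / η * (N τ (cm w g) + N τ (cm (star w) g)) +
          32 * η * ‖UU g‖ ^ 2 * N τ w) := Finset.sum_le_sum h1
    _ = _ := by
        rw [Finset.sum_add_distrib, ← Finset.mul_sum, ← Finset.sum_mul, ← Finset.mul_sum]
        rfl

/-- the lower bound for the sum of the 2-norms -/
private theorem lower_Connes (hW : WT τ) {η : ℝ} (hη : 0 < η)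
    (hη8 : η ≤ 1 / 8) (w : A) (m M : ℕ) (hR : ‖XX w‖ ≤ qq η m) :
    N τ w ≤ 2 * ∑ i ∈ Finset.Icc (-(m : ℤ)) m, ((qq η (i + 1)) ^ 2 - (qq η i) ^ 2) *
      N τ (ent (cfc (oddr (qq η i) (η * qq η i / (M + 1))) (XX w)) 0 1) +
        2 * (qq η (-m)) ^ 2 := by
  have h2 := sum_N_ge (isTr_tr2 hW.tr) (XX_selfAdjoint w)
      (ι := Finset.Icc (-(m : ℤ)) m)
      (fun i => oddr (qq η i) (η * qq η i / (M + 1)))
      (fun i => odd_cont_Connes hη i M)
      (fun i => (qq η ((i : ℤ) + 1)) ^ 2 - (qq η (i : ℤ)) ^ 2) ((qq η (-m)) ^ 2)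
      (fun s hs => by
        have h3 := fine_lower hη hη8 m M (hs.trans hR)
        rw [← Finset.sum_coe_sort] at h3
        exact h3)
  have h1 : N (tr2 τ) (1 : M2 A) = 2 := by
    rw [N_tr2 hW.tr, ent_one_00, ent_one_01, ent_one_10, ent_one_11, N_zero, N_one_Connes hW]
    norm_num
  rw [N_XX hW.tr, h1] at h2
  have h3 : ∑ i : Finset.Icc (-(m : ℤ)) m, ((qq η ((i : ℤ) + 1)) ^ 2 - (qq η (i : ℤ)) ^ 2) *
      N (tr2 τ) (cfc (oddr (qq η i) (η * qq η i / (M + 1))) (XX w)) =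
      2 * ∑ i ∈ Finset.Icc (-(m : ℤ)) m, ((qq η (i + 1)) ^ 2 - (qq η i) ^ 2) *
      N τ (ent (cfc (oddr (qq η i) (η * qq η i / (M + 1))) (XX w)) 0 1) := by
    rw [← Finset.sum_coe_sort (Finset.Icc (-(m : ℤ)) m), Finset.mul_sum]
    refine Finset.sum_congr rfl fun i _ => ?_
    rw [N_odd_Connes hW w (odd_cont_Connes hη i M) (oddr_neg _ _)]
    ring
  rw [h3] at h2
  linarith

/-- `X = XX w`, `K = ∑ g, ‖UU g‖²`, `η = min (1/8) (δ' / (200 (K + 1)))`, `δ = η δ' / 8`. Let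
`t_i = qq η i`, `c_i = t_(i+1)² - t_i²`, `|i| ≤ m`, `m` from `exists_grid'` with `R = ‖X‖`,
`ρ = N w / 8`; `y_i` the cut of `w` at level `t_i` (`exists_cut`). For every `M`,
`comm_sum_gen` with `fine_upper` (for `tr2 τ`, `X`, `UU g`) and `N_cm_XX`, `N_XX`:
`∑ c_i N (cm (cfc (oddr ..) X) (UU g)) ≤ 1/η (N [w, g] + N [w*, g]) + 16 η ‖UU g‖² 2 N w`, and
`sum_N_ge` with `fine_lower`: `N w ≤ ∑ c_i N (cfc (oddr ..) X) + 2 ρ`. Let `M → ∞` (`IsCut`,
`N_cm_UU`, `N_tr2`, `cfc_odd`; entry `1 0` is the adjoint of entry `0 1`):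
`∑ c_i S (y_i) ≤ (δ / η + 32 η K) N w` and `2 ∑ c_i N (y_i) ≥ 3/4 N w`, so some `i` has
`N (y_i) > 0` and `S (y_i) ≤ δ' N (y_i)`. -/
theorem connes (hW : WT τ) (G : Finset A) {δ' : ℝ} (hδ' : 0 < δ') :
    ∃ δ : ℝ, 0 < δ ∧ ∀ w : A, w * w = 0 → w ≠ 0 → S τ G w ≤ δ * N τ w →
      ∃ y : A, y ≠ 0 ∧ IsPI y ∧ y * y = 0 ∧ (∀ c, c * w = 0 → c * y = 0) ∧
        (∀ c, w * c = 0 → y * c = 0) ∧ S τ G y ≤ δ' * N τ y := by
  set K : ℝ := ∑ g ∈ G, ‖UU g‖ ^ 2 with hK
  have hK0 : 0 ≤ K := Finset.sum_nonneg fun g _ => by positivity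
  set η : ℝ := min (1 / 8) (δ' / (200 * (K + 1))) with hηdef
  have hη : 0 < η := lt_min (by norm_num) (by positivity)
  have hη8 : η ≤ 1 / 8 := min_le_left _ _
  have hηK : η * (200 * (K + 1)) ≤ δ' := by
    have h1 : η ≤ δ' / (200 * (K + 1)) := min_le_right _ _
    rwa [le_div_iff₀ (by positivity)] at h1
  refine ⟨η * δ' / 8, by positivity, ?_⟩
  intro w hww hw0 hS
  have hN0 : 0 < N τ w := by
    refine lt_of_le_of_ne (N_nonneg hW.tr w) fun h => ?_
    exact hw0 (hW.faithful w h.symm)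
  obtain ⟨m, hmR, hmρ⟩ := exists_grid' hη ‖XX w‖ (N τ w / 8) (by positivity)
  have hcut : ∀ i : ℤ, ∃ u : A, IsCut τ w (qq η i) u := fun i => exists_cut hW w (qq_pos hη i)
  choose y hy using hcut
  have hlim : ∀ i : ℤ, Lim2 τ (fun M : ℕ =>
      ent (cfc (oddr (qq η i) (η * qq η i / (M + 1))) (XX w)) 0 1) (y i) := by
    intro i
    refine hy i (fun M => η * qq η i / (M + 1)) (fun M => ?_) ?_
    · have := qq_pos hη i
      positivity
    · have h1 : Tendsto (fun M : ℕ => (1 : ℝ) / ((M : ℝ) + 1)) atTop (𝓝 0) :=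
        tendsto_one_div_add_atTop_nhds_zero_nat
      have h2 := h1.const_mul (η * qq η i)
      rw [mul_zero] at h2
      refine h2.congr fun M => ?_
      rw [mul_one_div]
  -- the limits
  have hU : ∑ i ∈ Finset.Icc (-(m : ℤ)) m, ((qq η (i + 1)) ^ 2 - (qq η i) ^ 2) *
      S τ G (y i) ≤ 1 / η * S τ G w + 32 * η * K * N τ w := by
    refine le_of_tendsto (tendsto_finsetSum _ fun i _ =>
      (S_tendsto_Connes hW G (hlim i)).const_mul ((qq η (i + 1)) ^ 2 - (qq η i) ^ 2))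
      (Eventually.of_forall fun M => ?_)
    exact upper_Connes hW G hη hη8 w m M
  have hL : N τ w ≤ 2 * ∑ i ∈ Finset.Icc (-(m : ℤ)) m, ((qq η (i + 1)) ^ 2 - (qq η i) ^ 2) *
      N τ (y i) + 2 * (qq η (-m)) ^ 2 := by
    refine ge_of_tendsto (((tendsto_finsetSum _ fun i _ =>
      (Lim2.tendsto_N hW (hlim i)).const_mul ((qq η (i + 1)) ^ 2 - (qq η i) ^ 2)).const_mul
        2).add_const _) (Eventually.of_forall fun M => ?_)
    exact lower_Connes hW hη hη8 w m M hmR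
  by_contra hcon
  have hall : ∀ i : ℤ, δ' * N τ (y i) ≤ S τ G (y i) := by
    intro i
    by_contra hlt
    rw [not_le] at hlt
    have ht := qq_pos hη i
    refine hcon ⟨y i, fun h0 => ?_, (hy i).isPI hW ht, (hy i).sq_zero hW ht hww,
      fun c hc => (hy i).left_zero hW ht hc, fun c hc => (hy i).right_zero hW ht hc, hlt.le⟩
    rw [h0, N_zero, mul_zero] at hlt
    exact absurd hlt (not_lt.2 (Finset.sum_nonneg fun u _ =>
      add_nonneg (N_nonneg hW.tr _) (N_nonneg hW.tr _)))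
  have h1 : δ' * ∑ i ∈ Finset.Icc (-(m : ℤ)) m, ((qq η (i + 1)) ^ 2 - (qq η i) ^ 2) *
      N τ (y i) ≤ ∑ i ∈ Finset.Icc (-(m : ℤ)) m, ((qq η (i + 1)) ^ 2 - (qq η i) ^ 2) *
      S τ G (y i) := by
    rw [Finset.mul_sum]
    refine Finset.sum_le_sum fun i _ => ?_
    have h2 := mul_le_mul_of_nonneg_left (hall i) (c_nonneg_Connes hη i)
    linarith
  have h2 : 1 / η * S τ G w ≤ δ' / 8 * N τ w := by
    have h3 := mul_le_mul_of_nonneg_left hS (le_of_lt (one_div_pos.2 hη))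
    have h4 : 1 / η * (η * δ' / 8 * N τ w) = δ' / 8 * N τ w := by
      field_simp
    rw [h4] at h3
    exact h3
  have h3 : 32 * η * K * N τ w ≤ (32 / 200) * δ' * N τ w := by
    refine mul_le_mul_of_nonneg_right ?_ hN0.le
    nlinarith [mul_nonneg hη.le hK0, hη.le]
  have h4 : (3 / 8) * N τ w ≤ ∑ i ∈ Finset.Icc (-(m : ℤ)) m,
      ((qq η (i + 1)) ^ 2 - (qq η i) ^ 2) * N τ (y i) := by linarith
  have h5 := mul_le_mul_of_nonneg_left h4 hδ'.le
  have h6 : 0 < δ' * N τ w := mul_pos hδ' hN0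
  nlinarith [h1, h2, h3, h5, h6, hU]

end Pool.McT
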