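import Pool.Agent.McT.PTb
import Pool.Agent.McT.GridC
import Pool.Agent.McT.W.PI

/-! Kernel inequalities for sharp cuts at the levels of a fine grid. -/

set_option autoImplicit false

namespace Pool.McT

variable {A : Type*} [CStarAlgebra A] {τ : A →ₗ[ℂ] ℂ}

/-- the bilinear expression -/
private noncomputable def T_Gen (τ : A →ₗ[ℂ] ℂ) (h u : A) (f g : ℝ → ℝ) : ℝ :=
  (τ (cfc f h * u * cfc g h * star u)).re

private lemma T_mul_Gen {h : A} (u : A) (c : ℝ) {f : ℝ → ℝ} (hf : Continuous f) (g : ℝ → ℝ) :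
    T_Gen τ h u (fun s => c * f s) g = c * T_Gen τ h u f g := by
  unfold T_Gen
  rw [cfc_const_mul c f h hf.continuousOn, smul_mul_assoc, smul_mul_assoc, smul_mul_assoc]
  have h1 : ∀ x : A, (c • x : A) = (c : ℂ) • x := fun x => (Complex.coe_smul c x).symm
  rw [h1, map_smul, smul_eq_mul, Complex.re_ofReal_mul]

private lemma T_cm_Gen (hτ : IsTr τ) {h : A} (hh : IsSelfAdjoint h) (u : A) {g : ℝ → ℝ}
    (hg : Continuous g) : N τ (cm (cfc g h) u) =
      T_Gen τ h u (fun s => g s ^ 2) (fun _ => 1) + T_Gen τ h u (fun _ => 1) (fun s => g s ^ 2)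
        - 2 * T_Gen τ h u g g := by
  rw [N_cm_selfAdjoint hτ (cfc_predicate g h)]
  unfold T_Gen
  rw [cfc_pow g 2 h hg.continuousOn hh, cfc_const_one ℝ h hh, mul_one, one_mul, sq]

private lemma pos_Gen (hτ : IsTr τ) {h : A} (hh : IsSelfAdjoint h) (u : A) {J : Type} [Fintype J]
    (w : J → ℝ) (f g : J → ℝ → ℝ) (hf : ∀ j, Continuous (f j)) (hg : ∀ j, Continuous (g j))
    (hpos : ∀ s r : ℝ, |s| ≤ ‖h‖ → |r| ≤ ‖h‖ → 0 ≤ ∑ j, w j * f j s * g j r) :
    0 ≤ ∑ j, w j * T_Gen τ h u (f j) (g j) := by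
  have h1 := pos_transfer hτ hh u (fun j s => w j * f j s) g
    (fun j => continuous_const.mul (hf j)) hg hpos
  refine h1.trans_eq (Finset.sum_congr rfl fun j _ => ?_)
  exact T_mul_Gen u (w j) (hf j) (g j)

/-- As `comm_sum`, with the additional terms `τ (h h u u*) + τ (u h h u*) ≤ 2 ‖u‖² N h`. -/
theorem comm_sum_gen (hτ : IsTr τ) {h : A} (hh : IsSelfAdjoint h) (u : A) {ι : Type}
    [Fintype ι] (g : ι → ℝ → ℝ) (hg : ∀ i, Continuous (g i)) (w : ι → ℝ) (a b : ℝ)
    (hb : 0 ≤ b)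
    (hker : ∀ s r : ℝ, |s| ≤ ‖h‖ → |r| ≤ ‖h‖ →
      ∑ i, w i * (g i s - g i r) ^ 2 ≤ a * (s - r) ^ 2 + b * (s ^ 2 + r ^ 2)) :
    ∑ i, w i * N τ (cm (cfc (g i) h) u) ≤ a * N τ (cm h u) + 2 * b * ‖u‖ ^ 2 * N τ h := by
  have h1 := pos_Gen hτ hh u (J := Fin 5 ⊕ (ι × Fin 3))
    (Sum.elim ![a, -(2 * a), a, b, b] fun i => ![-(w i.1), 2 * w i.1, -(w i.1)] i.2)
    (Sum.elim ![fun s => s ^ 2, fun s => s, fun _ => 1, fun s => s ^ 2, fun _ => 1]
      fun i => ![fun s => g i.1 s ^ 2, fun s => g i.1 s, fun _ => 1] i.2)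
    (Sum.elim ![fun _ => 1, fun s => s, fun s => s ^ 2, fun _ => 1, fun s => s ^ 2]
      fun i => ![fun _ => 1, fun s => g i.1 s, fun s => g i.1 s ^ 2] i.2)
    (by
      rintro (j | ⟨i, j⟩)
      · fin_cases j
        · exact continuous_pow 2
        · exact continuous_id
        · exact continuous_const
        · exact continuous_pow 2
        · exact continuous_const
      · fin_cases j
        · exact (hg i).pow 2
        · exact hg i
        · exact continuous_const)
    (by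
      rintro (j | ⟨i, j⟩)
      · fin_cases j
        · exact continuous_const
        · exact continuous_id
        · exact continuous_pow 2
        · exact continuous_const
        · exact continuous_pow 2
      · fin_cases j
        · exact continuous_const
        · exact hg i
        · exact (hg i).pow 2)
    (by
      intro s r hs hr
      have h2 := hker s r hs hr
      rw [Fintype.sum_sum_type, Fintype.sum_prod_type, Fin.sum_univ_five]
      simp only [Fin.sum_univ_three, Sum.elim_inl, Sum.elim_inr, Matrix.cons_val_zero,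
        Matrix.cons_val_one, Matrix.cons_val]
      have h3 : ∑ i, (-(w i) * g i s ^ 2 * 1 + 2 * w i * g i s * g i r + -(w i) * 1 * g i r ^ 2) =
          -∑ i, w i * (g i s - g i r) ^ 2 := by
        rw [← Finset.sum_neg_distrib]
        exact Finset.sum_congr rfl fun i _ => by ring
      rw [h3]
      linarith)
  rw [Fintype.sum_sum_type, Fintype.sum_prod_type, Fin.sum_univ_five] at h1
  simp only [Fin.sum_univ_three, Sum.elim_inl, Sum.elim_inr, Matrix.cons_val_zero,
    Matrix.cons_val_one, Matrix.cons_val] at h1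
  have h4 : N τ (cm h u) = T_Gen τ h u (fun s => s ^ 2) (fun _ => 1) +
      T_Gen τ h u (fun _ => 1) (fun s => s ^ 2) - 2 * T_Gen τ h u (fun s => s) fun s => s := by
    have h5 := T_cm_Gen hτ hh u (g := fun s => s) continuous_id
    rwa [cfc_id' ℝ h hh] at h5
  have h6 : ∑ i, w i * N τ (cm (cfc (g i) h) u) =
      -∑ i, (-(w i) * T_Gen τ h u (fun s => g i s ^ 2) (fun _ => 1) +
        2 * w i * T_Gen τ h u (fun s => g i s) (fun s => g i s) +
        -(w i) * T_Gen τ h u (fun _ => 1) (fun s => g i s ^ 2)) := by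
    rw [← Finset.sum_neg_distrib]
    refine Finset.sum_congr rfl fun i _ => ?_
    rw [T_cm_Gen hτ hh u (hg i)]
    ring
  have hh' : star h = h := hh
  have h7 : T_Gen τ h u (fun s => s ^ 2) (fun _ => 1) ≤ ‖u‖ ^ 2 * N τ h := by
    have h8 := N_mul_le_right hτ h u
    have h9 : T_Gen τ h u (fun s => s ^ 2) (fun _ => 1) = N τ (h * u) := by
      unfold T_Gen N
      rw [cfc_pow_id (R := ℝ) h 2 hh, cfc_const_one ℝ h hh, mul_one, sq, hτ.comm, star_mul, hh']
      simp only [mul_assoc]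
    rw [h9]
    exact h8
  have h10 : T_Gen τ h u (fun _ => 1) (fun s => s ^ 2) ≤ ‖u‖ ^ 2 * N τ h := by
    have h8 := N_mul_le_right hτ h (star u)
    have h9 : T_Gen τ h u (fun _ => 1) (fun s => s ^ 2) = N τ (h * star u) := by
      unfold T_Gen N
      rw [cfc_pow_id (R := ℝ) h 2 hh, cfc_const_one ℝ h hh, one_mul, sq, star_mul, star_star, hh']
      simp only [mul_assoc]
    rw [h9]
    rwa [norm_star] at h8
  have h11 := mul_le_mul_of_nonneg_left (add_le_add h7 h10) hb
  rw [h6, h4]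
  linarith

private lemma T_one_Gen (hτ : IsTr τ) {h : A} (hh : IsSelfAdjoint h) {g : ℝ → ℝ}
    (hg : Continuous g) : T_Gen τ h 1 (fun s => g s ^ 2) (fun _ => 1) = N τ (cfc g h) := by
  have h1 : star (cfc g h) = cfc g h := (cfc_predicate g h : IsSelfAdjoint _)
  unfold T_Gen N
  rw [cfc_pow g 2 h hg.continuousOn hh, cfc_const_one ℝ h hh, mul_one, mul_one, star_one, mul_one,
    sq, h1]

theorem sum_N_ge (hτ : IsTr τ) {h : A} (hh : IsSelfAdjoint h) {ι : Type} [Fintype ι]
    (g : ι → ℝ → ℝ) (hg : ∀ i, Continuous (g i)) (w : ι → ℝ) (ρ : ℝ)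
    (hker : ∀ s : ℝ, |s| ≤ ‖h‖ → s ^ 2 / 2 ≤ ∑ i, w i * (g i s) ^ 2 + ρ) :
    N τ h / 2 ≤ ∑ i, w i * N τ (cfc (g i) h) + ρ * N τ 1 := by
  have h1 := pos_Gen hτ hh (1 : A) (J := Fin 2 ⊕ ι)
    (Sum.elim ![-(1 / 2), ρ] fun i => w i)
    (Sum.elim ![fun s => s ^ 2, fun _ => 1 ^ 2] fun i => fun s => g i s ^ 2)
    (fun _ _ => 1)
    (by
      rintro (j | i)
      · fin_cases j
        · exact continuous_pow 2
        · exact continuous_const
      · exact (hg i).pow 2)
    (fun _ => continuous_const)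
    (by
      intro s r hs _
      have h2 := hker s hs
      rw [Fintype.sum_sum_type, Fin.sum_univ_two]
      simp only [Sum.elim_inl, Sum.elim_inr, Matrix.cons_val_zero, Matrix.cons_val_one,
        Matrix.cons_val, mul_one, one_pow]
      linarith)
  rw [Fintype.sum_sum_type, Fin.sum_univ_two] at h1
  simp only [Sum.elim_inl, Sum.elim_inr, Matrix.cons_val_zero, Matrix.cons_val_one,
    Matrix.cons_val] at h1
  have h3 := T_one_Gen hτ hh (g := fun s => s) continuous_id
  have h4 := T_one_Gen hτ hh (g := fun _ => 1) continuous_const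
  rw [cfc_id' ℝ h hh] at h3
  rw [cfc_const_one ℝ h hh] at h4
  rw [h3, h4] at h1
  have h5 : ∑ i, w i * T_Gen τ h 1 (fun s => g i s ^ 2) (fun _ => 1) =
      ∑ i, w i * N τ (cfc (g i) h) :=
    Finset.sum_congr rfl fun i _ => by rw [T_one_Gen hτ hh (hg i)]
  rw [h5] at h1
  linarith

end Pool.McT
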