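import Pool.Agent.McT.W.Dix

/-! Dixmier averaging, near traces. -/

set_option autoImplicit false

namespace Pool.McT

open Filter Topology

variable {A : Type*} [CStarAlgebra A] {τ : A →ₗ[ℂ] ℂ}

private theorem DixB_mul {q u v : A} (hq : IsPr q) (hu : IsCU q u) (hv : IsCU q v) :
    IsCU q (v * u) := by
  constructor
  · rw [star_mul, mul_assoc, ← mul_assoc (star v), hv.1, hu.left hq, hu.1]
  · rw [star_mul, mul_assoc, ← mul_assoc u, hu.2, ← mul_assoc, hv.right hq, hv.2]

private theorem DixB_self {q : A} (hq : IsPr q) : IsCU q q := by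
  constructor
  · rw [hq.1, hq.2]
  · rw [hq.1, hq.2]

private theorem DixB_star {q u : A} (h : IsCU q u) : IsCU q (star u) :=
  ⟨by rw [star_star]; exact h.2, by rw [star_star]; exact h.1⟩

private theorem DixB_iter (hF : Fac τ) {q b : A} (hq : IsPr q) (hb : IsSelfAdjoint b)
    (h1 : q * b = b) (h2 : b * q = b) (k : ℕ) :
    ∃ (n : ℕ) (u : Fin n → A) (c : ℝ), 0 < n ∧ (∀ i, IsCU q (u i)) ∧
      ‖((1 : ℂ) / n) • ∑ i, u i * b * star (u i) - (c : ℂ) • q‖ ≤ (3 / 4) ^ k * ‖b‖ := by
  induction k with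
  | zero =>
    refine ⟨1, fun _ => q, 0, Nat.one_pos, fun _ => DixB_self hq, ?_⟩
    rw [Fin.sum_univ_one, h1, hq.1, h2]
    simp
  | succ k ih =>
    obtain ⟨n, u, c, hn, hu, hc⟩ := ih
    obtain ⟨a, ha⟩ : ∃ a, a = ((1 : ℂ) / n) • ∑ i, u i * b * star (u i) := ⟨_, rfl⟩
    rw [← ha] at hc
    have hqa : q * a = a := by
      rw [ha, mul_smul_comm, Finset.mul_sum]
      congr 1
      refine Finset.sum_congr rfl fun i _ => ?_
      rw [← mul_assoc, ← mul_assoc, (hu i).left hq]
    have haq : a * q = a := by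
      rw [ha, smul_mul_assoc, Finset.sum_mul]
      congr 1
      refine Finset.sum_congr rfl fun i _ => ?_
      rw [mul_assoc, (DixB_star (hu i)).right hq]
    have hasa : IsSelfAdjoint a := by
      have h3 : star ((1 : ℂ) / n) = (1 : ℂ) / n := by simp
      rw [IsSelfAdjoint, ha, star_smul, h3, star_sum]
      congr 1
      refine Finset.sum_congr rfl fun i _ => ?_
      rw [star_mul, star_mul, star_star, hb.star_eq, mul_assoc]
    obtain ⟨v, c', hv, hvc⟩ := dix_step hF hq hasa hqa haq hc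
    refine ⟨n + n, Fin.append u (fun i => v * u i), c', by omega, ?_, ?_⟩
    · intro i
      refine Fin.addCases (fun j => ?_) (fun j => ?_) i
      · rw [Fin.append_left]
        exact hu j
      · rw [Fin.append_right]
        exact DixB_mul hq (hu j) hv
    · have h3 : ((1 : ℂ) / ((n + n : ℕ) : ℂ)) • ∑ i : Fin (n + n),
          Fin.append u (fun i => v * u i) i * b * star (Fin.append u (fun i => v * u i) i) =
          ((1 : ℂ) / 2) • (a + v * a * star v) := by
        rw [Fin.sum_univ_add]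
        simp only [Fin.append_left, Fin.append_right]
        have h4 : ∑ i, v * u i * b * star (v * u i) = v * (∑ i, u i * b * star (u i)) * star v := by
          rw [Finset.mul_sum, Finset.sum_mul]
          refine Finset.sum_congr rfl fun i _ => ?_
          rw [star_mul]
          simp only [mul_assoc]
        rw [h4, ha, mul_smul_comm, smul_mul_assoc, ← smul_add, smul_smul]
        congr 1
        push_cast
        have hn' : (n : ℂ) ≠ 0 := by exact_mod_cast hn.ne'
        field_simp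
        norm_num
      rw [h3]
      refine hvc.trans (le_of_eq ?_)
      ring

private theorem DixB_tau_q (hF : Fac τ) {q : A} (hq : IsPr q) (hq0 : q ≠ 0) :
    τ q = ((N τ q : ℝ) : ℂ) ∧ 0 < N τ q := by
  have hN := hq.N_eq (τ := τ)
  refine ⟨?_, ?_⟩
  · apply Complex.ext
    · rw [Complex.ofReal_re, hN]
    · rw [Complex.ofReal_im]
      have h := hF.tr.real q
      rwa [hq.1, hq.2] at h
  · refine lt_of_le_of_ne (N_nonneg hF.tr q) fun h => hq0 ?_
    exact hF.faithful q h.symm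

private theorem DixB_tau_b (hF : Fac τ) {b : A} (hb : IsSelfAdjoint b) :
    τ b = (((τ b).re : ℝ) : ℂ) := by
  have h := tau_star hF.tr b
  rw [hb.star_eq] at h
  apply Complex.ext
  · rw [Complex.ofReal_re]
  · rw [Complex.ofReal_im]
    have h2 := congrArg Complex.im h
    rw [Complex.conj_im] at h2
    linarith

private theorem DixB_cs (hF : Fac τ) (x y b : A) :
    ‖τ (x * y * b)‖ ≤ ‖b‖ * Real.sqrt (N τ x * N τ y) := by
  have h0 : τ (x * y * b) = τ ((b * x) * y) := by
    rw [hF.tr.comm, ← mul_assoc]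
  have h1 := tau_mul_sq_le hF.tr (b * x) y
  rw [← h0] at h1
  have h2 := N_mul_le_left hF.tr b x
  have hx := N_nonneg hF.tr x
  have hy := N_nonneg hF.tr y
  have h3 : ‖τ (x * y * b)‖ ^ 2 ≤ (‖b‖ * Real.sqrt (N τ x * N τ y)) ^ 2 := by
    rw [mul_pow, Real.sq_sqrt (mul_nonneg hx hy)]
    calc ‖τ (x * y * b)‖ ^ 2 ≤ N τ (b * x) * N τ y := h1
      _ ≤ ‖b‖ ^ 2 * N τ x * N τ y := mul_le_mul_of_nonneg_right h2 hy
      _ = ‖b‖ ^ 2 * (N τ x * N τ y) := by ring
  exact (pow_le_pow_iff_left₀ (norm_nonneg _) (by positivity) two_ne_zero).1 h3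

/-- Iterate `dix_step`; the final constant is compared by the trace:
`|c - τ b / τ q| ≤ ‖avg - c q‖`. -/
theorem dixmier (hF : Fac τ) {q b : A} (hq : IsPr q) (hq0 : q ≠ 0) (hb : IsSelfAdjoint b)
    (h1 : q * b = b) (h2 : b * q = b) {δ : ℝ} (hδ : 0 < δ) :
    ∃ (n : ℕ) (u : Fin n → A), 0 < n ∧ (∀ i, IsCU q (u i)) ∧
      ‖((1 : ℂ) / n) • ∑ i, u i * b * star (u i) - (τ b / τ q) • q‖ ≤ δ := by
  obtain ⟨hτq, hNq⟩ := DixB_tau_q hF hq hq0
  obtain ⟨k, hk⟩ : ∃ k : ℕ, (3 / 4 : ℝ) ^ k * ‖b‖ ≤ δ / 2 := by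
    have hb0 : 0 < δ / 2 / (‖b‖ + 1) := by positivity
    obtain ⟨k, hk⟩ := exists_pow_lt_of_lt_one hb0 (show (3 / 4 : ℝ) < 1 by norm_num)
    refine ⟨k, ?_⟩
    have h3 : (3 / 4 : ℝ) ^ k * (‖b‖ + 1) ≤ δ / 2 := by
      rw [lt_div_iff₀ (by positivity)] at hk
      exact hk.le
    have h4 : (0 : ℝ) < (3 / 4 : ℝ) ^ k := by positivity
    nlinarith
  obtain ⟨n, u, c, hn, hu, hc⟩ := DixB_iter hF hq hb h1 h2 k
  refine ⟨n, u, hn, hu, ?_⟩
  obtain ⟨a, ha⟩ : ∃ a, a = ((1 : ℂ) / n) • ∑ i, u i * b * star (u i) := ⟨_, rfl⟩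
  rw [← ha] at hc ⊢
  have hτa : τ a = τ b := by
    rw [ha, map_smul, map_sum]
    have h3 : ∀ i, τ (u i * b * star (u i)) = τ b := by
      intro i
      rw [hF.tr.comm, ← mul_assoc, (hu i).1, h1]
    rw [Finset.sum_congr rfl fun i _ => h3 i, Finset.sum_const, Finset.card_univ, Fintype.card_fin,
      nsmul_eq_mul, smul_eq_mul]
    have hn' : (n : ℂ) ≠ 0 := by exact_mod_cast hn.ne'
    field_simp
  obtain ⟨x, hx⟩ : ∃ x, x = a - (c : ℂ) • q := ⟨_, rfl⟩
  rw [← hx] at hc
  have haq : a * q = a := by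
    rw [ha, smul_mul_assoc, Finset.sum_mul]
    congr 1
    refine Finset.sum_congr rfl fun i _ => ?_
    rw [mul_assoc, (DixB_star (hu i)).right hq]
  have hxq : x * q = x := by
    rw [hx, sub_mul, haq, smul_mul_assoc, hq.2]
  have hτx : τ x = τ b - c * τ q := by
    rw [hx, map_sub, hτa, map_smul, smul_eq_mul]
  have h3 : ‖τ x‖ ≤ ‖x‖ * N τ q := by
    have h4 := DixB_cs hF q q x
    have h5 : q * q * x = q * x := by rw [hq.2]
    have h6 : τ (q * x) = τ x := by rw [hF.tr.comm, hxq]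
    rw [h5, h6] at h4
    rwa [Real.sqrt_mul_self hNq.le] at h4
  have h4 : ‖(c : ℂ) - τ b / τ q‖ ≤ ‖x‖ := by
    have h5 : (c : ℂ) - τ b / τ q = -(τ x) / τ q := by
      have hq' : τ q ≠ 0 := by
        rw [hτq]
        exact_mod_cast hNq.ne'
      rw [hτx]
      field_simp
      ring
    rw [h5, norm_div, norm_neg, hτq, Complex.norm_real, Real.norm_eq_abs, abs_of_pos hNq,
      div_le_iff₀ hNq]
    exact h3
  have h5 : a - (τ b / τ q) • q = x + ((c : ℂ) - τ b / τ q) • q := by
    rw [hx, sub_smul]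
    abel
  rw [h5]
  calc ‖x + ((c : ℂ) - τ b / τ q) • q‖ ≤ ‖x‖ + ‖((c : ℂ) - τ b / τ q) • q‖ := norm_add_le _ _
    _ ≤ ‖x‖ + ‖x‖ * 1 := by
      rw [norm_smul]
      gcongr
      exact hq.norm_le
    _ ≤ δ := by linarith

/-- For `w = q w q` nearly commuting with the unitaries `u i` of `dixmier`:
`τ (w* w u b u*) = τ ((w u)* (w u) b)`, `w u = u w + [w, u]`, `(u w)* (u w) = w* w`. -/
theorem near_trace (hF : Fac τ) {q b : A} (hq : IsPr q) (hq0 : q ≠ 0) (hb : IsSelfAdjoint b)
    (h1 : q * b = b) (h2 : b * q = b) {δ : ℝ} (hδ : 0 < δ) :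
    ∃ (G : Finset A) (C : ℝ), 0 ≤ C ∧ (∀ g ∈ G, q * g = g ∧ g * q = g) ∧
      ∀ w : A, q * w = w → w * q = w →
        |(τ (star w * w * b)).re - (τ b).re / (τ q).re * N τ w| ≤
          δ * N τ w + C * ∑ g ∈ G, N τ (cm w g) := by
  obtain ⟨hτq, hNq⟩ := DixB_tau_q hF hq hq0
  have hτb := DixB_tau_b hF hb
  obtain ⟨n, u, hn, hu, hc⟩ := dixmier hF hq hq0 hb h1 h2 (half_pos hδ)
  obtain ⟨a, ha⟩ : ∃ a, a = ((1 : ℂ) / n) • ∑ i, u i * b * star (u i) := ⟨_, rfl⟩
  rw [← ha] at hc
  obtain ⟨t, ht⟩ : ∃ t : ℝ, t = (τ b).re / (τ q).re := ⟨_, rfl⟩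
  have htc : τ b / τ q = (t : ℂ) := by
    rw [ht, hτb, hτq]
    push_cast
    rw [Complex.ofReal_re, Complex.ofReal_re]
  rw [htc] at hc
  rw [← ht]
  classical
  obtain ⟨B, hB⟩ : ∃ B : ℝ, B = ‖b‖ + 1 := ⟨_, rfl⟩
  have hB0 : 0 < B := by
    rw [hB]
    positivity
  have hbB : ‖b‖ ≤ B := by
    rw [hB]
    linarith
  obtain ⟨ε, hε⟩ : ∃ ε : ℝ, ε = δ / 2 / B := ⟨_, rfl⟩
  have hε0 : 0 < ε := by
    rw [hε]
    positivity
  have hBε : B * ε = δ / 2 := by
    rw [hε]
    field_simp
  refine ⟨Finset.univ.image u, B / ε, by positivity, ?_, ?_⟩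
  · intro g hg
    obtain ⟨i, -, rfl⟩ := Finset.mem_image.1 hg
    exact ⟨(hu i).left hq, (hu i).right hq⟩
  intro w hqw hwq
  obtain ⟨Sg, hS⟩ : ∃ Sg : ℝ, Sg = ∑ g ∈ Finset.univ.image u, N τ (cm w g) := ⟨_, rfl⟩
  rw [← hS]
  have hw0 := N_nonneg hF.tr w
  -- the single terms
  have key : ∀ i, ‖τ (star w * w * (u i * b * star (u i))) - τ (star w * w * b)‖ ≤
      δ / 2 * N τ w + B / ε * Sg := by
    intro i
    have hi := hu i
    have hc0 := N_nonneg hF.tr (cm w (u i))
    have hcS : N τ (cm w (u i)) ≤ Sg := by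
      rw [hS]
      exact Finset.single_le_sum (f := fun g => N τ (cm w g)) (fun g _ => N_nonneg hF.tr _)
        (Finset.mem_image_of_mem u (Finset.mem_univ i))
    have e1 : τ (star w * w * (u i * b * star (u i))) =
        τ (star (w * u i) * (w * u i) * b) := by
      rw [← mul_assoc, hF.tr.comm]
      congr 1
      rw [star_mul]
      simp only [mul_assoc]
    have e2 : star (w * u i) * (w * u i) * b = star w * w * b +
        star (u i * w) * cm w (u i) * b + star (cm w (u i)) * (w * u i) * b := by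
      have e3 : star (u i * w) * (u i * w) = star w * w := by
        rw [star_mul, mul_assoc, ← mul_assoc (star (u i)), hi.1, hqw]
      have e4 : star (w * u i) * (w * u i) = star (u i * w) * (u i * w) +
          star (u i * w) * cm w (u i) + star (cm w (u i)) * (w * u i) := by
        unfold cm
        rw [star_sub]
        noncomm_ring
      rw [e4, e3, add_mul, add_mul]
    have hui : ‖u i‖ ≤ 1 := by
      have h3 : IsPI (u i) := by
        change u i * star (u i) * u i = u i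
        rw [hi.2, hi.left hq]
      exact h3.norm_le
    have hn1 : N τ (star (u i * w)) ≤ N τ w := by
      rw [N_star hF.tr]
      refine (N_mul_le_left hF.tr _ _).trans ?_
      have : ‖u i‖ ^ 2 ≤ 1 := pow_le_one₀ (norm_nonneg _) hui
      exact mul_le_of_le_one_left hw0 this
    have hn2 : N τ (w * u i) ≤ N τ w := by
      refine (N_mul_le_right hF.tr _ _).trans ?_
      have : ‖u i‖ ^ 2 ≤ 1 := pow_le_one₀ (norm_nonneg _) hui
      exact mul_le_of_le_one_left hw0 this
    have hs : Real.sqrt (N τ w * N τ (cm w (u i))) ≤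
        (ε * N τ w + N τ (cm w (u i)) / ε) / 2 := by
      apply Real.sqrt_le_iff.2
      refine ⟨by positivity, ?_⟩
      have h4 : (ε * N τ w) * (N τ (cm w (u i)) / ε) = N τ w * N τ (cm w (u i)) := by
        field_simp
      nlinarith [sq_nonneg (ε * N τ w - N τ (cm w (u i)) / ε)]
    have b1 : ‖τ (star (u i * w) * cm w (u i) * b)‖ ≤
        B * ((ε * N τ w + N τ (cm w (u i)) / ε) / 2) := by
      refine (DixB_cs hF _ _ _).trans ?_
      have h5 : Real.sqrt (N τ (star (u i * w)) * N τ (cm w (u i))) ≤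
          Real.sqrt (N τ w * N τ (cm w (u i))) :=
        Real.sqrt_le_sqrt (mul_le_mul_of_nonneg_right hn1 hc0)
      exact mul_le_mul hbB (h5.trans hs) (Real.sqrt_nonneg _) hB0.le
    have b2 : ‖τ (star (cm w (u i)) * (w * u i) * b)‖ ≤
        B * ((ε * N τ w + N τ (cm w (u i)) / ε) / 2) := by
      refine (DixB_cs hF _ _ _).trans ?_
      have h5 : Real.sqrt (N τ (star (cm w (u i))) * N τ (w * u i)) ≤
          Real.sqrt (N τ w * N τ (cm w (u i))) := by
        rw [N_star hF.tr, mul_comm (N τ w)]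
        exact Real.sqrt_le_sqrt (mul_le_mul_of_nonneg_left hn2 hc0)
      exact mul_le_mul hbB (h5.trans hs) (Real.sqrt_nonneg _) hB0.le
    have e5 : τ (star w * w * (u i * b * star (u i))) - τ (star w * w * b) =
        τ (star (u i * w) * cm w (u i) * b) + τ (star (cm w (u i)) * (w * u i) * b) := by
      rw [e1, e2, map_add, map_add]
      ring
    rw [e5]
    refine (norm_add_le _ _).trans ((add_le_add b1 b2).trans ?_)
    have h6 : B * ((ε * N τ w + N τ (cm w (u i)) / ε) / 2) +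
        B * ((ε * N τ w + N τ (cm w (u i)) / ε) / 2) =
        B * ε * N τ w + B / ε * N τ (cm w (u i)) := by
      field_simp
      ring
    rw [h6, hBε]
    have h7 : B / ε * N τ (cm w (u i)) ≤ B / ε * Sg :=
      mul_le_mul_of_nonneg_left hcS (by positivity)
    linarith
  have k1 : ‖τ (star w * w * a) - τ (star w * w * b)‖ ≤ δ / 2 * N τ w + B / ε * Sg := by
    have hn' : (n : ℂ) ≠ 0 := by exact_mod_cast hn.ne'
    have hnR : (0 : ℝ) < n := by exact_mod_cast hn
    have e6 : τ (star w * w * a) - τ (star w * w * b) = ((1 : ℂ) / n) *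
        ∑ i, (τ (star w * w * (u i * b * star (u i))) - τ (star w * w * b)) := by
      rw [Finset.sum_sub_distrib, Finset.sum_const, Finset.card_univ, Fintype.card_fin,
        nsmul_eq_mul, ha, mul_smul_comm, map_smul, smul_eq_mul, Finset.mul_sum, map_sum]
      field_simp
    rw [e6, norm_mul]
    have e7 : ‖(1 : ℂ) / n‖ = 1 / n := by
      rw [norm_div, norm_one, Complex.norm_natCast]
    rw [e7]
    have e8 : ‖∑ i, (τ (star w * w * (u i * b * star (u i))) - τ (star w * w * b))‖ ≤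
        n * (δ / 2 * N τ w + B / ε * Sg) := by
      refine (norm_sum_le _ _).trans ?_
      refine (Finset.sum_le_sum fun i _ => key i).trans (le_of_eq ?_)
      rw [Finset.sum_const, Finset.card_univ, Fintype.card_fin, nsmul_eq_mul]
    calc 1 / (n : ℝ) * ‖∑ i, (τ (star w * w * (u i * b * star (u i))) - τ (star w * w * b))‖ ≤
        1 / (n : ℝ) * (n * (δ / 2 * N τ w + B / ε * Sg)) :=
          mul_le_mul_of_nonneg_left e8 (by positivity)
      _ = δ / 2 * N τ w + B / ε * Sg := by field_simp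
  have k2 : ‖τ (star w * w * a) - t * τ (star w * w)‖ ≤ δ / 2 * N τ w := by
    have e9 : star w * w * (a - (t : ℂ) • q) = star w * w * a - (t : ℂ) • (star w * w) := by
      rw [mul_sub, mul_smul_comm, mul_assoc (star w) w q, hwq]
    have e10 := DixB_cs hF (star w) w (a - (t : ℂ) • q)
    rw [e9, map_sub, map_smul, smul_eq_mul, N_star hF.tr, Real.sqrt_mul_self hw0] at e10
    exact e10.trans (mul_le_mul_of_nonneg_right hc hw0)
  have k3 : ‖τ (star w * w * b) - t * τ (star w * w)‖ ≤ δ * N τ w + B / ε * Sg := by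
    have e11 : τ (star w * w * b) - t * τ (star w * w) =
        (τ (star w * w * a) - t * τ (star w * w)) -
          (τ (star w * w * a) - τ (star w * w * b)) := by ring
    rw [e11]
    refine (norm_sub_le _ _).trans ((add_le_add k2 k1).trans (le_of_eq ?_))
    ring
  have k4 : (τ (star w * w * b) - t * τ (star w * w)).re =
      (τ (star w * w * b)).re - t * N τ w := by
    rw [Complex.sub_re, Complex.re_ofReal_mul]
    rfl
  rw [← k4]
  exact (Complex.abs_re_le_norm _).trans k3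

end Pool.McT
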