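import Pool.Agent.McT.W.Lim

/-! Spectral projections. -/

set_option autoImplicit false

namespace Pool.McT

open Filter Topology

variable {A : Type*} [CStarAlgebra A] {τ : A →ₗ[ℂ] ℂ}

/-- The continuous approximation of the indicator of `(t, ∞)`. -/
noncomputable def ramp (t : ℝ) (m : ℕ) (s : ℝ) : ℝ := min 1 (max 0 (m * (s - t)))

/-- `e` is the spectral projection of `h` for `(t, ∞)`. -/
def IsSpec (τ : A →ₗ[ℂ] ℂ) (h : A) (t : ℝ) (e : A) : Prop :=
  IsPr e ∧ Lim2 τ (fun m : ℕ => cfc (ramp t m) h) e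

private theorem cont_ramp_Spec (t : ℝ) (m : ℕ) : Continuous (ramp t m) := by
  unfold ramp
  fun_prop

private theorem ramp_nonneg_Spec (t : ℝ) (m : ℕ) (s : ℝ) : 0 ≤ ramp t m s :=
  le_min zero_le_one (le_max_left _ _)

private theorem ramp_le_one_Spec (t : ℝ) (m : ℕ) (s : ℝ) : ramp t m s ≤ 1 := min_le_left _ _

private theorem ramp_zero_Spec (t : ℝ) (m : ℕ) {s : ℝ} (hs : s ≤ t) : ramp t m s = 0 := by
  unfold ramp
  have h1 : (m : ℝ) * (s - t) ≤ 0 :=
    mul_nonpos_of_nonneg_of_nonpos (Nat.cast_nonneg m) (sub_nonpos.2 hs)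
  rw [max_eq_left h1, min_eq_right zero_le_one]

private theorem ramp_one_Spec (t : ℝ) (m : ℕ) {s : ℝ} (hs : 1 ≤ (m : ℝ) * (s - t)) :
    ramp t m s = 1 := by
  unfold ramp
  exact min_eq_left (hs.trans (le_max_right _ _))

private theorem ramp_mono_Spec (t : ℝ) {m n : ℕ} (hmn : m ≤ n) (s : ℝ) :
    ramp t m s ≤ ramp t n s := by
  by_cases hs : s ≤ t
  · rw [ramp_zero_Spec t m hs, ramp_zero_Spec t n hs]
  · have h1 : (m : ℝ) * (s - t) ≤ (n : ℝ) * (s - t) :=
      mul_le_mul_of_nonneg_right (Nat.cast_le.2 hmn) (sub_nonneg.2 (not_le.1 hs).le)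
    unfold ramp
    exact min_le_min_left _ (max_le_max_left _ h1)

private theorem tau_cfc_nonneg_Spec (hτ : IsTr τ) (h : A) {k : ℝ → ℝ} (hk : Continuous k)
    (h0 : ∀ s, 0 ≤ k s) : 0 ≤ (τ (cfc k h)).re := by
  have h1 : cfc k h = star (cfc (fun s => Real.sqrt (k s)) h) *
      cfc (fun s => Real.sqrt (k s)) h := by
    have hs : Continuous fun s => Real.sqrt (k s) := by fun_prop
    rw [← cfc_star, ← cfc_mul (fun s => star (Real.sqrt (k s))) (fun s => Real.sqrt (k s)) h
      hs.star.continuousOn hs.continuousOn]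
    congr 1
    funext s
    rw [star_trivial, Real.mul_self_sqrt (h0 s)]
  rw [h1]
  exact hτ.nonneg _

private theorem tendsto_left_Spec (h : A) {t : ℝ} {f : ℝ → ℝ} (hf : Continuous f)
    (h0 : ∀ s, s ≤ t → f s = 0) :
    Tendsto (fun k : ℕ => ‖cfc f h * cfc (ramp t k) h - cfc f h‖) atTop (𝓝 0) := by
  rw [Metric.tendsto_atTop]
  intro ε hε
  have hc : ContinuousAt f t := hf.continuousAt
  obtain ⟨δ, hδ, hδf⟩ := Metric.continuousAt_iff.1 hc (ε / 2) (half_pos hε)
  obtain ⟨K, hK⟩ := exists_nat_gt (1 / δ)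
  refine ⟨K, fun k hk => ?_⟩
  rw [Real.dist_eq, sub_zero, abs_of_nonneg (norm_nonneg _)]
  have e1 : cfc f h * cfc (ramp t k) h - cfc f h = cfc (fun s => f s * ramp t k s - f s) h := by
    rw [cfc_sub (fun s => f s * ramp t k s) f h
      (hf.mul (cont_ramp_Spec t k)).continuousOn hf.continuousOn,
      cfc_mul f (ramp t k) h hf.continuousOn (cont_ramp_Spec t k).continuousOn]
  rw [e1]
  have h2 : ‖cfc (fun s => f s * ramp t k s - f s) h‖ ≤ ε / 2 := by
    apply norm_cfc_le (half_pos hε).le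
    intro s _
    by_cases hs : s ≤ t
    · rw [h0 s hs, zero_mul, sub_zero, norm_zero]
      exact (half_pos hε).le
    · by_cases hs2 : 1 ≤ (k : ℝ) * (s - t)
      · rw [ramp_one_Spec t k hs2, mul_one, sub_self, norm_zero]
        exact (half_pos hε).le
      · rw [not_le] at hs hs2
        have hk' : 1 / δ < (k : ℝ) := hK.trans_le (Nat.cast_le.2 hk)
        have hk0 : 0 < (k : ℝ) := (by positivity : (0 : ℝ) < 1 / δ).trans hk'
        have h3 : s - t < δ := by
          have h4 : s - t < 1 / k := by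
            rw [lt_div_iff₀ hk0, mul_comm]
            exact hs2
          exact h4.trans ((one_div_lt hδ hk0).1 hk')
        have h5 : dist (f s) (f t) < ε / 2 := by
          apply hδf
          rw [Real.dist_eq, abs_of_pos (sub_pos.2 hs)]
          exact h3
        rw [h0 t le_rfl, Real.dist_eq, sub_zero] at h5
        have h6 : f s * ramp t k s - f s = f s * (ramp t k s - 1) := by ring
        rw [h6, norm_mul, Real.norm_eq_abs, Real.norm_eq_abs]
        have h7 : |ramp t k s - 1| ≤ 1 := by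
          rw [abs_le]
          have := ramp_nonneg_Spec t k s
          have := ramp_le_one_Spec t k s
          constructor <;> linarith
        calc |f s| * |ramp t k s - 1| ≤ |f s| * 1 :=
              mul_le_mul_of_nonneg_left h7 (abs_nonneg _)
          _ ≤ ε / 2 := by rw [mul_one]; exact h5.le
  exact h2.trans_lt (half_lt_self hε)

/-- The sequence is increasing with values between `0` and `1`, so
`N (cfc (ramp t n) h - cfc (ramp t m) h) ≤ τ (cfc (ramp t n) h) - τ (cfc (ramp t m) h)` for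
`m ≤ n` (`(a - b)² ≤ a - b` for `0 ≤ b ≤ a ≤ 1`), `exists_lim2_mono`. `e * e = e`:
`|ramp t m * (1 - ramp t k)| ≤ m / k`, first `k → ∞`, then `m → ∞`. -/
theorem exists_spec (hW : WT τ) {h : A} (hh : IsSelfAdjoint h) (t : ℝ) :
    ∃ e : A, IsSpec τ h t e := by
  have hc : ∀ m, Continuous (ramp t m) := cont_ramp_Spec t
  have hC : ∀ n : ℕ, ‖cfc (ramp t n) h‖ ≤ 1 := by
    intro n
    apply norm_cfc_le zero_le_one
    intro s _
    rw [Real.norm_eq_abs, abs_of_nonneg (ramp_nonneg_Spec t n s)]
    exact ramp_le_one_Spec t n s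
  have hsub : ∀ m n : ℕ, m ≤ n →
      0 ≤ (τ (cfc (ramp t n) h)).re - (τ (cfc (ramp t m) h)).re ∧
      N τ (cfc (ramp t n) h - cfc (ramp t m) h) ≤
        (τ (cfc (ramp t n) h)).re - (τ (cfc (ramp t m) h)).re := by
    intro m n hmn
    have e1 : cfc (ramp t n) h - cfc (ramp t m) h = cfc (fun s => ramp t n s - ramp t m s) h :=
      (cfc_sub (ramp t n) (ramp t m) h (hc n).continuousOn (hc m).continuousOn).symm
    have hg : Continuous fun s => ramp t n s - ramp t m s := (hc n).sub (hc m)
    have e2 : (τ (cfc (ramp t n) h)).re - (τ (cfc (ramp t m) h)).re =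
        (τ (cfc (fun s => ramp t n s - ramp t m s) h)).re := by
      rw [← e1, map_sub, Complex.sub_re]
    rw [e2, e1]
    refine ⟨tau_cfc_nonneg_Spec hW.tr h hg
      fun s => sub_nonneg.2 (ramp_mono_Spec t hmn s), ?_⟩
    unfold N
    rw [← cfc_star, ← cfc_mul (fun s => star (ramp t n s - ramp t m s))
      (fun s => ramp t n s - ramp t m s) h hg.star.continuousOn hg.continuousOn]
    have h3 := tau_cfc_nonneg_Spec (τ := τ) hW.tr h
      (k := fun s => (ramp t n s - ramp t m s) -
        star (ramp t n s - ramp t m s) * (ramp t n s - ramp t m s))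
      (hg.sub (hg.star.mul hg)) (fun s => by
        rw [star_trivial]
        have h4 := ramp_mono_Spec t hmn s
        have h5 := ramp_nonneg_Spec t m s
        have h6 := ramp_le_one_Spec t n s
        nlinarith)
    rw [cfc_sub (fun s => ramp t n s - ramp t m s)
      (fun s => star (ramp t n s - ramp t m s) * (ramp t n s - ramp t m s)) h hg.continuousOn
      (hg.star.mul hg).continuousOn, map_sub, Complex.sub_re] at h3
    linarith
  have hmono : Monotone fun n : ℕ => (τ (cfc (ramp t n) h)).re :=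
    fun m n hmn => sub_nonneg.1 (hsub m n hmn).1
  have hbd : ∀ n : ℕ, (τ (cfc (ramp t n) h)).re ≤ 1 := by
    intro n
    have h3 := tau_cfc_nonneg_Spec (τ := τ) hW.tr h (k := fun s => 1 - ramp t n s)
      (continuous_const.sub (hc n)) (fun s => sub_nonneg.2 (ramp_le_one_Spec t n s))
    rw [cfc_sub _ _ h continuous_const.continuousOn (hc n).continuousOn, cfc_const_one ℝ h,
      map_sub, Complex.sub_re, hW.one, Complex.one_re] at h3
    linarith
  obtain ⟨e, -, he⟩ := exists_lim2_mono hW hC (fun n : ℕ => (τ (cfc (ramp t n) h)).re) hmono hbd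
    (fun m n hmn => (hsub m n hmn).2)
  refine ⟨e, ⟨?_, ?_⟩, he⟩
  · have h1 := he.star hW
    have h2 : (fun n : ℕ => star (cfc (ramp t n) h)) = fun n : ℕ => cfc (ramp t n) h := by
      funext n
      rw [← cfc_star]
      congr 1
    rw [h2] at h1
    exact h1.unique hW he
  · have h1 : ∀ m : ℕ, cfc (ramp t m) h * e = cfc (ramp t m) h := by
      intro m
      have h2 := he.mul_left hW (cfc (ramp t m) h)
      have h3 := lim2_of_norm hW (tendsto_left_Spec h (hc m) (fun s hs => ramp_zero_Spec t m hs))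
      exact h2.unique hW h3
    have h2 := he.mul_right hW e
    simp only [h1] at h2
    exact h2.unique hW he

theorem IsSpec.comm (hW : WT τ) {h e : A} {t : ℝ} (he : IsSpec τ h t e)
    (hh : IsSelfAdjoint h) {c : A} (hc : c * h = h * c) (hc' : star c * h = h * star c) :
    c * e = e * c := by
  have h1 := he.2.mul_left hW c
  have h2 := he.2.mul_right hW c
  have h3 : (fun n : ℕ => c * cfc (ramp t n) h) = fun n : ℕ => cfc (ramp t n) h * c := by
    funext n
    exact (Commute.cfc_real (hc.symm : Commute h c) (ramp t n)).symm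
  rw [h3] at h1
  exact h1.unique hW h2

/-- `f * (1 - ramp t k)` tends to `0` uniformly on bounded sets if `f = 0` on `(-∞, t]`. -/
theorem IsSpec.mul_of_zero_left (hW : WT τ) {h e : A} {t : ℝ} (he : IsSpec τ h t e)
    (hh : IsSelfAdjoint h) {f : ℝ → ℝ} (hf : Continuous f) (h0 : ∀ s, s ≤ t → f s = 0) :
    cfc f h * e = cfc f h :=
  (he.2.mul_left hW (cfc f h)).unique hW (lim2_of_norm hW (tendsto_left_Spec h hf h0))

theorem IsSpec.mul_of_zero_right (hW : WT τ) {h e : A} {t : ℝ} (he : IsSpec τ h t e)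
    (hh : IsSelfAdjoint h) {f : ℝ → ℝ} (hf : Continuous f) (h0 : ∀ s, t ≤ s → f s = 0) :
    cfc f h * e = 0 := by
  have h1 := he.2.mul_left hW (cfc f h)
  have h2 : (fun n : ℕ => cfc f h * cfc (ramp t n) h) = fun _ : ℕ => (0 : A) := by
    funext n
    rw [← cfc_mul f (ramp t n) h hf.continuousOn (cont_ramp_Spec t n).continuousOn]
    have h3 : (fun s => f s * ramp t n s) = fun _ => 0 := by
      funext s
      rcases le_total s t with hs | hs
      · rw [ramp_zero_Spec t n hs, mul_zero]
      · rw [h0 s hs, zero_mul]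
    rw [h3]
    exact cfc_const_zero ℝ h
  rw [h2] at h1
  exact h1.unique hW (Lim2.const 0)

private theorem decomp_Spec {h : A} (hh : IsSelfAdjoint h) (t : ℝ) :
    h = (t : ℂ) • (1 : A) + cfc (fun s => max 0 (s - t)) h - cfc (fun s => max 0 (t - s)) h := by
  have hP : Continuous fun s : ℝ => max 0 (s - t) := by fun_prop
  have hM : Continuous fun s : ℝ => max 0 (t - s) := by fun_prop
  have h1 : (t : ℂ) • (1 : A) = cfc (fun _ : ℝ => t) h := by
    rw [cfc_const t h hh, Algebra.algebraMap_eq_smul_one]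
    rfl
  rw [h1, ← cfc_add h (fun _ => t) (fun s => max 0 (s - t)) continuous_const.continuousOn
    hP.continuousOn, ← cfc_sub (fun s => t + max 0 (s - t)) (fun s => max 0 (t - s)) h
    (continuous_const.add hP).continuousOn hM.continuousOn]
  conv_lhs => rw [← cfc_id' ℝ h hh]
  congr 1
  funext s
  rcases le_total s t with hs | hs
  · rw [max_eq_left (sub_nonpos.2 hs), max_eq_right (sub_nonneg.2 hs)]
    ring
  · rw [max_eq_right (sub_nonneg.2 hs), max_eq_left (sub_nonpos.2 hs)]
    ring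

/-- `h e = t e + cfc (max 0 (· - t)) h`. -/
theorem IsSpec.mul_eq (hW : WT τ) {h e : A} {t : ℝ} (he : IsSpec τ h t e)
    (hh : IsSelfAdjoint h) :
    h * e = (t : ℂ) • e + cfc (fun s => max 0 (s - t)) h := by
  have h1 := he.mul_of_zero_left hW hh (f := fun s => max 0 (s - t)) (by fun_prop)
    (fun s hs => max_eq_left (sub_nonpos.2 hs))
  have h2 := he.mul_of_zero_right hW hh (f := fun s => max 0 (t - s)) (by fun_prop)
    (fun s hs => max_eq_left (sub_nonpos.2 hs))
  have h3 := congrArg (fun x => x * e) (decomp_Spec hh t)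
  simp only [add_mul, sub_mul, smul_mul_assoc, one_mul] at h3
  rw [h1, h2, sub_zero] at h3
  exact h3

/-- `h (1 - e) = t (1 - e) - cfc (max 0 (t - ·)) h`. -/
theorem IsSpec.mul_one_sub_eq (hW : WT τ) {h e : A} {t : ℝ} (he : IsSpec τ h t e)
    (hh : IsSelfAdjoint h) :
    h * (1 - e) = (t : ℂ) • (1 - e) - cfc (fun s => max 0 (t - s)) h := by
  have h3 := decomp_Spec hh t
  rw [mul_sub, mul_one, he.mul_eq hW hh]
  calc h - ((t : ℂ) • e + cfc (fun s => max 0 (s - t)) h) =
      ((t : ℂ) • (1 : A) + cfc (fun s => max 0 (s - t)) h - cfc (fun s => max 0 (t - s)) h) -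
        ((t : ℂ) • e + cfc (fun s => max 0 (s - t)) h) := by rw [← h3]
    _ = (t : ℂ) • (1 - e) - cfc (fun s => max 0 (t - s)) h := by
      rw [smul_sub]
      abel

end Pool.McT
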