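import Pool.Agent.McT.W.Link

/-! Comparison of projections in a finite factor. -/

set_option autoImplicit false

namespace Pool.McT

open Filter Topology

variable {A : Type*} [CStarAlgebra A] {τ : A →ₗ[ℂ] ℂ}

/-- Sum of partial isometries with orthogonal supports. -/
theorem IsPI.add {u w : A} (hu : IsPI u) (hw : IsPI w) (h1 : star u * w = 0)
    (h2 : u * star w = 0) : IsPI (u + w) := by
  have h3 : star w * u = 0 := by
    have := congrArg star h1
    rwa [star_mul, star_star, star_zero] at this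
  have h4 : w * star u = 0 := by
    have := congrArg star h2
    rwa [star_mul, star_star, star_zero] at this
  have hu' : u * star u * u = u := hu
  have hw' : w * star w * w = w := hw
  change (u + w) * star (u + w) * (u + w) = u + w
  calc (u + w) * star (u + w) * (u + w)
      = u * star u * u + w * star w * w + u * (star u * w) + (u * star w) * u
        + (u * star w) * w + (w * star u) * u + (w * star u) * w + w * (star w * u) := by
        rw [star_add]
        noncomm_ring
    _ = u + w := by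
        rw [h1, h2, h3, h4, hu', hw']
        simp

private theorem comp_N_add (u w : A) (h1 : star u * w = 0) :
    N τ (u + w) = N τ u + N τ w := by
  have h3 : star w * u = 0 := by
    have := congrArg star h1
    rwa [star_mul, star_star, star_zero] at this
  unfold N
  have : star (u + w) * (u + w) = star u * u + star w * w := by
    rw [star_add, add_mul, mul_add, mul_add, h1, h3, add_zero, zero_add]
  rw [this, map_add, Complex.add_re]

/-- `N (u + w) = N u + N w`. -/
theorem N_add_of_orth (hτ : IsTr τ) {u w : A} (h1 : star u * w = 0)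
    (h2 : u * star w = 0) :
    N τ (u + w) = N τ u + N τ w :=
  comp_N_add u w h1

private theorem comp_N_le_one (hW : WT τ) {x : A} (hx : ‖x‖ ≤ 1) : N τ x ≤ 1 := by
  have h := N_mul_le_left hW.tr x 1
  rw [mul_one] at h
  have h1 : N τ (1 : A) = 1 := by
    unfold N
    rw [star_one, one_mul, hW.one, Complex.one_re]
  rw [h1, mul_one] at h
  exact h.trans (pow_le_one₀ (norm_nonneg _) hx)

private theorem comp_step (hW : WT τ) (P R : A → A → Prop) (Q : A → Prop)
    (hP0 : ∀ u, Q u → P u 0) (hQ : ∀ u w, Q u → P u w → Q (u + w))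
    (hn : ∀ u, Q u → ‖u‖ ≤ 1) (hPR : ∀ u w, Q u → P u w → R u w)
    (hR : ∀ u w, R u w → star u * w = 0) (u : A) (hu : Q u) :
    ∃ w, P u w ∧ ∀ w', P u w' → N τ w' ≤ 2 * N τ w := by
  have hle : ∀ w', P u w' → N τ w' ≤ 1 := by
    intro w' hw'
    have h1 := comp_N_le_one hW (hn _ (hQ u w' hu hw'))
    rw [comp_N_add u w' (hR _ _ (hPR _ _ hu hw'))] at h1
    have := N_nonneg hW.tr u
    linarith
  set s := sSup {r : ℝ | ∃ w', P u w' ∧ N τ w' = r} with hs
  have hbdd : BddAbove {r : ℝ | ∃ w', P u w' ∧ N τ w' = r} := by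
    refine ⟨1, ?_⟩
    rintro r ⟨w', hw', rfl⟩
    exact hle w' hw'
  have hne : {r : ℝ | ∃ w', P u w' ∧ N τ w' = r}.Nonempty := ⟨_, 0, hP0 u hu, rfl⟩
  have hle_s : ∀ w', P u w' → N τ w' ≤ s := fun w' hw' => le_csSup hbdd ⟨w', hw', rfl⟩
  rcases le_or_gt s 0 with h | h
  · refine ⟨0, hP0 u hu, fun w' hw' => ?_⟩
    rw [N_zero, mul_zero]
    exact (hle_s w' hw').trans h
  · obtain ⟨r, ⟨w, hw, rfl⟩, hr⟩ := exists_lt_of_lt_csSup hne (show s / 2 < s by linarith)
    refine ⟨w, hw, fun w' hw' => ?_⟩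
    have := hle_s w' hw'
    linarith

/-- The general exhaustion. `P u w`: the element `w` may be added to `u`; `R u w`: an
orthogonality relation. Choose `w n` with `P (u n) (w n)` and `2 N (w n) ≥ sup` (the sup is at
most `1`: `N (u + w) = N u + N w ≤ 1`), `u (n+1) = u n + w n`. By `hPR` and `hRd`,
`R (u n) (w m)` for `n ≤ m`, so `N (u m - u n) = N (u m) - N (u n)` for `n ≤ m` and
`exists_lim2_mono` applies; `N (w n) = N (u (n+1)) - N (u n) → 0`. -/
theorem exists_greedy (hW : WT τ) (P R : A → A → Prop) (Q : A → Prop) (u₀ : A) (h0 : Q u₀)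
    (hP0 : ∀ u, Q u → P u 0) (hQ : ∀ u w, Q u → P u w → Q (u + w))
    (hn : ∀ u, Q u → ‖u‖ ≤ 1) (hPR : ∀ u w, Q u → P u w → R u w)
    (hRd : ∀ u w w', Q u → P u w → R (u + w) w' → R u w')
    (hR : ∀ u w, R u w → star u * w = 0) :
    ∃ (u : ℕ → A) (w : ℕ → A), u 0 = u₀ ∧ (∀ n, Q (u n)) ∧ (∀ n, P (u n) (w n)) ∧
      (∀ n, u (n + 1) = u n + w n) ∧ (∀ n w', P (u n) w' → N τ w' ≤ 2 * N τ (w n)) ∧
      (∀ n m, n ≤ m → R (u n) (w m)) ∧
      Tendsto (fun n => N τ (w n)) atTop (𝓝 0) ∧ ∃ v : A, Lim2 τ u v ∧ ‖v‖ ≤ 1 := by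
  classical
  choose! g hg1 hg2 using comp_step hW P R Q hP0 hQ hn hPR hR
  let u : ℕ → A := fun n => Nat.rec u₀ (fun _ x => x + g x) n
  have hus : ∀ n, u (n + 1) = u n + g (u n) := fun n => rfl
  have hQu : ∀ n, Q (u n) := by
    intro n
    induction n with
    | zero => exact h0
    | succ n ih =>
      rw [hus]
      exact hQ _ _ ih (hg1 _ ih)
  have hRu : ∀ n m, n ≤ m → R (u n) (g (u m)) := by
    intro n m hnm
    obtain ⟨k, rfl⟩ := Nat.exists_eq_add_of_le hnm
    induction k generalizing n with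
    | zero => exact hPR _ _ (hQu _) (hg1 _ (hQu _))
    | succ k ih =>
      have h1 := ih (n + 1) (by omega)
      rw [show n + 1 + k = n + (k + 1) by ring, hus n] at h1
      exact hRd _ _ _ (hQu n) (hg1 _ (hQu n)) h1
  have horth : ∀ n m, n ≤ m → star (u n) * (u m - u n) = 0 := by
    intro n m hnm
    obtain ⟨k, rfl⟩ := Nat.exists_eq_add_of_le hnm
    clear hnm
    induction k with
    | zero => simp
    | succ k ih =>
      have h1 : u (n + (k + 1)) - u n = (u (n + k) - u n) + g (u (n + k)) := by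
        rw [← add_assoc, hus (n + k)]
        abel
      rw [h1, mul_add, ih, hR _ _ (hRu n (n + k) (by omega)), add_zero]
  have hN : ∀ n m, n ≤ m → N τ (u m - u n) = N τ (u m) - N τ (u n) := by
    intro n m hnm
    have h1 := comp_N_add (τ := τ) (u n) (u m - u n) (horth n m hnm)
    rw [add_sub_cancel] at h1
    linarith
  have hmono : Monotone fun n => N τ (u n) := by
    intro n m hnm
    have h1 := hN n m hnm
    have h2 := N_nonneg hW.tr (u m - u n)
    change N τ (u n) ≤ N τ (u m)
    linarith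
  have hle : ∀ n, N τ (u n) ≤ 1 := fun n => comp_N_le_one hW (hn _ (hQu n))
  have hw : ∀ n, N τ (g (u n)) = N τ (u (n + 1)) - N τ (u n) := by
    intro n
    rw [← hN n (n + 1) (by omega), hus n, add_sub_cancel_left]
  refine ⟨u, fun n => g (u n), rfl, hQu, fun n => hg1 _ (hQu n), hus,
    fun n w' hw' => hg2 _ (hQu n) w' hw', hRu, ?_, ?_⟩
  · have h1 := tendsto_atTop_ciSup hmono ⟨1, by rintro _ ⟨n, rfl⟩; exact hle n⟩
    have h2 := (tendsto_add_atTop_iff_nat 1).2 h1
    have h3 := h2.sub h1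
    rw [sub_self] at h3
    refine h3.congr fun n => ?_
    exact (hw n).symm
  · obtain ⟨v, hv1, hv2⟩ := exists_lim2_mono hW (C := 1) (K := 1) (x := u)
      (fun n => hn _ (hQu n)) (fun n => N τ (u n)) hmono hle
      (fun m n hmn => (hN m n hmn).le)
    exact ⟨v, hv2, hv1⟩

end Pool.McT
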