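import Pool.Agent.McT.W.Comp

/-! Comparison of projections. -/

set_option autoImplicit false

namespace Pool.McT

open Filter Topology

variable {A : Type*} [CStarAlgebra A] {τ : A →ₗ[ℂ] ℂ}

private theorem compB_isPI_lim (hW : WT τ) {u : ℕ → A} {v : A} (hu : ∀ n, IsPI (u n))
    (h : Lim2 τ u v) : IsPI v := by
  have h1 : Lim2 τ (fun n => u n * star (u n)) (v * star v) :=
    h.mul hW (h.star hW) (C := 1) fun n => (hu n).norm_le
  have hn : ∀ n, ‖u n * star (u n)‖ ≤ 1 := fun n => (hu n).isPr_left.norm_le
  have h2 : Lim2 τ (fun n => u n * star (u n) * u n) (v * star v * v) := h1.mul hW h (C := 1) hn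
  have h3 : (fun n => u n * star (u n) * u n) = u := funext fun n => hu n
  rw [h3] at h2
  exact h2.unique hW h

private theorem compB_isPr_sub {e p : A} (he : IsPr e) (hp : IsPr p) (h1 : p * e = p)
    (h2 : e * p = p) : IsPr (e - p) := by
  refine ⟨by rw [star_sub, he.1, hp.1], ?_⟩
  rw [mul_sub, sub_mul, sub_mul, he.2, hp.2, h1, h2]
  abel

/-- `exists_greedy` with `Q u`: `IsPI u`, `u e = u`, `f u = u`; `P u w`: `IsPI w`,
`w (e - u* u) = w`, `(f - u u*) w = w`; `R u w`: `star u * w = 0` and `u * star w = 0`.
The limit `u` satisfies `Q`. If `u* u ≠ e` then `N u < N e ≤ N f`, so `e - u* u` and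
`f - u u*` are nonzero projections, and `exists_link_pi` gives a nonzero `w'` admissible for
`u`. It is admissible for all `u n` (`star (u n) = star u * (u n * star (u n))` gives
`w' * star (u n) = 0` from `w' * star u = 0`, the same on the other side), so
`N w' ≤ 2 N (w n) → 0`: contradiction. -/
theorem comparison (hF : Fac τ) {e f : A} (he : IsPr e) (hf : IsPr f)
    (hef : N τ e ≤ N τ f) : ∃ u : A, IsPI u ∧ star u * u = e ∧ f * u = u := by
  have hW : WT τ := hF.toWT
  have hPI0 : IsPI (0 : A) := by
    change (0 : A) * star 0 * 0 = 0
    rw [mul_zero]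
  obtain ⟨u, w, -, hQ, -, hstep, hmax, hR, hlim0, v, hlim, -⟩ :=
    exists_greedy hW
      (fun u w => IsPI w ∧ star u * w = 0 ∧ u * star w = 0 ∧ w * e = w ∧ f * w = w)
      (fun u w => star u * w = 0 ∧ u * star w = 0)
      (fun u => IsPI u ∧ u * e = u ∧ f * u = u) 0
      ⟨hPI0, zero_mul e, mul_zero f⟩
      (fun u _ => ⟨hPI0, mul_zero _, by rw [star_zero, mul_zero], zero_mul e, mul_zero f⟩)
      (fun u w hu hw => ⟨hu.1.add hw.1 hw.2.1 hw.2.2.1,
        by rw [add_mul, hu.2.1, hw.2.2.2.1], by rw [mul_add, hu.2.2, hw.2.2.2.2]⟩)
      (fun u hu => hu.1.norm_le)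
      (fun u w _ hw => ⟨hw.2.1, hw.2.2.1⟩)
      (fun u w w' hu hw hr => by
        have hPI : u * star u * u = u := hu.1
        have hPI' : star u * u * star u = star u := by
          have h1 := congrArg star hPI
          rw [star_mul, star_mul, star_star, ← mul_assoc] at h1
          exact h1
        constructor
        · have h1 : star u * u * (star (u + w) * w') = star u * w' := by
            calc star u * u * (star (u + w) * w')
                = star u * u * star u * w' + star u * (u * star w) * w' := by
                  rw [star_add]
                  noncomm_ring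
              _ = star u * w' := by rw [hPI', hw.2.2.1, mul_zero, zero_mul, add_zero]
          rw [← h1, hr.1, mul_zero]
        · have h1 : u * star u * ((u + w) * star w') = u * star w' := by
            calc u * star u * ((u + w) * star w')
                = u * star u * u * star w' + u * (star u * w) * star w' := by
                  noncomm_ring
              _ = u * star w' := by rw [hPI, hw.2.1, mul_zero, zero_mul, add_zero]
          rw [← h1, hr.2, mul_zero])
      (fun u w hr => hr.1)
  have hvPI : IsPI v := compB_isPI_lim hW (fun n => (hQ n).1) hlim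
  have hve : v * e = v := by
    have h1 := hlim.mul_right hW e
    have h2 : (fun n => u n * e) = u := funext fun n => (hQ n).2.1
    rw [h2] at h1
    exact h1.unique hW hlim
  have hfv : f * v = v := by
    have h1 := hlim.mul_left hW f
    have h2 : (fun n => f * u n) = u := funext fun n => (hQ n).2.2
    rw [h2] at h1
    exact h1.unique hW hlim
  refine ⟨v, hvPI, ?_, hfv⟩
  by_contra hne
  have hvPI' : v * star v * v = v := hvPI
  have hvs : star v * v * star v = star v := by
    have h1 := congrArg star hvPI'
    rw [star_mul, star_mul, star_star, ← mul_assoc] at h1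
    exact h1
  have hes : e * star v = star v := by
    have h1 := congrArg star hve
    rwa [star_mul, he.1] at h1
  have hsf : star v * f = star v := by
    have h1 := congrArg star hfv
    rwa [star_mul, hf.1] at h1
  have hp : IsPr (star v * v) := hvPI.isPr_right
  have hq : IsPr (v * star v) := hvPI.isPr_left
  have he' : IsPr (e - star v * v) :=
    compB_isPr_sub he hp (by rw [mul_assoc, hve]) (by rw [← mul_assoc, hes])
  have hf' : IsPr (f - v * star v) :=
    compB_isPr_sub hf hq (by rw [mul_assoc, hsf]) (by rw [← mul_assoc, hfv])
  have he0 : e - star v * v ≠ 0 := fun h => hne (sub_eq_zero.1 h).symm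
  have hf0 : f - v * star v ≠ 0 := by
    intro h
    have h1 : f = v * star v := sub_eq_zero.1 h
    have h2 : 0 < N τ (e - star v * v) := by
      refine lt_of_le_of_ne (N_nonneg hW.tr _) fun h3 => ?_
      exact he0 (hW.faithful _ h3.symm)
    rw [he'.N_eq, map_sub, Complex.sub_re] at h2
    have h3 : N τ f = (τ (star v * v)).re := by
      rw [hf.N_eq, h1, hW.tr.comm]
    rw [he.N_eq, h3] at hef
    linarith
  obtain ⟨w', hw0, hwPI, hwf, hwe⟩ := exists_link_pi hF he' hf' he0 hf0
  have hwe' : w' * e = w' := by
    have h1 : w' * (e - star v * v) * e = w' * (e - star v * v) := by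
      rw [mul_assoc, sub_mul, he.2, mul_assoc (star v) v e, hve]
    rwa [hwe] at h1
  have hwf' : f * w' = w' := by
    have h1 : f * ((f - v * star v) * w') = (f - v * star v) * w' := by
      rw [← mul_assoc, mul_sub, hf.2, ← mul_assoc f v (star v), hfv]
    rwa [hwf] at h1
  have hvw : star v * w' = 0 := by
    have h1 : star v * ((f - v * star v) * w') = 0 := by
      rw [← mul_assoc, mul_sub, hsf, ← mul_assoc, hvs, sub_self, zero_mul]
    rwa [hwf] at h1
  have hwv : w' * star v = 0 := by
    have h1 : w' * (e - star v * v) * star v = 0 := by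
      rw [mul_assoc, sub_mul, hes, hvs, sub_self, mul_zero]
    rwa [hwe] at h1
  have hvw' : v * star w' = 0 := by
    have h1 := congrArg star hwv
    rwa [star_mul, star_star, star_zero] at h1
  have hle : ∀ n, N τ w' ≤ 2 * N τ (w n) := by
    intro n
    have hshift : Lim2 τ (fun k => u (n + k)) v := by
      have h1 : Tendsto (fun k => N τ (u (k + n) - v)) atTop (𝓝 0) :=
        (tendsto_add_atTop_iff_nat n).2 hlim
      unfold Lim2
      refine h1.congr fun k => ?_
      rw [add_comm]
    have hc1 : ∀ k, star (u n) * u (n + k) = star (u n) * u n := by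
      intro k
      induction k with
      | zero => rfl
      | succ k ih =>
        rw [← add_assoc, hstep, mul_add, ih, (hR n (n + k) (by omega)).1, add_zero]
    have hc2 : ∀ k, u n * star (u (n + k)) = u n * star (u n) := by
      intro k
      induction k with
      | zero => rfl
      | succ k ih =>
        rw [← add_assoc, hstep, star_add, mul_add, ih, (hR n (n + k) (by omega)).2, add_zero]
    have hd1 : star (u n) * v = star (u n) * u n := by
      have h1 := hshift.mul_left hW (star (u n))
      have h2 : (fun k => star (u n) * u (n + k)) = fun _ => star (u n) * u n := funext hc1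
      rw [h2] at h1
      exact h1.unique hW (Lim2.const _)
    have hd2 : u n * star v = u n * star (u n) := by
      have h1 := (hshift.star hW).mul_left hW (u n)
      have h2 : (fun k => u n * star (u (n + k))) = fun _ => u n * star (u n) := funext hc2
      rw [h2] at h1
      exact h1.unique hW (Lim2.const _)
    have hun : u n * star (u n) * u n = u n := (hQ n).1
    have hun' : star (u n) * u n * star (u n) = star (u n) := by
      have h1 := congrArg star hun
      rw [star_mul, star_mul, star_star, ← mul_assoc] at h1
      exact h1
    refine hmax n w' ⟨hwPI, ?_, ?_, hwe', hwf'⟩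
    · calc star (u n) * w' = star (u n) * (u n * star (u n)) * w' := by
            rw [← mul_assoc, hun']
        _ = star (u n) * u n * (star v * w') := by
            rw [← hd2]
            noncomm_ring
        _ = 0 := by rw [hvw, mul_zero]
    · calc u n * star w' = u n * (star (u n) * u n) * star w' := by
            rw [← mul_assoc, hun]
        _ = u n * star (u n) * (v * star w') := by
            rw [← hd1]
            noncomm_ring
        _ = 0 := by rw [hvw', mul_zero]
  have h1 : Tendsto (fun n => 2 * N τ (w n)) atTop (𝓝 0) := by
    simpa using hlim0.const_mul 2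
  have h2 : N τ w' ≤ 0 := ge_of_tendsto' h1 hle
  exact hw0 (hW.faithful _ (le_antisymm h2 (N_nonneg hW.tr _)))

end Pool.McT
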