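import Pool.Agent.McT.W.Defs
import Pool.Agent.McT.Trunc

/-! Estimates for `q w q`. -/

set_option autoImplicit false

namespace Pool.McT

variable {A : Type*} [CStarAlgebra A] {τ : A →ₗ[ℂ] ℂ}

private theorem cont_Corner {ρ : ℝ} (hρ : 0 < ρ) : Continuous fun s : ℝ => (max s ρ)⁻¹ :=
  (continuous_id.max continuous_const).inv₀ fun s => (hρ.trans_le (le_max_right s ρ)).ne'

private theorem ineq_Corner {ρ : ℝ} (hρ : 0 < ρ) {s : ℝ} (hs : 0 ≤ s) :
    0 ≤ s * (s * (max s ρ)⁻¹) - s + ρ := by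
  rcases le_total s ρ with h | h
  · rw [max_eq_right h]
    have h1 : s * (s * ρ⁻¹) - s + ρ = (s ^ 2 - s * ρ + ρ ^ 2) * ρ⁻¹ := by
      field_simp
    rw [h1]
    refine mul_nonneg ?_ (inv_nonneg.2 hρ.le)
    nlinarith [sq_nonneg (s - ρ), sq_nonneg (s + ρ), mul_nonneg hs hρ.le]
  · rw [max_eq_left h]
    have h1 : s * (s * s⁻¹) = s := by
      rw [mul_inv_cancel₀ (hρ.trans_le h).ne', mul_one]
    rw [h1]
    linarith

private theorem F_Corner {ρ : ℝ} (hρ : 0 < ρ) {s : ℝ} (hs : 0 ≤ s) :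
    0 ≤ s * (max s ρ)⁻¹ ∧ s * (max s ρ)⁻¹ ≤ 1 := by
  have h0 : 0 < max s ρ := hρ.trans_le (le_max_right s ρ)
  refine ⟨mul_nonneg hs (inv_nonneg.2 h0.le), ?_⟩
  rw [← div_eq_mul_inv, div_le_one h0]
  exact le_max_left s ρ

private theorem split_Corner {ρ : ℝ} (hρ : 0 < ρ) {p : A} (hp : IsSelfAdjoint p) :
    cfc (fun s : ℝ => s * (max s ρ)⁻¹) p = p * cfc (fun s : ℝ => (max s ρ)⁻¹) p := by
  have h1 := cfc_mul (fun s : ℝ => s) (fun s : ℝ => (max s ρ)⁻¹) p continuous_id.continuousOn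
    (cont_Corner hρ).continuousOn
  have h2 : cfc (fun s : ℝ => s) p = p := cfc_id ℝ p hp
  rw [h1, h2]

private theorem key_Corner (hτ : IsTr τ) {ρ : ℝ} (hρ : 0 < ρ) {p : A} (hp : IsSelfAdjoint p)
    (hs : ∀ x ∈ spectrum ℝ p, 0 ≤ x) :
    (τ p).re - ρ * (τ 1).re ≤ (τ (p * cfc (fun s : ℝ => s * (max s ρ)⁻¹) p)).re := by
  have hc : Continuous fun s : ℝ => s * (max s ρ)⁻¹ := continuous_id.mul (cont_Corner hρ)
  have hcs : Continuous fun s : ℝ => s * (s * (max s ρ)⁻¹) := continuous_id.mul hc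
  have hh : Continuous fun s : ℝ => s * (s * (max s ρ)⁻¹) - s + ρ :=
    (hcs.sub continuous_id).add continuous_const
  have hsq : Continuous fun s : ℝ => √(s * (s * (max s ρ)⁻¹) - s + ρ) :=
    Real.continuous_sqrt.comp hh
  obtain ⟨b, hb⟩ : ∃ b : A, b = cfc (fun s : ℝ => √(s * (s * (max s ρ)⁻¹) - s + ρ)) p := ⟨_, rfl⟩
  have hbs : star b = b := by
    rw [hb]
    exact (cfc_predicate (R := ℝ) (p := IsSelfAdjoint) _ p).star_eq
  have h1 : star b * b = cfc (fun s : ℝ => s * (s * (max s ρ)⁻¹) - s + ρ) p := by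
    rw [hbs, hb, ← cfc_mul _ _ p hsq.continuousOn hsq.continuousOn]
    refine cfc_congr fun s hs' => ?_
    exact Real.mul_self_sqrt (ineq_Corner hρ (hs s hs'))
  have h2 : cfc (fun s : ℝ => s) p = p := cfc_id ℝ p hp
  have h3 : cfc (fun s : ℝ => s * (s * (max s ρ)⁻¹) - s + ρ) p =
      p * cfc (fun s : ℝ => s * (max s ρ)⁻¹) p - p + algebraMap ℝ A ρ := by
    rw [cfc_add p (fun s : ℝ => s * (s * (max s ρ)⁻¹) - s) (fun _ => ρ)
      (hcs.sub continuous_id).continuousOn continuous_const.continuousOn,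
      cfc_sub (fun s : ℝ => s * (s * (max s ρ)⁻¹)) (fun s : ℝ => s) p hcs.continuousOn
      continuous_id.continuousOn,
      cfc_mul (fun s : ℝ => s) (fun s : ℝ => s * (max s ρ)⁻¹) p continuous_id.continuousOn
      hc.continuousOn, cfc_const ρ p hp, h2]
  have h4 := hτ.nonneg b
  rw [h1, h3, map_add, map_sub, Algebra.algebraMap_eq_smul_one, LinearMap.map_smul_of_tower,
    Complex.add_re, Complex.sub_re, Complex.real_smul, Complex.re_ofReal_mul] at h4
  linarith

private theorem norm_Corner {z : A} (hz : IsSelfAdjoint z)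
    (h : ∀ x ∈ spectrum ℝ z, |x| ≤ 1) : ‖z‖ ≤ 1 := by
  have h2 : cfc (fun s : ℝ => s) z = z := cfc_id ℝ z hz
  rw [← h2]
  exact norm_cfc_le zero_le_one fun x hx => by
    rw [Real.norm_eq_abs]
    exact h x hx

private theorem norm_sub_Corner {ρ : ℝ} (hρ : 0 < ρ) {p q : A} (hp : IsSelfAdjoint p)
    (hq : IsSelfAdjoint q) (hps : ∀ x ∈ spectrum ℝ p, 0 ≤ x) (hqs : ∀ x ∈ spectrum ℝ q, 0 ≤ x) :
    ‖cfc (fun s : ℝ => s * (max s ρ)⁻¹) p - cfc (fun s : ℝ => s * (max s ρ)⁻¹) q‖ ≤ 1 := by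
  let _ := CStarAlgebra.spectralOrder A
  let _ := CStarAlgebra.spectralOrderedRing A
  have a0 : 0 ≤ cfc (fun s : ℝ => s * (max s ρ)⁻¹) p :=
    cfc_nonneg fun x hx => (F_Corner hρ (hps x hx)).1
  have a1 : cfc (fun s : ℝ => s * (max s ρ)⁻¹) p ≤ 1 :=
    cfc_le_one _ _ fun x hx => (F_Corner hρ (hps x hx)).2
  have b0 : 0 ≤ cfc (fun s : ℝ => s * (max s ρ)⁻¹) q :=
    cfc_nonneg fun x hx => (F_Corner hρ (hqs x hx)).1
  have b1 : cfc (fun s : ℝ => s * (max s ρ)⁻¹) q ≤ 1 :=
    cfc_le_one _ _ fun x hx => (F_Corner hρ (hqs x hx)).2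
  have hsa : IsSelfAdjoint (cfc (fun s : ℝ => s * (max s ρ)⁻¹) p -
      cfc (fun s : ℝ => s * (max s ρ)⁻¹) q) :=
    (cfc_predicate (R := ℝ) (p := IsSelfAdjoint) _ p).sub
      (cfc_predicate (R := ℝ) (p := IsSelfAdjoint) _ q)
  refine norm_Corner hsa fun x hx => abs_le.2 ⟨?_, ?_⟩
  · refine (algebraMap_le_iff_le_spectrum (R := ℝ) (p := IsSelfAdjoint) hsa).1 ?_ x hx
    rw [map_neg, map_one]
    have h1 : -(1 : A) ≤ -cfc (fun s : ℝ => s * (max s ρ)⁻¹) q := neg_le_neg b1
    refine h1.trans ?_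
    rw [sub_eq_add_neg]
    exact le_add_of_nonneg_left a0
  · refine (le_algebraMap_iff_spectrum_le (R := ℝ) (p := IsSelfAdjoint) hsa).1 ?_ x hx
    rw [map_one]
    exact (sub_le_self _ b0).trans a1

private theorem keyq_Corner (hτ : IsTr τ) {ρ : ℝ} (hρ : 0 < ρ) {p : A} (hp : IsSelfAdjoint p)
    (hs : ∀ x ∈ spectrum ℝ p, 0 ≤ x) {q : A} (hq : IsPr q) :
    (τ (q * p)).re - ρ * (τ q).re ≤
      (τ (q * (p * cfc (fun s : ℝ => s * (max s ρ)⁻¹) p))).re := by
  have hc : Continuous fun s : ℝ => s * (max s ρ)⁻¹ := continuous_id.mul (cont_Corner hρ)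
  have hcs : Continuous fun s : ℝ => s * (s * (max s ρ)⁻¹) := continuous_id.mul hc
  have hh : Continuous fun s : ℝ => s * (s * (max s ρ)⁻¹) - s + ρ :=
    (hcs.sub continuous_id).add continuous_const
  have hsq : Continuous fun s : ℝ => √(s * (s * (max s ρ)⁻¹) - s + ρ) :=
    Real.continuous_sqrt.comp hh
  obtain ⟨b, hb⟩ : ∃ b : A, b = cfc (fun s : ℝ => √(s * (s * (max s ρ)⁻¹) - s + ρ)) p := ⟨_, rfl⟩
  have hbs : star b = b := by
    rw [hb]
    exact (cfc_predicate (R := ℝ) (p := IsSelfAdjoint) _ p).star_eq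
  have h1 : star b * b = cfc (fun s : ℝ => s * (s * (max s ρ)⁻¹) - s + ρ) p := by
    rw [hbs, hb, ← cfc_mul _ _ p hsq.continuousOn hsq.continuousOn]
    refine cfc_congr fun s hs' => ?_
    exact Real.mul_self_sqrt (ineq_Corner hρ (hs s hs'))
  have h2 : cfc (fun s : ℝ => s) p = p := cfc_id ℝ p hp
  have h3 : cfc (fun s : ℝ => s * (s * (max s ρ)⁻¹) - s + ρ) p =
      p * cfc (fun s : ℝ => s * (max s ρ)⁻¹) p - p + algebraMap ℝ A ρ := by
    rw [cfc_add p (fun s : ℝ => s * (s * (max s ρ)⁻¹) - s) (fun _ => ρ)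
      (hcs.sub continuous_id).continuousOn continuous_const.continuousOn,
      cfc_sub (fun s : ℝ => s * (s * (max s ρ)⁻¹)) (fun s : ℝ => s) p hcs.continuousOn
      continuous_id.continuousOn,
      cfc_mul (fun s : ℝ => s) (fun s : ℝ => s * (max s ρ)⁻¹) p continuous_id.continuousOn
      hc.continuousOn, cfc_const ρ p hp, h2]
  have h4 := hτ.nonneg (b * q)
  have h5 : star (b * q) * (b * q) = q * (star b * b) * q := by
    rw [star_mul, hq.1]
    noncomm_ring
  have h6 : τ (q * (star b * b) * q) = τ (q * (star b * b)) := by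
    rw [hτ.comm, ← mul_assoc, hq.2]
  rw [h5, h6, h1, h3, mul_add, mul_sub, map_add, map_sub, Algebra.algebraMap_eq_smul_one,
    mul_smul_comm, mul_one, LinearMap.map_smul_of_tower,
    Complex.add_re, Complex.sub_re, Complex.real_smul, Complex.re_ofReal_mul] at h4
  linarith

private theorem norm_le_one_Corner {q : A} (hq : IsPr q) : ‖q‖ ≤ 1 := by
  have h1 := CStarRing.norm_star_mul_self (x := q)
  rw [hq.1, hq.2] at h1
  by_contra h
  push Not at h
  nlinarith [norm_nonneg q]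

private theorem N_q_le_Corner (hτ : IsTr τ) {q : A} (hq : IsPr q) (x : A) :
    N τ (q * x) ≤ N τ x ∧ N τ (x * q) ≤ N τ x := by
  have h1 := norm_le_one_Corner hq
  have h2 : ‖q‖ ^ 2 ≤ 1 := by nlinarith [norm_nonneg q]
  have h3 := N_nonneg hτ x
  constructor
  · exact (N_mul_le_left hτ q x).trans (by nlinarith)
  · exact (N_mul_le_right hτ x q).trans (by nlinarith)

private theorem pr_compl_Corner {q : A} (hq : IsPr q) : IsPr (1 - q) := by
  refine ⟨by rw [star_sub, star_one, hq.1], ?_⟩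
  have h2 : q * (1 - q) = 0 := by rw [mul_sub, mul_one, hq.2, sub_self]
  rw [sub_mul, one_mul, h2, sub_zero]

/-- As `exists_trunc` (same `z`): `(v v* - v* v) z = v v* F (v v*) + v* v F (v* v)` is at least
`v v* + v* v - 2 ρ`. -/
theorem exists_trunc_q (hτ : IsTr τ) {v : A} (hv : v * v = 0) {ρ : ℝ} (hρ : 0 < ρ) :
    ∃ z : A, ‖z‖ ≤ 1 ∧ ∀ q : A, IsPr q →
      N τ (q * v) + N τ (v * q) - 2 * ρ * N τ 1 ≤
        (τ (q * ((v * star v - star v * v) * z))).re := by
  have hvs : star v * star v = 0 := by rw [← star_mul, hv, star_zero]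
  have hp : IsSelfAdjoint (v * star v) := IsSelfAdjoint.mul_star_self v
  have hq : IsSelfAdjoint (star v * v) := IsSelfAdjoint.star_mul_self v
  have hqs : ∀ x ∈ spectrum ℝ (star v * v), 0 ≤ x := spectrum_star_mul_self_nonneg
  have hps : ∀ x ∈ spectrum ℝ (v * star v), 0 ≤ x := by
    have h := spectrum_star_mul_self_nonneg (b := star v)
    rwa [star_star] at h
  have hpq : (v * star v) * (star v * v) = 0 := by
    rw [mul_assoc, ← mul_assoc (star v) (star v) v, hvs, zero_mul, mul_zero]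
  have hqp : (star v * v) * (v * star v) = 0 := by
    rw [mul_assoc, ← mul_assoc v v (star v), hv, zero_mul, mul_zero]
  refine ⟨cfc (fun s : ℝ => s * (max s ρ)⁻¹) (v * star v) -
    cfc (fun s : ℝ => s * (max s ρ)⁻¹) (star v * v), norm_sub_Corner hρ hp hq hps hqs, ?_⟩
  intro r hr
  have k1 := keyq_Corner hτ hρ hp hps hr
  have k2 := keyq_Corner hτ hρ hq hqs hr
  have e1 : (v * star v) * cfc (fun s : ℝ => s * (max s ρ)⁻¹) (star v * v) = 0 := by
    rw [split_Corner hρ hq, ← mul_assoc, hpq, zero_mul]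
  have e2 : (star v * v) * cfc (fun s : ℝ => s * (max s ρ)⁻¹) (v * star v) = 0 := by
    rw [split_Corner hρ hp, ← mul_assoc, hqp, zero_mul]
  have e3 : (v * star v - star v * v) * (cfc (fun s : ℝ => s * (max s ρ)⁻¹) (v * star v) -
      cfc (fun s : ℝ => s * (max s ρ)⁻¹) (star v * v)) =
      (v * star v) * cfc (fun s : ℝ => s * (max s ρ)⁻¹) (v * star v) +
        (star v * v) * cfc (fun s : ℝ => s * (max s ρ)⁻¹) (star v * v) := by
    rw [sub_mul, mul_sub, mul_sub, e1, e2]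
    abel
  have e4 : N τ (r * v) = (τ (r * (v * star v))).re := by
    unfold N
    have h1 : star (r * v) * (r * v) = star v * (r * v) := by
      rw [star_mul, hr.1, mul_assoc, ← mul_assoc r r v, hr.2]
    rw [h1, hτ.comm, mul_assoc]
  have e5 : N τ (v * r) = (τ (r * (star v * v))).re := by
    unfold N
    have h1 : star (v * r) * (v * r) = r * ((star v * v) * r) := by
      rw [star_mul, hr.1]
      noncomm_ring
    rw [h1, hτ.comm, mul_assoc, hr.2, hτ.comm]
  have e6 : (τ r).re ≤ N τ 1 := by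
    have h1 := (N_q_le_Corner hτ hr 1).1
    rw [mul_one] at h1
    have h2 : N τ r = (τ r).re := by
      unfold N
      rw [hr.1, hr.2]
    rwa [h2] at h1
  rw [e3, mul_add, map_add, Complex.add_re, e4, e5]
  nlinarith

private theorem half_Corner (hτ : IsTr τ) {q w z : A} (hq : IsPr q) (hz : ‖z‖ ≤ 1) :
    |(τ ((q * (w * star w) - (q * w * q) * star (q * w * q)) * z)).re| ≤
      Real.sqrt (N τ w) * (Real.sqrt (N τ (cm w q)) + Real.sqrt (N τ (cm (star w) q))) := by
  have hz2 : ‖z‖ ^ 2 ≤ 1 := by nlinarith [norm_nonneg z]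
  have hq' := pr_compl_Corner hq
  have cs : ∀ x y : A, ‖τ (x * y)‖ ≤ Real.sqrt (N τ x) * Real.sqrt (N τ y) := by
    intro x y
    have h1 := tau_mul_sq_le hτ x y
    rw [← Real.sqrt_mul (N_nonneg hτ x)]
    exact Real.le_sqrt_of_sq_le h1
  have hNz : ∀ x : A, N τ (x * z) ≤ N τ x := by
    intro x
    have h1 := N_mul_le_right hτ x z
    have h2 := N_nonneg hτ x
    nlinarith
  have e1 : q * w * (1 - q) = - (q * cm w q * (1 - q)) := by
    unfold cm
    have h1 : q * (w * q - q * w) * (1 - q) = q * w * (q * (1 - q)) - (q * q) * w * (1 - q) := by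
      noncomm_ring
    have h2 : q * (1 - q) = 0 := by rw [mul_sub, mul_one, hq.2, sub_self]
    rw [h1, h2, mul_zero, hq.2, zero_sub, neg_neg]
  have e2 : q * star w * (1 - q) = - (q * cm (star w) q * (1 - q)) := by
    unfold cm
    have h1 : q * (star w * q - q * star w) * (1 - q) =
        q * star w * (q * (1 - q)) - (q * q) * star w * (1 - q) := by
      noncomm_ring
    have h2 : q * (1 - q) = 0 := by rw [mul_sub, mul_one, hq.2, sub_self]
    rw [h1, h2, mul_zero, hq.2, zero_sub, neg_neg]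
  have e3 : (q * (w * star w) - (q * w * q) * star (q * w * q)) * z =
      (q * w * (1 - q)) * (star w * z) + (q * w) * ((q * star w * (1 - q)) * z) := by
    have h1 : star (q * w * q) = q * (star w * q) := by
      rw [star_mul, star_mul, hq.1]
    rw [h1]
    have h2 : (q * w * q) * (q * (star w * q)) = q * w * (q * q) * (star w * q) := by
      noncomm_ring
    rw [h2, hq.2]
    noncomm_ring
  have b1 : ‖τ ((q * w * (1 - q)) * (star w * z))‖ ≤
      Real.sqrt (N τ (cm w q)) * Real.sqrt (N τ w) := by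
    refine (cs _ _).trans ?_
    refine mul_le_mul (Real.sqrt_le_sqrt ?_) (Real.sqrt_le_sqrt ?_) (Real.sqrt_nonneg _)
      (Real.sqrt_nonneg _)
    · rw [e1, N_neg]
      exact ((N_q_le_Corner hτ hq' _).2).trans (N_q_le_Corner hτ hq _).1
    · exact (hNz _).trans (N_star hτ w).le
  have b2 : ‖τ ((q * w) * ((q * star w * (1 - q)) * z))‖ ≤
      Real.sqrt (N τ w) * Real.sqrt (N τ (cm (star w) q)) := by
    refine (cs _ _).trans ?_
    refine mul_le_mul (Real.sqrt_le_sqrt ?_) (Real.sqrt_le_sqrt ?_) (Real.sqrt_nonneg _)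
      (Real.sqrt_nonneg _)
    · exact (N_q_le_Corner hτ hq _).1
    · refine (hNz _).trans ?_
      rw [e2, N_neg]
      exact ((N_q_le_Corner hτ hq' _).2).trans (N_q_le_Corner hτ hq _).1
  rw [e3, map_add]
  refine (Complex.abs_re_le_norm _).trans ((norm_add_le _ _).trans ?_)
  linarith

/-- With `x = q w q` and a contraction `z`:
`x x* - q w w* = - q w (1 - q) w* q - q w w* (1 - q)`, `‖q w (1 - q)‖₂ ≤ ‖[w, q]‖₂`,
`‖q w w* (1 - q)‖₁ ≤ ‖w‖₂ (‖[w, q]‖₂ + ‖[w*, q]‖₂)`; the same for `x* x - q w* w`. -/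
theorem corner_close (hτ : IsTr τ) {q w z : A} (hq : IsPr q) (hz : ‖z‖ ≤ 1) :
    |(τ (q * ((w * star w - star w * w) * z))).re
      + (τ ((star (q * w * q) * (q * w * q) - (q * w * q) * star (q * w * q)) * z)).re|
      ≤ 2 * (N τ (cm w q) + N τ (cm (star w) q)) + 2 * Real.sqrt (N τ w) *
        (Real.sqrt (N τ (cm w q)) + Real.sqrt (N τ (cm (star w) q))) := by
  have h1 := half_Corner hτ hq hz (w := w)
  have h2 := half_Corner hτ hq hz (w := star w)
  rw [star_star, N_star hτ] at h2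
  have e0 : star (q * star w * q) = q * w * q := by
    rw [star_mul, star_mul, star_star, hq.1, mul_assoc]
  have e0' : q * star w * q = star (q * w * q) := by
    rw [star_mul, star_mul, hq.1, mul_assoc]
  rw [e0, e0'] at h2
  have e1 : q * ((w * star w - star w * w) * z) = (q * (w * star w)) * z -
      (q * (star w * w)) * z := by
    noncomm_ring
  have e2 : (τ (q * ((w * star w - star w * w) * z))).re
      + (τ ((star (q * w * q) * (q * w * q) - (q * w * q) * star (q * w * q)) * z)).re =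
      (τ ((q * (w * star w) - (q * w * q) * star (q * w * q)) * z)).re -
      (τ ((q * (star w * w) - star (q * w * q) * (q * w * q)) * z)).re := by
    rw [e1, sub_mul, sub_mul, sub_mul]
    simp only [map_sub, Complex.sub_re]
    ring
  rw [e2]
  have h3 := N_nonneg hτ (cm w q)
  have h4 := N_nonneg hτ (cm (star w) q)
  have h5 := abs_sub (τ ((q * (w * star w) - (q * w * q) * star (q * w * q)) * z)).re
    (τ ((q * (star w * w) - star (q * w * q) * (q * w * q)) * z)).re
  linarith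

/-- For `g = q g q`: `[q w q, g] = q [w, g] q`. -/
theorem S_corner_le (hτ : IsTr τ) {q : A} (hq : IsPr q) {G : Finset A}
    (hG : ∀ g ∈ G, q * g = g ∧ g * q = g) (w : A) : S τ G (q * w * q) ≤ S τ G w := by
  have key : ∀ (w g : A), q * g = g → g * q = g → N τ (cm (q * w * q) g) ≤ N τ (cm w g) := by
    intro w g h1 h2
    have e : cm (q * w * q) g = q * cm w g * q := by
      unfold cm
      have h3 : q * w * q * g = q * w * (q * g) := by noncomm_ring
      have h4 : g * (q * w * q) = (g * q) * w * q := by noncomm_ring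
      have h5 : q * (w * g - g * w) * q = q * w * (g * q) - (q * g) * w * q := by noncomm_ring
      rw [h3, h4, h5, h1, h2]
    rw [e]
    exact ((N_q_le_Corner hτ hq _).2).trans (N_q_le_Corner hτ hq _).1
  unfold S
  refine Finset.sum_le_sum fun g hg => ?_
  obtain ⟨h1, h2⟩ := hG g hg
  have e : star (q * w * q) = q * star w * q := by
    rw [star_mul, star_mul, hq.1, mul_assoc]
  rw [e]
  exact add_le_add (key w g h1 h2) (key (star w) g h1 h2)

end Pool.McT
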