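import Pool.Agent.McT.Basic

/-!
# Finite factors, central sequences, the McDuff property

`WT τ`: `τ` is a faithful tracial state and the unit ball is complete for the 2-norm (`A` is a
finite von Neumann algebra). `Fac τ`: the centre is trivial. `Sep τ`: `A` is separable for the
2-norm (separable predual). `McDuff τ`: there are two central sequences which do not commute
asymptotically.
-/

set_option autoImplicit false

namespace Pool.McT

open Filter Topology

variable {A : Type*} [CStarAlgebra A]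

/-- Convergence in the 2-norm. -/
def Lim2 (τ : A →ₗ[ℂ] ℂ) (x : ℕ → A) (y : A) : Prop :=
  Tendsto (fun n => N τ (x n - y)) atTop (𝓝 0)

/-- A faithful tracial state with 2-norm complete unit ball. -/
structure WT (τ : A →ₗ[ℂ] ℂ) : Prop where
  tr : IsTr τ
  one : τ 1 = 1
  faithful : ∀ x : A, N τ x = 0 → x = 0
  complete : ∀ x : ℕ → A, (∀ n, ‖x n‖ ≤ 1) →
    (∀ ε : ℝ, 0 < ε → ∃ n₀ : ℕ, ∀ m n : ℕ, n₀ ≤ m → n₀ ≤ n → N τ (x m - x n) ≤ ε) →
    ∃ y : A, ‖y‖ ≤ 1 ∧ Lim2 τ x y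

/-- A finite factor with its tracial state. -/
structure Fac (τ : A →ₗ[ℂ] ℂ) : Prop extends WT τ where
  center : ∀ z : A, (∀ y, z * y = y * z) → ∃ c : ℂ, z = c • (1 : A)

/-- 2-norm separability. -/
def Sep (τ : A →ₗ[ℂ] ℂ) : Prop :=
  ∃ d : ℕ → A, ∀ x : A, ∀ ε : ℝ, 0 < ε → ∃ n, N τ (x - d n) ≤ ε

/-- Central sequences (bounded in norm, asymptotically commuting in the 2-norm with all `a`). -/
def CentralSeq (τ : A →ₗ[ℂ] ℂ) (x : ℕ → A) : Prop :=
  (∃ C : ℝ, ∀ n, ‖x n‖ ≤ C) ∧ ∀ a : A, Tendsto (fun n => N τ (cm (x n) a)) atTop (𝓝 0)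

/-- The central sequence algebra is not commutative. -/
def McDuff (τ : A →ₗ[ℂ] ℂ) : Prop :=
  ∃ x y : ℕ → A, CentralSeq τ x ∧ CentralSeq τ y ∧
    ¬ Tendsto (fun n => N τ (cm (x n) (y n))) atTop (𝓝 0)

/-- Projections. -/
def IsPr (e : A) : Prop := star e = e ∧ e * e = e

/-- Partial isometries. -/
def IsPI (u : A) : Prop := u * star u * u = u

end Pool.McT
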