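import Pool.Agent.McT.AbsDiff
import Pool.Agent.McT.Fun
import Pool.Agent.McT.W.Defs

/-! The estimates of `Nil`, `AbsDiff`, `Fun` in the corner of a projection `q`. -/

set_option autoImplicit false

namespace Pool.McT

variable {A : Type*} [CStarAlgebra A] {τ : A →ₗ[ℂ] ℂ}

/-- `NM` for the elements `w = q w q`. -/
def NMq (τ : A →ₗ[ℂ] ℂ) (q : A) (F : Finset A) (κ : ℝ) : Prop :=
  ∀ w : A, q * w = w → w * q = w → w * w = 0 → N τ w ≤ κ * ∑ u ∈ F, N τ (cm w u)

/-- `AD` for the elements `x = q x q`. -/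
def ADq (τ : A →ₗ[ℂ] ℂ) (q : A) (F : Finset A) (α Λ : ℝ) : Prop :=
  ∀ x : A, q * x = x → x * q = x → ∃ g h : A, IsSelfAdjoint g ∧ IsSelfAdjoint h ∧
    g * g = x * star x ∧ h * h = star x * x ∧ N τ (g - h) ≤ α * N τ x + Λ * S τ F x

private theorem rel_cfc_mul {f g : ℝ → ℝ} (hf : Continuous f) (hg : Continuous g)
    (X : M2 A) : cfc f X * cfc g X = cfc (fun s => f s * g s) X :=
  (cfc_mul f g X hf.continuousOn hg.continuousOn).symm

private theorem rel_cm_zero (u : A) : cm (0 : A) u = 0 := by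
  unfold cm
  rw [zero_mul, mul_zero, sub_zero]

/-- If `X e = 0` and `g 0 = 0` then `g (X) e = 0`. -/
private theorem rel_cfc_zero {M : Type*} [CStarAlgebra M] {X e : M} (hX : IsSelfAdjoint X)
    (hXe : X * e = 0) {g : ℝ → ℝ} (hg : Continuous g) (hg0 : g 0 = 0) (hg1 : ∀ s, |g s| ≤ 1) :
    cfc g X * e = 0 := by
  have key : ∀ ε : ℝ, 0 < ε → ‖cfc g X * e‖ ≤ ε * ‖e‖ := by
    intro ε hε
    obtain ⟨δ, hδ, hδ'⟩ := Metric.continuous_iff.1 hg 0 ε hε
    have hc : 0 < ε * δ ^ 2 := by positivity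
    have hden : ∀ s : ℝ, 0 < s ^ 2 + ε * δ ^ 2 := fun s => by positivity
    have hh : Continuous fun s : ℝ => g s * s / (s ^ 2 + ε * δ ^ 2) :=
      (hg.mul continuous_id).div ((continuous_id.pow 2).add continuous_const)
        fun s => (hden s).ne'
    have h1 : cfc (fun s : ℝ => g s * s / (s ^ 2 + ε * δ ^ 2) * s) X * e = 0 := by
      rw [cfc_mul (fun s : ℝ => g s * s / (s ^ 2 + ε * δ ^ 2)) (fun s => s) X hh.continuousOn
        continuous_id.continuousOn, cfc_id' ℝ X, mul_assoc, hXe, mul_zero]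
    have h2 : cfc g X * e =
        cfc (fun s : ℝ => g s - g s * s / (s ^ 2 + ε * δ ^ 2) * s) X * e := by
      rw [cfc_sub (fun s : ℝ => g s) (fun s : ℝ => g s * s / (s ^ 2 + ε * δ ^ 2) * s) X
        hg.continuousOn (hh.mul continuous_id).continuousOn, sub_mul, h1, sub_zero]
    rw [h2]
    refine (norm_mul_le _ _).trans (mul_le_mul_of_nonneg_right ?_ (norm_nonneg _))
    refine norm_cfc_le hε.le fun s _ => ?_
    have h3 : g s - g s * s / (s ^ 2 + ε * δ ^ 2) * s =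
        g s * (ε * δ ^ 2 / (s ^ 2 + ε * δ ^ 2)) := by
      have := (hden s).ne'
      field_simp
      ring
    have h4 : 0 ≤ ε * δ ^ 2 / (s ^ 2 + ε * δ ^ 2) := (div_pos hc (hden s)).le
    rw [h3, norm_mul, Real.norm_eq_abs, Real.norm_eq_abs, abs_of_nonneg h4]
    by_cases hs : |s| < δ
    · have h5 : |g s| < ε := by
        have := hδ' s (by rwa [Real.dist_eq, sub_zero])
        rwa [hg0, Real.dist_eq, sub_zero] at this
      have h6 : ε * δ ^ 2 / (s ^ 2 + ε * δ ^ 2) ≤ 1 := by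
        rw [div_le_one (hden s)]
        nlinarith [sq_nonneg s]
      nlinarith [abs_nonneg (g s)]
    · rw [not_lt] at hs
      have h5 : ε * δ ^ 2 / (s ^ 2 + ε * δ ^ 2) ≤ ε := by
        rw [div_le_iff₀ (hden s)]
        have h6 : δ ^ 2 ≤ s ^ 2 := by
          rw [← sq_abs s]
          exact pow_le_pow_left₀ hδ.le hs 2
        nlinarith [mul_pos hε hc]
      have h7 := hg1 s
      nlinarith [abs_nonneg (g s)]
  have h0 : ‖cfc g X * e‖ ≤ 0 := by
    refine le_of_forall_pos_le_add fun ε hε => ?_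
    rw [zero_add]
    have h1 := key (ε / (‖e‖ + 1)) (by positivity)
    refine h1.trans ?_
    rw [div_mul_eq_mul_div, div_le_iff₀ (by positivity)]
    nlinarith [norm_nonneg e]
  exact norm_le_zero_iff.1 h0

/-- As `nil_bound` (copy its proof); the elements `P₁ w`, `P₀ w*` satisfy `q y = y = y q`:
`w = ent (cfc g X) 0 1`, `g 0 = 0` (`g` is odd), `X (1 - Q) = 0` for `Q = diag (q, q)`, so
`cfc g X (1 - Q) = 0`, and `cfc f X` commutes with `Q`. -/
theorem nil_bound_q (hτ : IsTr τ) {q : A} (hq : IsPr q) {F : Finset A} {κ : ℝ} (hκ : 0 ≤ κ)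
    (hNM : NMq τ q F κ) (x : A) (hx : q * x = x) (hx' : x * q = x) {f g : ℝ → ℝ}
    (hf : Continuous f) (hg : Continuous g) (hfe : ∀ s, f (-s) = f s)
    (hgo : ∀ s, g (-s) = - g s) (hfg : ∀ s, f s * g s = 0) (hf1 : ∀ s, |f s| ≤ 1)
    (hg1 : ∀ s, |g s| ≤ 1) :
    (tr2 τ (cfc (fun s => f s ^ 2) (XX x) * E01 * cfc (fun s => g s ^ 2) (XX x)
        * star E01)).re
      + (tr2 τ (cfc (fun s => g s ^ 2) (XX x) * E01 * cfc (fun s => f s ^ 2) (XX x)
        * star E01)).re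
      ≤ 2 * κ * ∑ u ∈ F, (N (tr2 τ) (cm (cfc f (XX x)) (UU u))
        + N (tr2 τ) (cm (cfc g (XX x)) (UU u))) := by
  have hqs : star q = q := hq.1
  have hsx : star x * q = star x := by
    have := congrArg star hx
    rwa [star_mul, hqs] at this
  have hsx' : q * star x = star x := by
    have := congrArg star hx'
    rwa [star_mul, hqs] at this
  have eQ : ∀ i j, ent (UU q) i j = if i = j then q else 0 := by
    intro i j
    fin_cases i <;> fin_cases j <;> rfl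
  have hXQ : XX x * UU q = XX x := by
    refine ext2 ?_ ?_ ?_ ?_ <;> rw [ent_mul]
    · show (0 : A) * q + x * 0 = 0
      rw [zero_mul, mul_zero, zero_add]
    · show (0 : A) * 0 + x * q = x
      rw [zero_mul, zero_add, hx']
    · show star x * q + (0 : A) * 0 = star x
      rw [zero_mul, add_zero, hsx]
    · show star x * (0 : A) + 0 * q = 0
      rw [zero_mul, mul_zero, zero_add]
  have hQX : UU q * XX x = XX x := by
    refine ext2 ?_ ?_ ?_ ?_ <;> rw [ent_mul]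
    · show q * (0 : A) + 0 * star x = 0
      rw [zero_mul, mul_zero, zero_add]
    · show q * x + (0 : A) * 0 = x
      rw [zero_mul, add_zero, hx]
    · show (0 : A) * 0 + q * star x = star x
      rw [zero_mul, zero_add, hsx']
    · show (0 : A) * x + q * 0 = 0
      rw [zero_mul, mul_zero, zero_add]
  have hg0 : g 0 = 0 := by
    have := hgo 0
    rw [neg_zero] at this
    linarith
  have hWQ : cfc g (XX x) * UU q = cfc g (XX x) := by
    have h1 := rel_cfc_zero (XX_selfAdjoint x) (e := 1 - UU q)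
      (by rw [mul_sub, mul_one, hXQ, sub_self]) hg hg0 hg1
    rw [mul_sub, mul_one, sub_eq_zero] at h1
    exact h1.symm
  have hPQ : cfc f (XX x) * UU q = UU q * cfc f (XX x) := by
    have h1 : Commute (XX x) (UU q) := by
      show XX x * UU q = UU q * XX x
      rw [hXQ, hQX]
    exact (h1.cfc_real f).eq
  have hP2 : cfc (fun s => f s ^ 2) (XX x) = cfc f (XX x) * cfc f (XX x) := by
    rw [rel_cfc_mul hf hf]
    congr 1
    funext s
    ring
  have hW2 : cfc (fun s => g s ^ 2) (XX x) = cfc g (XX x) * cfc g (XX x) := by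
    rw [rel_cfc_mul hg hg]
    congr 1
    funext s
    ring
  have hPW : cfc f (XX x) * cfc g (XX x) = 0 := by
    rw [rel_cfc_mul hf hg]
    simp only [hfg]
    exact cfc_const_zero ℝ (XX x)
  obtain ⟨hp01, hp10⟩ := cfc_even x hf hfe
  obtain ⟨hw00, hw11⟩ := cfc_odd x hg hgo
  have hPs : star (cfc f (XX x)) = cfc f (XX x) :=
    (cfc_predicate (R := ℝ) f (XX x) : IsSelfAdjoint _)
  have hWs : star (cfc g (XX x)) = cfc g (XX x) :=
    (cfc_predicate (R := ℝ) g (XX x) : IsSelfAdjoint _)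
  have hPn : ‖cfc f (XX x)‖ ≤ 1 := norm_cfc_le_one _ hf1
  have hWn : ‖cfc g (XX x)‖ ≤ 1 := norm_cfc_le_one _ hg1
  rw [hP2, hW2, tr2_E01, tr2_E01]
  generalize cfc f (XX x) = P at *
  generalize cfc g (XX x) = W at *
  obtain ⟨p0, hp0⟩ : ∃ p, p = ent P 0 0 := ⟨_, rfl⟩
  obtain ⟨p1, hp1⟩ : ∃ p, p = ent P 1 1 := ⟨_, rfl⟩
  obtain ⟨w, hw⟩ : ∃ p, p = ent W 0 1 := ⟨_, rfl⟩
  have hw' : ent W 1 0 = star w := by
    rw [hw, ← ent_star, hWs]
  have hp0s : star p0 = p0 := by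
    rw [hp0, ← ent_star, hPs]
  have hp1s : star p1 = p1 := by
    rw [hp1, ← ent_star, hPs]
  have hp0n : ‖p0‖ ≤ 1 := by
    rw [hp0]
    exact (norm_ent_le _ _ _).trans hPn
  have hp1n : ‖p1‖ ≤ 1 := by
    rw [hp1]
    exact (norm_ent_le _ _ _).trans hPn
  have hwn : ‖w‖ ≤ 1 := by
    rw [hw]
    exact (norm_ent_le _ _ _).trans hWn
  have hwn' : ‖star w‖ ≤ 1 := by
    rw [norm_star]
    exact hwn
  have q1 : w * q = w := by
    have := congrArg (fun M => ent M 0 1) hWQ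
    simp only [ent_mul, hw00, zero_mul, zero_add, eQ] at this
    rw [hw]
    simpa using this
  have q2 : star w * q = star w := by
    have := congrArg (fun M => ent M 1 0) hWQ
    simp only [ent_mul, hw11, zero_mul, add_zero, eQ] at this
    rw [← hw']
    simpa using this
  have q3 : q * w = w := by
    have := congrArg star q2
    rwa [star_mul, star_star, hqs] at this
  have q4 : q * star w = star w := by
    have := congrArg star q1
    rwa [star_mul, hqs] at this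
  have q5 : p0 * q = q * p0 := by
    have := congrArg (fun M => ent M 0 0) hPQ
    simp only [ent_mul, hp01, hp10, zero_mul, mul_zero, add_zero, eQ] at this
    rw [hp0]
    simpa using this
  have q6 : p1 * q = q * p1 := by
    have := congrArg (fun M => ent M 1 1) hPQ
    simp only [ent_mul, hp01, hp10, zero_mul, mul_zero, zero_add, eQ] at this
    rw [hp1]
    simpa using this
  have z1 : p0 * w = 0 := by
    have := congrArg (fun M => ent M 0 1) hPW
    simp only [ent_mul, ent_zero, hw11, mul_zero, add_zero] at this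
    rw [hp0, hw]
    exact this
  have z2 : p1 * star w = 0 := by
    have := congrArg (fun M => ent M 1 0) hPW
    simp only [ent_mul, ent_zero, hw00, mul_zero, zero_add] at this
    rw [hp1, ← hw']
    exact this
  have z3 : w * p1 = 0 := by
    have := congrArg star z2
    rw [star_mul, star_star, hp1s, star_zero] at this
    exact this
  have z4 : star w * p0 = 0 := by
    have := congrArg star z1
    rw [star_mul, hp0s, star_zero] at this
    exact this
  have e1 : ent (P * P) 0 0 = p0 * p0 := by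
    rw [ent_mul, hp01, zero_mul, add_zero, ← hp0]
  have e2 : ent (P * P) 1 1 = p1 * p1 := by
    rw [ent_mul, hp10, zero_mul, zero_add, ← hp1]
  have e3 : ent (W * W) 0 0 = w * star w := by
    rw [ent_mul, hw00, zero_mul, zero_add, ← hw, hw']
  have e4 : ent (W * W) 1 1 = star w * w := by
    rw [ent_mul, hw11, mul_zero, add_zero, ← hw, hw']
  have n1 : N τ (p0 * star w) = (τ (ent (P * P) 0 0 * ent (W * W) 1 1)).re := by
    unfold N
    rw [e1, e4, star_mul, star_star, hp0s, mul_assoc, hτ.comm]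
    congr 2
    noncomm_ring
  have n2 : N τ (p1 * w) = (τ (ent (W * W) 0 0 * ent (P * P) 1 1)).re := by
    unfold N
    rw [e2, e3, star_mul, hp1s, mul_assoc, hτ.comm, hτ.comm (w * star w)]
    congr 2
    noncomm_ring
  rw [← n1, ← n2]
  have s1 : (p0 * star w) * (p0 * star w) = 0 := by
    rw [mul_assoc, ← mul_assoc (star w), z4, zero_mul, mul_zero]
  have s2 : (p1 * w) * (p1 * w) = 0 := by
    rw [mul_assoc, ← mul_assoc w, z3, zero_mul, mul_zero]
  have b1 := hNM _ (by rw [← mul_assoc, ← q5, mul_assoc, q4]) (by rw [mul_assoc, q2]) s1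
  have b2 := hNM _ (by rw [← mul_assoc, ← q6, mul_assoc, q3]) (by rw [mul_assoc, q1]) s2
  have c1 : ∀ u ∈ F, N τ (cm (p0 * star w) u) + N τ (cm (p1 * w) u) ≤
      2 * (N (tr2 τ) (cm P (UU u)) + N (tr2 τ) (cm W (UU u))) := by
    intro u _
    have d1 := N_cm_mul_le hτ hp0n hwn' u
    have d2 := N_cm_mul_le hτ hp1n hwn u
    rw [N_cm_UU hτ, N_cm_UU hτ, hp01, hp10, hw00, hw11, hw', ← hp0, ← hp1, ← hw, rel_cm_zero,
      N_zero]
    linarith
  calc N τ (p0 * star w) + N τ (p1 * w)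
      ≤ κ * ∑ u ∈ F, (N τ (cm (p0 * star w) u) + N τ (cm (p1 * w) u)) := by
        rw [Finset.sum_add_distrib, mul_add]
        exact add_le_add b1 b2
    _ ≤ κ * ∑ u ∈ F, 2 * (N (tr2 τ) (cm P (UU u)) + N (tr2 τ) (cm W (UU u))) :=
        mul_le_mul_of_nonneg_left (Finset.sum_le_sum c1) hκ
    _ = _ := by
        rw [← Finset.mul_sum]
        ring

/-- As `absdiff` (copy its proof, with `nil_bound_q`). -/
theorem absdiff_q (hτ : IsTr τ) {q : A} (hq : IsPr q) {F : Finset A} {κ : ℝ} (hκ : 0 ≤ κ)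
    (hNM : NMq τ q F κ) {J : ℕ} (hJ : 3 ≤ J) :
    ADq τ q F (16 * (1 / 4 : ℝ) ^ J) (520 * κ * J) := by
  intro x hx hx'
  have hX : IsSelfAdjoint (XX x) := XX_selfAdjoint x
  obtain ⟨hY01, hY10⟩ := cfc_even x (f := fun s : ℝ => |s|) continuous_abs (fun s => abs_neg s)
  have hYs : IsSelfAdjoint (cfc (fun s : ℝ => |s|) (XX x)) := cfc_predicate _ _
  have hYY : cfc (fun s : ℝ => |s|) (XX x) * cfc (fun s : ℝ => |s|) (XX x) = XX x * XX x := by
    rw [← cfc_mul (fun s : ℝ => |s|) (fun s : ℝ => |s|) (XX x) continuous_abs.continuousOn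
      continuous_abs.continuousOn]
    have h1 : (fun s : ℝ => |s| * |s|) = fun s : ℝ => s ^ 2 := by
      funext s
      rw [abs_mul_abs_self, sq]
    rw [h1, cfc_pow_id (R := ℝ) (XX x) 2 hX, sq]
  rw [XX_mul_XX] at hYY
  refine ⟨ent (cfc (fun s : ℝ => |s|) (XX x)) 0 0, ent (cfc (fun s : ℝ => |s|) (XX x)) 1 1,
    ?_, ?_, ?_, ?_, ?_⟩
  · show star (ent (cfc (fun s : ℝ => |s|) (XX x)) 0 0) = _
    rw [← ent_star, hYs.star_eq]
  · show star (ent (cfc (fun s : ℝ => |s|) (XX x)) 1 1) = _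
    rw [← ent_star, hYs.star_eq]
  · have h1 := congrArg (fun M => ent M 0 0) hYY
    simp only [ent_mul, ent_mk2_00, hY01, zero_mul, add_zero] at h1
    exact h1
  · have h1 := congrArg (fun M => ent M 1 1) hYY
    simp only [ent_mul, ent_mk2_11, hY10, zero_mul, zero_add] at h1
    exact h1
  · rw [← N_cm_E01 hτ _ hY01 hY10]
    have hC : 0 ≤ N (tr2 τ) (E01 : M2 A) := N_nonneg (isTr_tr2 hτ) _
    have hS : 0 ≤ S τ F x :=
      Finset.sum_nonneg fun u _ => add_nonneg (N_nonneg hτ _) (N_nonneg hτ _)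
    refine le_of_forall_pos_le_add fun ε hε => ?_
    have hρ : 0 < ε / (N (tr2 τ) (E01 : M2 A) + 1) := div_pos hε (by linarith)
    have hη : ∀ j : ℕ, 0 < (1 / 2 : ℝ) ^ j := fun j => by positivity
    choose m hm1 hm2 using fun j : ℕ =>
      exists_grid (hη j) ‖XX x‖ (ε / (N (tr2 τ) (E01 : M2 A) + 1)) hρ
    -- the index set
    obtain ⟨I, hI⟩ : ∃ I : Finset (Σ _ : ℕ, ℤ),
        I = (Finset.Icc 3 J).sigma fun j => Finset.Icc (-(m j : ℤ)) (m j) := ⟨_, rfl⟩
    have hsum : ∀ φ : ℕ → ℤ → ℝ, ∑ i : {p // p ∈ I}, φ i.1.1 i.1.2 =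
        ∑ j ∈ Finset.Icc 3 J, ∑ n ∈ Finset.Icc (-(m j : ℤ)) (m j), φ j n := by
      intro φ
      rw [Finset.sum_coe_sort I (fun p => φ p.1 p.2), hI, Finset.sum_sigma]
    have h1 := transfer_abs (isTr_tr2 hτ) hX (E01 : M2 A)
      (ι := {p // p ∈ I}) (fun i => fG ((1 / 2 : ℝ) ^ i.1.1) i.1.2)
      (fun i => oG ((1 / 2 : ℝ) ^ i.1.1) i.1.2)
      (fun i => continuous_fG _ _) (fun i => continuous_oG _ _)
      (fun i => 130 * (1 / 4 : ℝ) ^ i.1.1 * (qq ((1 / 2 : ℝ) ^ i.1.1) i.1.2) ^ 2)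
      (16 * (1 / 4 : ℝ) ^ J) (ε / (N (tr2 τ) (E01 : M2 A) + 1))
      (by
        intro s r hs hr
        have h2 := detectM hJ m (fun j _ => hm2 j) (fun j _ => hs.trans (hm1 j))
          (fun j _ => hr.trans (hm1 j))
        rw [hsum (fun j n => 130 * (1 / 4 : ℝ) ^ j * (qq ((1 / 2 : ℝ) ^ j) n) ^ 2 *
          (fG ((1 / 2 : ℝ) ^ j) n s ^ 2 * oG ((1 / 2 : ℝ) ^ j) n r ^ 2
          + oG ((1 / 2 : ℝ) ^ j) n s ^ 2 * fG ((1 / 2 : ℝ) ^ j) n r ^ 2))]
        exact h2)
    have h2 : (tr2 τ (XX x * XX x * E01 * star E01)).re = N τ x := by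
      have h3 := tr2_E01 (τ := τ) (XX x * XX x) (1 : M2 A)
      rw [mul_one, ent_one_11, XX_mul_XX, ent_mk2_00, mul_one, hτ.comm] at h3
      rw [XX_mul_XX, h3]
      rfl
    have h3 : ε / (N (tr2 τ) (E01 : M2 A) + 1) * N (tr2 τ) (E01 : M2 A) ≤ ε := by
      rw [div_mul_eq_mul_div, div_le_iff₀ (by linarith)]
      nlinarith
    have hf : ∀ (j : ℕ) (u : A), ∑ n ∈ Finset.Icc (-(m j : ℤ)) (m j),
        (qq ((1 / 2 : ℝ) ^ j) n) ^ 2 *
          N (tr2 τ) (cm (cfc (fG ((1 / 2 : ℝ) ^ j) n) (XX x)) (UU u)) ≤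
          1 / ((1 / 2 : ℝ) ^ j) ^ 2 * N (tr2 τ) (cm (XX x) (UU u)) := by
      intro j u
      rw [← Finset.sum_coe_sort]
      refine comm_sum (isTr_tr2 hτ) hX (UU u)
        (ι := {n // n ∈ Finset.Icc (-(m j : ℤ)) (m j)}) (fun i => fG _ i)
        (fun i => continuous_fG _ i) (fun i => (qq _ i) ^ 2) _ ?_
      intro s r _ _
      have h4 := sum_fG_le (hη j) (Finset.Icc (-(m j : ℤ)) (m j)) s r
      rw [← Finset.sum_coe_sort] at h4
      rw [one_div_mul_eq_div]
      exact h4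
    have ho : ∀ (j : ℕ) (u : A), ∑ n ∈ Finset.Icc (-(m j : ℤ)) (m j),
        (qq ((1 / 2 : ℝ) ^ j) n) ^ 2 *
          N (tr2 τ) (cm (cfc (oG ((1 / 2 : ℝ) ^ j) n) (XX x)) (UU u)) ≤
          1 / ((1 / 2 : ℝ) ^ j) ^ 2 * N (tr2 τ) (cm (XX x) (UU u)) := by
      intro j u
      rw [← Finset.sum_coe_sort]
      refine comm_sum (isTr_tr2 hτ) hX (UU u)
        (ι := {n // n ∈ Finset.Icc (-(m j : ℤ)) (m j)}) (fun i => oG _ i)
        (fun i => continuous_oG _ i) (fun i => (qq _ i) ^ 2) _ ?_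
      intro s r _ _
      have h4 := sum_oG_le (hη j) (Finset.Icc (-(m j : ℤ)) (m j)) s r
      rw [← Finset.sum_coe_sort] at h4
      rw [one_div_mul_eq_div]
      exact h4
    have h4 : ∀ j : ℕ, ∑ n ∈ Finset.Icc (-(m j : ℤ)) (m j),
        130 * (1 / 4 : ℝ) ^ j * (qq ((1 / 2 : ℝ) ^ j) n) ^ 2 *
        ((tr2 τ (cfc (fun s => fG ((1 / 2 : ℝ) ^ j) n s ^ 2) (XX x) * E01 *
          cfc (fun s => oG ((1 / 2 : ℝ) ^ j) n s ^ 2) (XX x) * star E01)).re
        + (tr2 τ (cfc (fun s => oG ((1 / 2 : ℝ) ^ j) n s ^ 2) (XX x) * E01 *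
          cfc (fun s => fG ((1 / 2 : ℝ) ^ j) n s ^ 2) (XX x) * star E01)).re)
        ≤ 520 * κ * S τ F x := by
      intro j
      calc _ ≤ ∑ n ∈ Finset.Icc (-(m j : ℤ)) (m j),
            130 * (1 / 4 : ℝ) ^ j * (qq ((1 / 2 : ℝ) ^ j) n) ^ 2 *
            (2 * κ * ∑ u ∈ F, (N (tr2 τ) (cm (cfc (fG ((1 / 2 : ℝ) ^ j) n) (XX x)) (UU u))
              + N (tr2 τ) (cm (cfc (oG ((1 / 2 : ℝ) ^ j) n) (XX x)) (UU u)))) := by
            refine Finset.sum_le_sum fun n _ => mul_le_mul_of_nonneg_left ?_ (by positivity)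
            exact nil_bound_q hτ hq hκ hNM x hx hx' (continuous_fG _ n) (continuous_oG _ n)
              (fG_neg _ n)
              (oG_neg _ n) (fG_mul_oG (hη j) n) (abs_fG_le _ n) (abs_oG_le _ n)
        _ = 260 * (1 / 4 : ℝ) ^ j * κ * ∑ u ∈ F, (∑ n ∈ Finset.Icc (-(m j : ℤ)) (m j),
            (qq ((1 / 2 : ℝ) ^ j) n) ^ 2 *
              N (tr2 τ) (cm (cfc (fG ((1 / 2 : ℝ) ^ j) n) (XX x)) (UU u)) +
            ∑ n ∈ Finset.Icc (-(m j : ℤ)) (m j), (qq ((1 / 2 : ℝ) ^ j) n) ^ 2 *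
              N (tr2 τ) (cm (cfc (oG ((1 / 2 : ℝ) ^ j) n) (XX x)) (UU u))) := by
            simp only [← Finset.sum_add_distrib]
            rw [Finset.sum_comm, Finset.mul_sum]
            refine Finset.sum_congr rfl fun i _ => ?_
            simp only [Finset.mul_sum]
            refine Finset.sum_congr rfl fun u _ => ?_
            ring
        _ ≤ 260 * (1 / 4 : ℝ) ^ j * κ * ∑ u ∈ F,
            (1 / ((1 / 2 : ℝ) ^ j) ^ 2 * N (tr2 τ) (cm (XX x) (UU u)) +
            1 / ((1 / 2 : ℝ) ^ j) ^ 2 * N (tr2 τ) (cm (XX x) (UU u))) := by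
            refine mul_le_mul_of_nonneg_left ?_ (by positivity)
            exact Finset.sum_le_sum fun u _ => add_le_add (hf j u) (ho j u)
        _ = 520 * κ * S τ F x := by
            have h5 : (1 / 4 : ℝ) ^ j = ((1 / 2 : ℝ) ^ j) ^ 2 := by
              rw [← pow_mul, mul_comm, pow_mul]
              norm_num
            have h6 : ((1 / 2 : ℝ) ^ j) ^ 2 ≠ 0 := by positivity
            unfold S
            rw [h5, Finset.mul_sum, Finset.mul_sum]
            refine Finset.sum_congr rfl fun u _ => ?_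
            rw [N_cm_XX hτ]
            field_simp
            ring
    have h5 : ∑ j ∈ Finset.Icc 3 J, 520 * κ * S τ F x ≤ 520 * κ * J * S τ F x := by
      rw [Finset.sum_const, Nat.card_Icc, nsmul_eq_mul]
      have h6 : ((J + 1 - 3 : ℕ) : ℝ) ≤ J := by
        exact_mod_cast (by omega : J + 1 - 3 ≤ J)
      have h7 : 0 ≤ 520 * κ * S τ F x := by positivity
      calc ((J + 1 - 3 : ℕ) : ℝ) * (520 * κ * S τ F x) ≤ J * (520 * κ * S τ F x) :=
            mul_le_mul_of_nonneg_right h6 h7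
        _ = 520 * κ * J * S τ F x := by ring
    have h6 := hsum (fun j n => 130 * (1 / 4 : ℝ) ^ j * (qq ((1 / 2 : ℝ) ^ j) n) ^ 2 *
        ((tr2 τ (cfc (fun s => fG ((1 / 2 : ℝ) ^ j) n s ^ 2) (XX x) * E01 *
          cfc (fun s => oG ((1 / 2 : ℝ) ^ j) n s ^ 2) (XX x) * star E01)).re
        + (tr2 τ (cfc (fun s => oG ((1 / 2 : ℝ) ^ j) n s ^ 2) (XX x) * E01 *
          cfc (fun s => fG ((1 / 2 : ℝ) ^ j) n s ^ 2) (XX x) * star E01)).re))
    have h7 := Finset.sum_le_sum fun j (_ : j ∈ Finset.Icc 3 J) => h4 j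
    rw [h2, h6] at h1
    linarith

/-- As `fun_abs`. -/
theorem fun_abs_q (hτ : IsTr τ) {q : A} {F : Finset A} {α Λ : ℝ} (hAD : ADq τ q F α Λ)
    (φ : A →ₗ[ℂ] ℂ) (hφ : ∀ x y, ‖φ (x * y)‖ ^ 2 ≤ N τ x * N τ y) {η : ℝ} (hη : 0 < η)
    (x : A) (hx : q * x = x) (hx' : x * q = x) :
    ‖φ (star x * x - x * star x)‖ ≤ (η + α / η) * N τ x + Λ / η * S τ F x := by
  obtain ⟨g, h, hg, hh, hgg, hhh, hgh⟩ := hAD x hx hx'
  have hNg : N τ g = N τ x := by
    unfold N
    rw [hg.star_eq, hgg, hτ.comm]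
  have hNh : N τ h = N τ x := by
    unfold N
    rw [hh.star_eq, hhh]
  have hid : star x * x - x * star x =
      (1 / 2 : ℂ) • ((h - g) * (h + g) + (h + g) * (h - g)) := by
    rw [← hgg, ← hhh, sub_mul, mul_add, mul_add, add_mul, mul_sub, mul_sub]
    module
  have hN1 : 0 ≤ N τ (h - g) := N_nonneg hτ _
  have hN2 : 0 ≤ N τ (h + g) := N_nonneg hτ _
  have hNx : 0 ≤ N τ x := N_nonneg hτ _
  have h1 : ∀ a b : A, ‖φ (a * b)‖ ≤ Real.sqrt (N τ a) * Real.sqrt (N τ b) := by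
    intro a b
    rw [← Real.sqrt_mul (N_nonneg hτ a)]
    exact Real.le_sqrt_of_sq_le (hφ a b)
  have h2 : ‖φ (star x * x - x * star x)‖ ≤
      Real.sqrt (N τ (h - g)) * Real.sqrt (N τ (h + g)) := by
    rw [hid, map_smul, map_add, norm_smul]
    have h3 := h1 (h - g) (h + g)
    have h4 := h1 (h + g) (h - g)
    have h5 := norm_add_le (φ ((h - g) * (h + g))) (φ ((h + g) * (h - g)))
    have h6 : ‖(1 / 2 : ℂ)‖ = 1 / 2 := by norm_num
    rw [h6]
    rw [mul_comm (Real.sqrt (N τ (h + g)))] at h4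
    linarith
  have h3 : Real.sqrt (N τ (h + g)) ≤ 2 * Real.sqrt (N τ x) := by
    have h4 := sqrt_N_add_le hτ h g
    rw [hNg, hNh] at h4
    linarith
  have h4 : N τ (h - g) ≤ α * N τ x + Λ * S τ F x := by
    rw [← N_neg, neg_sub]
    exact hgh
  -- the inequality between the means
  have h5 : Real.sqrt (N τ (h - g)) * (2 * Real.sqrt (N τ x)) ≤
      η * N τ x + N τ (h - g) / η := by
    have h6 := Real.sq_sqrt hN1
    have h7 := Real.sq_sqrt hNx
    have h8 : 0 ≤ (η * Real.sqrt (N τ x) - Real.sqrt (N τ (h - g))) ^ 2 := sq_nonneg _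
    have h9 : η * (Real.sqrt (N τ (h - g)) * (2 * Real.sqrt (N τ x))) ≤
        η * (η * N τ x + N τ (h - g) / η) := by
      have h10 : η * (N τ (h - g) / η) = N τ (h - g) := by field_simp
      have h11 : η * (η * N τ x) = η ^ 2 * Real.sqrt (N τ x) ^ 2 := by
        rw [h7]
        ring
      rw [mul_add, h10, h11]
      nlinarith [h8, h6]
    exact le_of_mul_le_mul_left h9 hη
  have h6 : N τ (h - g) / η ≤ (α * N τ x + Λ * S τ F x) / η :=
    div_le_div_of_nonneg_right h4 hη.le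
  calc ‖φ (star x * x - x * star x)‖
      ≤ Real.sqrt (N τ (h - g)) * Real.sqrt (N τ (h + g)) := h2
    _ ≤ Real.sqrt (N τ (h - g)) * (2 * Real.sqrt (N τ x)) :=
      mul_le_mul_of_nonneg_left h3 (Real.sqrt_nonneg _)
    _ ≤ η * N τ x + N τ (h - g) / η := h5
    _ ≤ η * N τ x + (α * N τ x + Λ * S τ F x) / η := by linarith
    _ = (η + α / η) * N τ x + Λ / η * S τ F x := by ring

end Pool.McT
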