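import Pool.Agent.McT.W.Corner
import Pool.Agent.McT.W.Rel
import Pool.Agent.McT.W.DixB

/-! Failure of `NM` passes to a corner. -/

set_option autoImplicit false

namespace Pool.McT

variable {A : Type*} [CStarAlgebra A] {τ : A →ₗ[ℂ] ℂ}

/-- Suppose `NMq τ q G κ` holds, `κ ≥ 0`. Take `J = 7`: by `absdiff_q`, `fun_abs_q` with
`η = 2^(-7)` and `φ = τ (· z)`, `‖τ ((x* x - x x*) z)‖ ≤ 17/128 N x + C S x` for `x = q x q`.
Let `w`, `w * w = 0`, violate `NM τ F' κ'`, where `F'` contains `G`, `q`, the set of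
`near_trace` for `q₁ = 1`, `b = q`, `δ = 1/16`, and all adjoints, and `κ'` is large:
then all `N (cm w g)` and `N (cm (star w) g)` are at most `N w / κ'`. With `z` from
`exists_trunc_q`, `x = q w q`, `corner_close`, `S_corner_le`:
`N (w q) - 2 ρ ≤ 17/128 N w + small N w`, but `N (w q) = τ (w* w q) ≥ (1/2 - 1/16) N w - small`.
Let `ρ → 0`: contradiction. -/
theorem corner_not_NM (hF : Fac τ) (hno : ∀ (F : Finset A) (κ : ℝ), ¬ NM τ F κ) {q : A}
    (hq : IsPr q) (hq2 : 1 / 2 ≤ (τ q).re) {G : Finset A}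
    (hG : ∀ g ∈ G, q * g = g ∧ g * q = g) (κ : ℝ) : ¬ NMq τ q G κ := by
  classical
  intro h
  have hτ : IsTr τ := hF.tr
  obtain ⟨κ₀, hκ₀, hκκ⟩ : ∃ κ₀ : ℝ, 0 ≤ κ₀ ∧ κ ≤ κ₀ := ⟨max κ 0, le_max_right _ _, le_max_left _ _⟩
  have hNM : NMq τ q G κ₀ := by
    intro w h1 h2 h3
    exact (h w h1 h2 h3).trans (mul_le_mul_of_nonneg_right hκκ
      (Finset.sum_nonneg fun u _ => N_nonneg hτ _))
  have hAD := absdiff_q hτ hq hκ₀ hNM (J := 7) (by norm_num)
  obtain ⟨Λ, hΛ, hΛe⟩ : ∃ Λ : ℝ, 0 ≤ Λ ∧ Λ = 520 * κ₀ * (7 : ℕ) := ⟨_, by positivity, rfl⟩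
  rw [← hΛe] at hAD
  have h10 : (1 : A) ≠ 0 := by
    intro h0
    have h1 := hF.one
    rw [h0, map_zero] at h1
    exact zero_ne_one h1
  have hN1 : N τ (1 : A) = 1 := by
    unfold N
    rw [star_one, one_mul, hF.one, Complex.one_re]
  obtain ⟨G₁, C₁, hC₁, -, hG₁⟩ := near_trace hF (q := 1) (b := q) ⟨star_one A, one_mul 1⟩ h10
    hq.1 (one_mul q) (mul_one q) (δ := 1 / 16) (by norm_num)
  obtain ⟨M, hM⟩ : ∃ M : ℝ, M = C₁ * G₁.card + 256 * Λ * G.card + 4 := ⟨_, rfl⟩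
  have hM1 : 0 ≤ C₁ * (G₁.card : ℝ) := by positivity
  have hM2 : 0 ≤ 256 * Λ * (G.card : ℝ) := by positivity
  have hM4 : 4 ≤ M := by linarith
  have hM0 : 0 < M := by linarith
  obtain ⟨w, hww, hlt⟩ : ∃ w : A, w * w = 0 ∧
      (1024 * M) * ∑ u ∈ (insert q (G ∪ G₁)) ∪ (insert q (G ∪ G₁)).image star,
        N τ (cm w u) < N τ w := by
    have h1 := hno ((insert q (G ∪ G₁)) ∪ (insert q (G ∪ G₁)).image star) (1024 * M)
    unfold NM at h1
    push Not at h1
    exact h1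
  obtain ⟨W, hW⟩ : ∃ W : ℝ, W = N τ w := ⟨_, rfl⟩
  have hW0 : 0 < W := by
    rw [hW]
    refine lt_of_le_of_lt ?_ hlt
    exact mul_nonneg (by positivity) (Finset.sum_nonneg fun u _ => N_nonneg hτ _)
  obtain ⟨ε, hε⟩ : ∃ ε : ℝ, ε = W / (1024 * M) := ⟨_, rfl⟩
  have hεM : ε * M = W / 1024 := by
    rw [hε]
    field_simp
  have hε0 : 0 ≤ ε := by
    rw [hε]
    positivity
  have hε4 : ε ≤ W / 4096 := by nlinarith
  have hb : ∀ u ∈ (insert q (G ∪ G₁)) ∪ (insert q (G ∪ G₁)).image star,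
      N τ (cm w u) ≤ ε := by
    intro u hu
    have h1 := Finset.single_le_sum (f := fun u => N τ (cm w u))
      (fun i _ => N_nonneg hτ (cm w i)) hu
    have h2 : (1024 * M) * N τ (cm w u) ≤ (1024 * M) *
        ∑ u ∈ (insert q (G ∪ G₁)) ∪ (insert q (G ∪ G₁)).image star, N τ (cm w u) :=
      mul_le_mul_of_nonneg_left h1 (by positivity)
    rw [hε, le_div_iff₀ (by positivity), hW]
    linarith
  have hb1 : ∀ u ∈ insert q (G ∪ G₁), N τ (cm w u) ≤ ε := fun u hu =>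
    hb u (Finset.mem_union_left _ hu)
  have hb2 : ∀ u ∈ insert q (G ∪ G₁), N τ (cm (star w) u) ≤ ε := by
    intro u hu
    rw [N_cm_star hτ]
    exact hb _ (Finset.mem_union_right _ (Finset.mem_image_of_mem star hu))
  have hqm : q ∈ insert q (G ∪ G₁) := Finset.mem_insert_self _ _
  have hGm : ∀ g ∈ G, g ∈ insert q (G ∪ G₁) := fun g hg =>
    Finset.mem_insert_of_mem (Finset.mem_union_left _ hg)
  have hG₁m : ∀ g ∈ G₁, g ∈ insert q (G ∪ G₁) := fun g hg =>
    Finset.mem_insert_of_mem (Finset.mem_union_right _ hg)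
  -- the sums
  have hS : S τ G w ≤ G.card * (2 * ε) := by
    unfold S
    rw [← nsmul_eq_mul]
    refine Finset.sum_le_card_nsmul _ _ _ fun u hu => ?_
    have h1 := hb1 u (hGm u hu)
    have h2 := hb2 u (hGm u hu)
    linarith
  have hS₁ : ∑ g ∈ G₁, N τ (cm w g) ≤ G₁.card * ε := by
    rw [← nsmul_eq_mul]
    exact Finset.sum_le_card_nsmul _ _ _ fun u hu => hb1 u (hG₁m u hu)
  -- the near trace
  have hnear := hG₁ w (one_mul w) (mul_one w)
  rw [hF.one, Complex.one_re, div_one] at hnear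
  have hnear1 := (abs_le.1 hnear).1
  have hNwq : N τ (w * q) = (τ (star w * w * q)).re := by
    unfold N
    rw [star_mul, hq.1]
    have h1 : q * star w * (w * q) = q * (star w * w * q) := by noncomm_ring
    rw [h1, hτ.comm, mul_assoc, hq.2]
  have hlow : 7 / 16 * W - C₁ * (G₁.card * ε) ≤ N τ (w * q) := by
    rw [hNwq]
    have h1 : C₁ * ∑ g ∈ G₁, N τ (cm w g) ≤ C₁ * (G₁.card * ε) :=
      mul_le_mul_of_nonneg_left hS₁ hC₁
    have h2 : 1 / 2 * W ≤ (τ q).re * N τ w := by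
      rw [← hW]
      exact mul_le_mul_of_nonneg_right hq2 hW0.le
    rw [hW] at h2 ⊢
    linarith
  -- the truncation
  obtain ⟨z, hz, hzq⟩ := exists_trunc_q hτ hww (ρ := W / 64) (by positivity)
  have h1 := hzq q hq
  rw [hN1, mul_one] at h1
  have h2 := corner_close hτ (w := w) (z := z) hq hz
  have h3 := S_corner_le hτ hq hG w
  have hx1 : q * (q * w * q) = q * w * q := by
    rw [← mul_assoc, ← mul_assoc, hq.2]
  have hx2 : (q * w * q) * q = q * w * q := by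
    rw [mul_assoc, hq.2]
  have h4 := fun_abs_q hτ hAD (τ ∘ₗ LinearMap.mulRight ℂ z) (fun a b => by
    have e1 : (τ ∘ₗ LinearMap.mulRight ℂ z) (a * b) = τ (a * (b * z)) := by
      rw [LinearMap.comp_apply, LinearMap.mulRight_apply, mul_assoc]
    rw [e1]
    refine (tau_mul_sq_le hτ a (b * z)).trans (mul_le_mul_of_nonneg_left ?_ (N_nonneg hτ a))
    refine (N_mul_le_right hτ b z).trans ?_
    exact mul_le_of_le_one_left (N_nonneg hτ b) (pow_le_one₀ (norm_nonneg _) hz))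
    (η := 1 / 128) (by norm_num) (q * w * q) hx1 hx2
  rw [LinearMap.comp_apply, LinearMap.mulRight_apply] at h4
  have hqn : ‖q‖ ^ 2 ≤ 1 := by
    have e1 : ‖q‖ * ‖q‖ = ‖q‖ := by
      have := CStarRing.norm_star_mul_self (x := q)
      rw [hq.1, hq.2] at this
      exact this.symm
    have e2 := norm_nonneg q
    nlinarith
  have hNx : N τ (q * w * q) ≤ W := by
    have e1 := N_mul_le_right hτ (q * w) q
    have e2 := N_mul_le_left hτ q w
    have e3 := mul_le_of_le_one_left (N_nonneg hτ (q * w)) hqn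
    have e4 := mul_le_of_le_one_left (N_nonneg hτ w) hqn
    rw [hW]
    linarith
  have hα : (1 / 128 + 16 * (1 / 4 : ℝ) ^ 7 / (1 / 128)) = 17 / 128 := by norm_num
  rw [hα] at h4
  have h5 : Λ / (1 / 128) * S τ G (q * w * q) ≤ 256 * Λ * G.card * ε := by
    have e1 : Λ / (1 / 128) * S τ G (q * w * q) ≤ Λ / (1 / 128) * (G.card * (2 * ε)) :=
      mul_le_mul_of_nonneg_left (h3.trans hS) (by positivity)
    refine e1.trans (le_of_eq ?_)
    ring
  have h6 : |(τ ((star (q * w * q) * (q * w * q) - (q * w * q) * star (q * w * q)) * z)).re| ≤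
      17 / 128 * W + 256 * Λ * G.card * ε := by
    refine (Complex.abs_re_le_norm _).trans (h4.trans ?_)
    linarith
  have hs0 : 0 ≤ Real.sqrt W := Real.sqrt_nonneg _
  have hsq : Real.sqrt W * Real.sqrt W = W := Real.mul_self_sqrt hW0.le
  have hsε : ∀ t : ℝ, t ≤ ε → Real.sqrt t ≤ Real.sqrt W / 64 := by
    intro t ht
    refine Real.sqrt_le_iff.2 ⟨by positivity, ?_⟩
    have e1 : (Real.sqrt W / 64) ^ 2 = W / 4096 := by
      rw [div_pow, Real.sq_sqrt hW0.le]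
      norm_num
    rw [e1]
    exact ht.trans hε4
  have h7 := hsε _ (hb1 q hqm)
  have h8 := hsε _ (hb2 q hqm)
  have h9 : 2 * Real.sqrt (N τ w) *
      (Real.sqrt (N τ (cm w q)) + Real.sqrt (N τ (cm (star w) q))) ≤ W / 16 := by
    rw [← hW]
    have e1 : 2 * Real.sqrt W *
        (Real.sqrt (N τ (cm w q)) + Real.sqrt (N τ (cm (star w) q))) ≤
        2 * Real.sqrt W * (Real.sqrt W / 64 + Real.sqrt W / 64) :=
      mul_le_mul_of_nonneg_left (add_le_add h7 h8) (by positivity)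
    refine e1.trans (le_of_eq ?_)
    linear_combination (1 / 16 : ℝ) * hsq
  have h11 := hb1 q hqm
  have h12 := hb2 q hqm
  have h13 := (abs_le.1 h2).2
  have h14 := (abs_le.1 h6).1
  have h15 := N_nonneg hτ (q * w)
  have h16 : C₁ * (G₁.card * ε) + 256 * Λ * G.card * ε + 4 * ε = W / 1024 := by
    rw [← hεM, hM]
    ring
  linarith

end Pool.McT
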