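import Pool.Agent.McT.W.CompB

/-! Dixmier averaging in the corner of a projection `q`. -/

set_option autoImplicit false

namespace Pool.McT

open Filter Topology

variable {A : Type*} [CStarAlgebra A] {τ : A →ₗ[ℂ] ℂ}

/-- Unitaries of the corner `q A q`. -/
def IsCU (q u : A) : Prop := star u * u = q ∧ u * star u = q

private theorem Dix_zero {x : A} (h : star x * x = 0) : x = 0 :=
  CStarRing.star_mul_self_eq_zero_iff x |>.1 h

theorem IsCU.left {q u : A} (h : IsCU q u) (hq : IsPr q) : q * u = u := by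
  obtain ⟨h1, h2⟩ := h
  obtain ⟨h3, h4⟩ := hq
  have h5 : star (star (q * u - u)) * star (q * u - u) = 0 := by
    have e1 : star (star (q * u - u)) * star (q * u - u) =
        q * (u * star u) * star q - q * (u * star u) - (u * star u) * star q + u * star u := by
      rw [star_star, star_sub, star_mul]
      noncomm_ring
    rw [e1, h2, h3, h4, h4]
    abel
  have h6 := Dix_zero h5
  rw [star_eq_zero, sub_eq_zero] at h6
  exact h6

theorem IsCU.right {q u : A} (h : IsCU q u) (hq : IsPr q) : u * q = u := by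
  have h1 : IsCU q (star u) := ⟨by rw [star_star]; exact h.2, by rw [star_star]; exact h.1⟩
  have h2 := congrArg star (h1.left hq)
  rwa [star_mul, star_star, hq.1] at h2

private theorem Dix_smul [PartialOrder A] [StarOrderedRing A] {r : ℝ} (hr : 0 ≤ r) {y : A}
    (hy : 0 ≤ y) : 0 ≤ (r : ℂ) • y := by
  rw [Complex.coe_smul]
  exact smul_nonneg hr hy

private theorem Dix_pr [PartialOrder A] [StarOrderedRing A] {e : A} (he : IsPr e) : 0 ≤ e := by
  have h := star_mul_self_nonneg e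
  rwa [he.1, he.2] at h

private theorem Dix_pr_sub {q e : A} (hq : IsPr q) (he : IsPr e) (h1 : e * q = e) :
    IsPr (q - e) ∧ q * e = e ∧ e * (q - e) = 0 := by
  have h2 : q * e = e := by
    have h := congrArg star h1
    rwa [star_mul, he.1, hq.1] at h
  refine ⟨⟨by rw [star_sub, hq.1, he.1], ?_⟩, h2, by rw [mul_sub, h1, he.2, sub_self]⟩
  rw [mul_sub, sub_mul, sub_mul, hq.2, h1, h2, he.2]
  abel

private theorem Dix_norm [PartialOrder A] [StarOrderedRing A] {z : A} {R : ℝ}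
    (hz : IsSelfAdjoint z) (hR : 0 ≤ R) (h1 : 0 ≤ (R : ℂ) • (1 : A) - z)
    (h2 : 0 ≤ z + (R : ℂ) • (1 : A)) : ‖z‖ ≤ R := by
  have e1 : (R : ℂ) • (1 : A) = algebraMap ℝ A R := by
    rw [Complex.coe_smul, Algebra.algebraMap_eq_smul_one]
  rw [e1] at h1 h2
  have h3 : z ≤ algebraMap ℝ A R := sub_nonneg.1 h1
  have h4 : algebraMap ℝ A (-R) ≤ z := by
    rw [map_neg, neg_le_iff_add_nonneg]
    exact h2
  rw [le_algebraMap_iff_spectrum_le (a := z) (ha := hz)] at h3
  rw [algebraMap_le_iff_le_spectrum (a := z) (ha := hz)] at h4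
  have h5 := norm_cfc_le (𝕜 := ℝ) (f := id) (a := z) hR fun x hx => by
    rw [id, Real.norm_eq_abs, abs_le]
    exact ⟨h4 x hx, h3 x hx⟩
  rwa [cfc_id ℝ z] at h5

private theorem Dix_bd [PartialOrder A] [StarOrderedRing A] {x : A} (hx : IsSelfAdjoint x)
    {r : ℝ} (hr : ‖x‖ ≤ r) : 0 ≤ (r : ℂ) • (1 : A) - x := by
  have h1 : x ≤ algebraMap ℝ A ‖x‖ := hx.le_algebraMap_norm_self
  have h2 : algebraMap ℝ A ‖x‖ ≤ algebraMap ℝ A r := algebraMap_mono A hr
  rw [Complex.coe_smul, ← Algebra.algebraMap_eq_smul_one]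
  exact sub_nonneg.2 (h1.trans h2)

/-- `x ≤ r e` if `x` is negative on `q - e` -/
private theorem Dix_le [PartialOrder A] [StarOrderedRing A] {q x e : A} (he : IsPr e)
    (hxq : x * q = x) (hxe : x * e = e * x) (hx : IsSelfAdjoint x) {r : ℝ} (hr : ‖x‖ ≤ r)
    (h0 : 0 ≤ -(x * (q - e))) : 0 ≤ (r : ℂ) • e - x := by
  have h1 := star_left_conjugate_nonneg (Dix_bd hx hr) e
  have h2 : star e * ((r : ℂ) • (1 : A) - x) * e = (r : ℂ) • e - x * e := by
    rw [he.1, mul_sub, sub_mul, mul_smul_comm, mul_one, smul_mul_assoc, he.2, ← hxe, mul_assoc,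
      he.2]
  have h3 : (r : ℂ) • e - x = ((r : ℂ) • e - x * e) + -(x * (q - e)) := by
    rw [mul_sub, hxq]
    abel
  rw [h3, ← h2]
  exact add_nonneg h1 h0

private theorem Dix_core [PartialOrder A] [StarOrderedRing A] (hF : Fac τ) {q x e : A}
    (hq : IsPr q) (hx : IsSelfAdjoint x) (hqx : q * x = x) (hxq : x * q = x) (he : IsPr e)
    (heq : e * q = e) {r : ℝ} (hr : ‖x‖ ≤ r) (hxe : 0 ≤ (r : ℂ) • e - x)
    (hN : N τ e ≤ N τ (q - e)) :
    ∃ u : A, IsCU q u ∧
      ‖((1 : ℂ) / 2) • (x + u * x * star u) + ((r / 4 : ℝ) : ℂ) • q‖ ≤ 3 / 4 * r := by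
  have hr0 : 0 ≤ r := (norm_nonneg x).trans hr
  obtain ⟨he', hqe, hee⟩ := Dix_pr_sub hq he heq
  obtain ⟨w, hw, hwe, hew⟩ := comparison hF he he' hN
  obtain ⟨v, hv⟩ : ∃ v, v = star w := ⟨_, rfl⟩
  have hsv : star v = w := by rw [hv, star_star]
  rw [← hv] at hwe
  have hww : w * v * w = w := by
    rw [hv]
    exact hw
  have ewz : e * w = 0 := by
    rw [← hew, ← mul_assoc, hee, zero_mul]
  have qw : q * w = w := by
    have h := hew
    rw [sub_mul, ewz, sub_zero] at h
    exact h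
  have we : w * e = w := by rw [← hwe, ← mul_assoc, hww]
  have wq : w * q = w := by rw [← we, mul_assoc, heq]
  have ww : w * w = 0 := by
    calc w * w = (w * e) * w := by rw [we]
      _ = 0 := by rw [mul_assoc, ewz, mul_zero]
  have vq : v * q = v := by
    have h := congrArg star qw
    rwa [star_mul, hq.1, ← hv] at h
  have qv : q * v = v := by
    have h := congrArg star wq
    rwa [star_mul, hq.1, ← hv] at h
  have ve : v * e = 0 := by
    have h := congrArg star ewz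
    rwa [star_mul, he.1, ← hv, star_zero] at h
  have ev : e * v = v := by
    have h := congrArg star we
    rwa [star_mul, he.1, ← hv] at h
  have vv : v * v = 0 := by
    have h := congrArg star ww
    rwa [star_mul, ← hv, star_zero] at h
  obtain ⟨p, hp⟩ : ∃ p, p = w * v := ⟨_, rfl⟩
  have pw : p * w = w := by rw [hp, hww]
  have wp : w * p = 0 := by rw [hp, ← mul_assoc, ww, zero_mul]
  have pv : p * v = 0 := by rw [hp, mul_assoc, vv, mul_zero]
  have vp : v * p = v := by rw [hp, ← mul_assoc, hwe, ev]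
  have ep : e * p = 0 := by rw [hp, ← mul_assoc, ewz, zero_mul]
  have pe : p * e = 0 := by rw [hp, mul_assoc, ve, mul_zero]
  have qp : q * p = p := by rw [hp, ← mul_assoc, qw]
  have pq : p * q = p := by rw [hp, mul_assoc, vq]
  have pp : p * p = p := by
    nth_rewrite 2 [hp]
    rw [← mul_assoc, pw, ← hp]
  have sp : star p = p := by rw [hp, star_mul, hsv, ← hv]
  obtain ⟨s, hs⟩ : ∃ s, s = q - e - p := ⟨_, rfl⟩
  have ss : star s = s := by rw [hs, star_sub, star_sub, hq.1, he.1, sp]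
  have sw : s * w = 0 := by rw [hs, sub_mul, sub_mul, qw, ewz, pw, sub_zero, sub_self]
  have ws : w * s = 0 := by rw [hs, mul_sub, mul_sub, wq, we, wp, sub_self, sub_zero]
  have sv : s * v = 0 := by rw [hs, sub_mul, sub_mul, qv, ev, pv, sub_self, sub_zero]
  have vs : v * s = 0 := by rw [hs, mul_sub, mul_sub, vq, ve, vp, sub_zero, sub_self]
  have se : s * e = 0 := by rw [hs, sub_mul, sub_mul, hqe, he.2, pe, sub_self, sub_zero]
  have sq : s * q = s := by rw [hs, sub_mul, sub_mul, hq.2, heq, pq]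
  have s2 : s * s = s := by
    nth_rewrite 2 [hs]
    have sp' : s * p = 0 := by rw [hp, ← mul_assoc, sw, zero_mul]
    rw [mul_sub, mul_sub, sq, se, sp', sub_zero, sub_zero]
  have hs0 : 0 ≤ s := Dix_pr ⟨ss, s2⟩
  obtain ⟨u, hu⟩ : ∃ u, u = w + v + s := ⟨_, rfl⟩
  have su : star u = u := by
    rw [hu, star_add, star_add, ← hv, hsv, ss]
    abel
  have uu : u * u = q := by
    have h : u * u = w * w + w * v + w * s + (v * w + v * v + v * s) +
        (s * w + s * v + s * s) := by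
      rw [hu]
      noncomm_ring
    rw [h, ww, ws, hwe, vv, vs, sw, sv, s2, ← hp, hs]
    abel
  have ue : u * e = w := by
    rw [hu, add_mul, add_mul, we, ve, se, add_zero, add_zero]
  have uq : u * q = u := by
    rw [hu, add_mul, add_mul, wq, vq, sq]
  have wu : w * u = p := by
    rw [hu, mul_add, mul_add, ww, ws, ← hp, zero_add, add_zero]
  refine ⟨u, ⟨by rw [su, uu], by rw [su, uu]⟩, ?_⟩
  rw [su]
  have k1 : 0 ≤ u * ((r : ℂ) • e - x) * u := by
    have h := star_right_conjugate_nonneg hxe u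
    rwa [su] at h
  have k1' : u * ((r : ℂ) • e - x) * u = (r : ℂ) • p - u * x * u := by
    rw [mul_sub, sub_mul, mul_smul_comm, smul_mul_assoc, ue, wu]
  have hrx : 0 ≤ (r : ℂ) • q + x := by
    have h := star_right_conjugate_nonneg (Dix_bd hx.neg (r := r) (by rwa [norm_neg])) q
    rw [hq.1, sub_neg_eq_add, mul_add, add_mul, mul_smul_comm, smul_mul_assoc, mul_one, hq.2,
      hqx, hxq] at h
    exact h
  have k2 : 0 ≤ u * ((r : ℂ) • q + x) * u := by
    have h := star_right_conjugate_nonneg hrx u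
    rwa [su] at h
  have k2' : u * ((r : ℂ) • q + x) * u = (r : ℂ) • q + u * x * u := by
    rw [mul_add, add_mul, mul_smul_comm, smul_mul_assoc, uq, uu]
  rw [k1'] at k1
  rw [k2'] at k2
  have hq1 : 0 ≤ (1 : A) - q := by
    refine Dix_pr ⟨by rw [star_sub, star_one, hq.1], ?_⟩
    rw [mul_sub, sub_mul, sub_mul, hq.2]
    simp
  obtain ⟨y, hy⟩ : ∃ y, y = u * x * u := ⟨_, rfl⟩
  rw [← hy] at k1 k2 ⊢
  have hysa : IsSelfAdjoint y := by
    rw [hy]
    have h := hx.conjugate u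
    rwa [su] at h
  have hR : 0 ≤ 3 / 4 * r := by positivity
  refine Dix_norm ?_ hR ?_ ?_
  · refine IsSelfAdjoint.add ?_ ?_
    · have h := (hx.add hysa)
      have h2 : star ((1 : ℂ) / 2) = (1 : ℂ) / 2 := by simp
      rw [IsSelfAdjoint, star_smul, h2, h.star_eq]
    · rw [IsSelfAdjoint, star_smul, hq.1]
      congr 1
      exact Complex.conj_ofReal _
  · have h := add_nonneg (Dix_smul hR hq1) (Dix_smul (r := 1 / 2) (by norm_num)
      (add_nonneg (add_nonneg hxe k1) (Dix_smul hr0 hs0)))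
    have h2 : ((3 / 4 * r : ℝ) : ℂ) • (1 - q) + ((1 / 2 : ℝ) : ℂ) • (((r : ℂ) • e - x) +
        ((r : ℂ) • p - y) + (r : ℂ) • s) = ((3 / 4 * r : ℝ) : ℂ) • (1 : A) -
        (((1 : ℂ) / 2) • (x + y) + ((r / 4 : ℝ) : ℂ) • q) := by
      rw [hs]
      push_cast
      module
    rwa [h2] at h
  · have h := add_nonneg (Dix_smul hR hq1) (Dix_smul (r := 1 / 2) (by norm_num)
      (add_nonneg hrx k2))
    have h2 : ((3 / 4 * r : ℝ) : ℂ) • (1 - q) + ((1 / 2 : ℝ) : ℂ) • (((r : ℂ) • q + x) +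
        ((r : ℂ) • q + y)) = (((1 : ℂ) / 2) • (x + y) + ((r / 4 : ℝ) : ℂ) • q) +
        ((3 / 4 * r : ℝ) : ℂ) • (1 : A) := by
      push_cast
      module
    rwa [h2] at h

/-- Let `e` be the spectral projection of `b` for `(c, ∞)` times `q`, `e' = q - e`. If
`N e ≤ N e'` let `w` be a partial isometry with `w* w = e`, `w w* ≤ e'` (`comparison`),
`u = w + w* + (q - w* w - w w*)`, a self adjoint unitary of the corner. Then
`c - r ≤ 1/2 (b + u b u) ≤ c + r / 2` in the corner, as `b ≤ c q + r e` there, so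
`c' = c - r / 4`. If `N e' ≤ N e` the same for `- b`. -/
theorem dix_step (hF : Fac τ) {q b : A} (hq : IsPr q) (hb : IsSelfAdjoint b) (h1 : q * b = b)
    (h2 : b * q = b) {c r : ℝ} (hr : ‖b - (c : ℂ) • q‖ ≤ r) :
    ∃ (u : A) (c' : ℝ), IsCU q u ∧
      ‖((1 : ℂ) / 2) • (b + u * b * star u) - (c' : ℂ) • q‖ ≤ 3 / 4 * r := by
  let _ := CStarAlgebra.spectralOrder A
  have _ := CStarAlgebra.spectralOrderedRing A
  obtain ⟨e₀, he₀⟩ := exists_spec hF.toWT hb c
  have hqe : q * e₀ = e₀ * q := by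
    refine he₀.comm hF.toWT hb ?_ ?_
    · rw [h1, h2]
    · rw [hq.1, h1, h2]
  have hp0 := he₀.1
  have hbe : b * e₀ = e₀ * b := he₀.comm hF.toWT hb rfl (by rw [hb.star_eq])
  have he : IsPr (e₀ * q) := by
    refine ⟨by rw [star_mul, hq.1, hp0.1, hqe], ?_⟩
    rw [mul_assoc, ← mul_assoc q, hqe, mul_assoc e₀ q q, hq.2, ← mul_assoc, hp0.2]
  have heq : e₀ * q * q = e₀ * q := by rw [mul_assoc, hq.2]
  obtain ⟨f, hf⟩ : ∃ f, f = cfc (fun s => max 0 (s - c)) b := ⟨_, rfl⟩
  obtain ⟨g, hg⟩ : ∃ g, g = cfc (fun s => max 0 (c - s)) b := ⟨_, rfl⟩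
  have hf0 : 0 ≤ f := by
    rw [hf]
    exact cfc_nonneg fun s _ => le_max_left _ _
  have hg0 : 0 ≤ g := by
    rw [hg]
    exact cfc_nonneg fun s _ => le_max_left _ _
  have hfe := he₀.mul_eq hF.toWT hb
  have hge := he₀.mul_one_sub_eq hF.toWT hb
  rw [← hf] at hfe
  rw [← hg] at hge
  have hf' : f = b * e₀ - (c : ℂ) • e₀ := by rw [hfe, add_sub_cancel_left]
  have hg' : g = (c : ℂ) • (1 - e₀) - b * (1 - e₀) := by rw [hge, sub_sub_cancel]
  have hqf : q * f = f * q := by
    rw [hf', mul_sub, sub_mul, ← mul_assoc, h1, mul_smul_comm, smul_mul_assoc, hqe, mul_assoc b,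
      ← hqe, ← mul_assoc b, h2]
  have hqg : q * g = g * q := by
    have h3 : q * (1 - e₀) = (1 - e₀) * q := by rw [mul_sub, sub_mul, mul_one, one_mul, hqe]
    rw [hg', mul_sub, sub_mul, ← mul_assoc, h1, mul_smul_comm, smul_mul_assoc, h3, mul_assoc b,
      ← h3, ← mul_assoc b, h2]
  have hfq : 0 ≤ f * q := by
    have h := star_left_conjugate_nonneg hf0 q
    rwa [hq.1, hqf, mul_assoc, hq.2] at h
  have hgq : 0 ≤ g * q := by
    have h := star_left_conjugate_nonneg hg0 q
    rwa [hq.1, hqg, mul_assoc, hq.2] at h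
  obtain ⟨x, hx⟩ : ∃ x, x = b - (c : ℂ) • q := ⟨_, rfl⟩
  rw [← hx] at hr
  have hxsa : IsSelfAdjoint x := by
    rw [IsSelfAdjoint, hx, star_sub, star_smul, hb.star_eq, hq.1]
    congr 2
    exact Complex.conj_ofReal c
  have hqx : q * x = x := by rw [hx, mul_sub, h1, mul_smul_comm, hq.2]
  have hxq : x * q = x := by rw [hx, sub_mul, h2, smul_mul_assoc, hq.2]
  have hxe0 : x * e₀ = e₀ * x := by
    rw [hx, sub_mul, mul_sub, hbe, smul_mul_assoc, mul_smul_comm, hqe]
  have hcomm : x * (e₀ * q) = (e₀ * q) * x := by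
    rw [← mul_assoc, hxe0, mul_assoc, hxq, mul_assoc, hqx]
  have hxf : x * (e₀ * q) = f * q := by
    have h3 : q * (e₀ * q) = e₀ * q := by rw [← mul_assoc, hqe, mul_assoc, hq.2]
    rw [hx, hf', sub_mul, sub_mul, smul_mul_assoc, smul_mul_assoc, h3, mul_assoc]
  have hxg : x * (q - e₀ * q) = -(g * q) := by
    have h3 : x * q = b * q - (c : ℂ) • q := by rw [hx, sub_mul, smul_mul_assoc, hq.2]
    rw [mul_sub, hxf, h3, hf', hg', mul_sub, mul_one, smul_sub, sub_mul, sub_mul, sub_mul,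
      sub_mul, smul_mul_assoc, smul_mul_assoc, one_mul]
    abel
  obtain ⟨he', hqe', hee'⟩ := Dix_pr_sub hq he heq
  rcases le_total (N τ (e₀ * q)) (N τ (q - e₀ * q)) with hN | hN
  · obtain ⟨u, hu, hn⟩ := Dix_core hF hq hxsa hqx hxq he heq hr
      (Dix_le he hxq hcomm hxsa hr (by rw [hxg, neg_neg]; exact hgq)) hN
    refine ⟨u, c - r / 4, hu, ?_⟩
    have h3 : u * b * star u = u * x * star u + (c : ℂ) • q := by
      rw [hx, mul_sub, sub_mul, mul_smul_comm, smul_mul_assoc, hu.right hq, hu.2]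
      abel
    have h4 : ((1 : ℂ) / 2) • (b + u * b * star u) - ((c - r / 4 : ℝ) : ℂ) • q =
        ((1 : ℂ) / 2) • (x + u * x * star u) + ((r / 4 : ℝ) : ℂ) • q := by
      rw [h3, hx]
      generalize u * (b - (c : ℂ) • q) * star u = y
      push_cast
      module
    rw [h4]
    exact hn
  · have heq' : (q - e₀ * q) * q = q - e₀ * q := by rw [sub_mul, hq.2, heq]
    have hcomm' : -x * (q - e₀ * q) = (q - e₀ * q) * -x := by
      rw [neg_mul, mul_neg, mul_sub, sub_mul, hcomm, hxq, hqx]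
    have hss : q - (q - e₀ * q) = e₀ * q := sub_sub_cancel _ _
    have hr' : ‖-x‖ ≤ r := by rwa [norm_neg]
    have hxq' : -x * q = -x := by rw [neg_mul, hxq]
    have hqx' : q * -x = -x := by rw [mul_neg, hqx]
    obtain ⟨u, hu, hn⟩ := Dix_core hF hq hxsa.neg hqx' hxq' he' heq' hr'
      (Dix_le he' hxq' hcomm' hxsa.neg hr' (by
        rw [hss, neg_mul, neg_neg, hxf]
        exact hfq)) (by rw [hss]; exact hN)
    refine ⟨u, c + r / 4, hu, ?_⟩
    have h3 : u * b * star u = (c : ℂ) • q - u * (-x) * star u := by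
      rw [hx, neg_sub, mul_sub, sub_mul, mul_smul_comm, smul_mul_assoc, hu.right hq, hu.2]
      abel
    have h4 : ((1 : ℂ) / 2) • (b + u * b * star u) - ((c + r / 4 : ℝ) : ℂ) • q =
        -(((1 : ℂ) / 2) • (-x + u * -x * star u) + ((r / 4 : ℝ) : ℂ) • q) := by
      rw [h3]
      generalize u * (-x) * star u = y
      rw [hx]
      push_cast
      module
    rw [h4, norm_neg]
    exact hn

end Pool.McT
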