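import Pool.Agent.McT.AbsDiff
import Pool.Agent.McT.Fun
import Pool.Agent.McT.W.Crit

/-! A finite factor is not McDuff if and only if almost central vectors commute in `L¹`. -/

set_option autoImplicit false

namespace Pool.McT

open Filter Topology

variable {A : Type*} [CStarAlgebra A] {τ : A →ₗ[ℂ] ℂ}

/-- For every `δ` there are `F`, `C` with `‖[x, y]‖₁ ≤ δ (N x + N y) + C (S x + S y)` for all
`x, y` (the 1-norm is the supremum over contractions `z`). -/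
def CommLOne (τ : A →ₗ[ℂ] ℂ) : Prop :=
  ∀ δ : ℝ, 0 < δ → ∃ (F : Finset A) (C : ℝ), 0 ≤ C ∧ ∀ x y z : A, ‖z‖ ≤ 1 →
    ‖τ ((x * y - y * x) * z)‖ ≤ δ * (N τ x + N τ y) + C * (S τ F x + S τ F y)

private theorem lOne_S_star (τ : A →ₗ[ℂ] ℂ) (F : Finset A) (x : A) :
    S τ F (star x) = S τ F x := by
  unfold S
  refine Finset.sum_congr rfl fun u _ => ?_
  rw [star_star, add_comm]

/-- `exists_NM`, `absdiff` with `34 * 2^(-J) ≤ δ`, `fun_comm` for `x`, `star y`,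
`φ = τ (· z)`, `η = 2^(-J)` (`2 (η + 16 η² / η) = 34 η`, `C = 2 * 520 κ J / η`), `N_star`,
`S τ F (star y) = S τ F y`. -/
theorem commLOne_of_not_mcduff (hF : Fac τ) (hs : Sep τ) (hM : ¬ McDuff τ) : CommLOne τ := by
  intro δ hδ
  obtain ⟨F, κ, hκ, hNM⟩ := exists_NM hF hs hM
  obtain ⟨n, hn⟩ := exists_pow_lt_of_lt_one (show (0 : ℝ) < δ / 34 by positivity)
    (show (1 / 2 : ℝ) < 1 by norm_num)
  obtain ⟨J, hJ⟩ : ∃ J : ℕ, J = max 3 n := ⟨_, rfl⟩
  have hJ3 : 3 ≤ J := by rw [hJ]; exact le_max_left _ _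
  have hJn : n ≤ J := by rw [hJ]; exact le_max_right _ _
  have hη0 : (0 : ℝ) < (1 / 2 : ℝ) ^ J := by positivity
  have hη1 : (1 / 2 : ℝ) ^ J ≤ δ / 34 :=
    (pow_le_pow_of_le_one (by norm_num) (by norm_num) hJn).trans hn.le
  have hAD := absdiff hF.tr hκ hNM hJ3
  refine ⟨F, 2 * (520 * κ * J / (1 / 2 : ℝ) ^ J), by positivity, fun x y z hz => ?_⟩
  have hφ : ∀ a b : A, ‖(τ ∘ₗ LinearMap.mulRight ℂ z) (a * b)‖ ^ 2 ≤ N τ a * N τ b := by
    intro a b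
    have h1 : (τ ∘ₗ LinearMap.mulRight ℂ z) (a * b) = τ (a * (b * z)) := by
      rw [LinearMap.comp_apply, LinearMap.mulRight_apply, mul_assoc]
    rw [h1]
    refine (tau_mul_sq_le hF.tr a (b * z)).trans ?_
    refine mul_le_mul_of_nonneg_left ?_ (N_nonneg hF.tr a)
    refine (N_mul_le_right hF.tr b z).trans ?_
    exact mul_le_of_le_one_left (N_nonneg hF.tr b) (pow_le_one₀ (norm_nonneg _) hz)
  have h1 := fun_comm hF.tr (by positivity) (by positivity) hAD (τ ∘ₗ LinearMap.mulRight ℂ z)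
    hφ hη0 y (star x)
  rw [star_star, N_star hF.tr, lOne_S_star τ, LinearMap.comp_apply,
    LinearMap.mulRight_apply] at h1
  have h2 : 2 * ((1 / 2 : ℝ) ^ J + 16 * (1 / 4 : ℝ) ^ J / (1 / 2 : ℝ) ^ J) ≤ δ := by
    have h3 : (1 / 4 : ℝ) ^ J = (1 / 2 : ℝ) ^ J * (1 / 2 : ℝ) ^ J := by
      rw [← mul_pow]
      norm_num
    rw [h3, mul_div_assoc, mul_div_assoc, div_self hη0.ne', mul_one]
    linarith
  have h4 : 0 ≤ N τ y + N τ x := add_nonneg (N_nonneg hF.tr y) (N_nonneg hF.tr x)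
  have h5 := mul_le_mul_of_nonneg_right h2 h4
  calc ‖τ ((x * y - y * x) * z)‖
      ≤ 2 * ((1 / 2 : ℝ) ^ J + 16 * (1 / 4 : ℝ) ^ J / (1 / 2 : ℝ) ^ J) * (N τ y + N τ x) +
        2 * (520 * κ * J / (1 / 2 : ℝ) ^ J) * (S τ F y + S τ F x) := h1
    _ ≤ δ * (N τ y + N τ x) +
        2 * (520 * κ * J / (1 / 2 : ℝ) ^ J) * (S τ F y + S τ F x) := by linarith
    _ = δ * (N τ x + N τ y) +
        2 * (520 * κ * J / (1 / 2 : ℝ) ^ J) * (S τ F x + S τ F y) := by ring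

private theorem lOne_S_tendsto (hτ : IsTr τ) (F : Finset A) {x : ℕ → A} (hx : CentralSeq τ x) :
    Tendsto (fun n => S τ F (x n)) atTop (𝓝 0) := by
  have h1 : Tendsto (fun n => ∑ u ∈ F, (N τ (cm (x n) u) + N τ (cm (star (x n)) u))) atTop
      (𝓝 (∑ u ∈ F, ((0 : ℝ) + 0))) := by
    refine tendsto_finsetSum _ fun u _ => ?_
    refine (hx.2 u).add ?_
    have h2 : (fun n => N τ (cm (star (x n)) u)) = fun n => N τ (cm (x n) (star u)) :=
      funext fun n => N_cm_star hτ (x n) u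
    rw [h2]
    exact hx.2 (star u)
  rw [add_zero, Finset.sum_const_zero] at h1
  exact h1

/-- Central sequences `x`, `y` bounded by `K`: `z = (2 K² + 1)⁻¹ [x n, y n]*` gives
`N [x n, y n] ≤ (2 K² + 1) (2 K² δ + small)`. -/
theorem not_mcduff_of_commLOne (hF : Fac τ) (h : CommLOne τ) : ¬ McDuff τ := by
  rintro ⟨x, y, hx, hy, hn⟩
  apply hn
  obtain ⟨K₁, hK₁⟩ := hx.1
  obtain ⟨K₂, hK₂⟩ := hy.1
  obtain ⟨K, hK⟩ : ∃ K : ℝ, K = max K₁ K₂ := ⟨_, rfl⟩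
  have hKx : ∀ n, ‖x n‖ ≤ K := fun n => (hK₁ n).trans (by rw [hK]; exact le_max_left _ _)
  have hKy : ∀ n, ‖y n‖ ≤ K := fun n => (hK₂ n).trans (by rw [hK]; exact le_max_right _ _)
  have hK0 : 0 ≤ K := (norm_nonneg _).trans (hKx 0)
  have hn1 : N τ (1 : A) = 1 := by
    unfold N
    rw [star_one, one_mul, hF.one, Complex.one_re]
  have hN : ∀ w : A, ‖w‖ ≤ K → N τ w ≤ K ^ 2 := by
    intro w hw
    have h1 := N_mul_le_left hF.tr w 1
    rw [mul_one, hn1, mul_one] at h1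
    exact h1.trans (pow_le_pow_left₀ (norm_nonneg _) hw 2)
  obtain ⟨B, hB⟩ : ∃ B : ℝ, B = 2 * K ^ 2 + 1 := ⟨_, rfl⟩
  have hB1 : 1 ≤ B := by
    rw [hB]
    nlinarith [sq_nonneg K]
  have hB0 : 0 < B := by linarith
  have key : ∀ (δ : ℝ) (F : Finset A) (C : ℝ), 0 < δ → 0 ≤ C → (∀ a b z : A, ‖z‖ ≤ 1 →
      ‖τ ((a * b - b * a) * z)‖ ≤ δ * (N τ a + N τ b) + C * (S τ F a + S τ F b)) → ∀ n,
      N τ (cm (x n) (y n)) ≤ B * (δ * (2 * K ^ 2) + C * (S τ F (x n) + S τ F (y n))) := by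
    intro δ F C hδ hC hb n
    have hc : ‖cm (x n) (y n)‖ ≤ B := by
      unfold cm
      refine (norm_sub_le _ _).trans ?_
      have h1 : ‖x n * y n‖ ≤ K * K :=
        (norm_mul_le _ _).trans (mul_le_mul (hKx n) (hKy n) (norm_nonneg _) hK0)
      have h2 : ‖y n * x n‖ ≤ K * K :=
        (norm_mul_le _ _).trans (mul_le_mul (hKy n) (hKx n) (norm_nonneg _) hK0)
      rw [hB]
      nlinarith
    have hz : ‖((B⁻¹ : ℝ) : ℂ) • star (cm (x n) (y n))‖ ≤ 1 := by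
      rw [norm_smul, Complex.norm_real, Real.norm_eq_abs, abs_of_pos (inv_pos.2 hB0), norm_star,
        inv_mul_le_iff₀ hB0, mul_one]
      exact hc
    have h1 := hb (x n) (y n) _ hz
    have h2 : τ ((x n * y n - y n * x n) * (((B⁻¹ : ℝ) : ℂ) • star (cm (x n) (y n)))) =
        ((B⁻¹ : ℝ) : ℂ) * τ (cm (x n) (y n) * star (cm (x n) (y n))) := by
      rw [mul_smul_comm, map_smul, smul_eq_mul]
      rfl
    have h3 : N τ (cm (x n) (y n)) = (τ (cm (x n) (y n) * star (cm (x n) (y n)))).re := by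
      rw [← N_star hF.tr]
      unfold N
      rw [star_star]
    have h4 : B⁻¹ * N τ (cm (x n) (y n)) ≤
        ‖τ ((x n * y n - y n * x n) * (((B⁻¹ : ℝ) : ℂ) • star (cm (x n) (y n))))‖ := by
      rw [h2, norm_mul, Complex.norm_real, Real.norm_eq_abs, abs_of_pos (inv_pos.2 hB0), h3]
      exact mul_le_mul_of_nonneg_left (Complex.re_le_norm _) (inv_pos.2 hB0).le
    have h5 := h4.trans h1
    rw [inv_mul_le_iff₀ hB0] at h5
    refine h5.trans (mul_le_mul_of_nonneg_left ?_ hB0.le)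
    have h6 := hN _ (hKx n)
    have h7 := hN _ (hKy n)
    have h8 : δ * (N τ (x n) + N τ (y n)) ≤ δ * (2 * K ^ 2) :=
      mul_le_mul_of_nonneg_left (by linarith) hδ.le
    linarith
  rw [Metric.tendsto_atTop]
  intro ε hε
  obtain ⟨F, C, hC, hb⟩ := h (ε / (2 * B ^ 2)) (by positivity)
  have hS : Tendsto (fun n => B * (C * (S τ F (x n) + S τ F (y n)))) atTop (𝓝 0) := by
    have h1 := ((lOne_S_tendsto hF.tr F hx).add (lOne_S_tendsto hF.tr F hy)).const_mul (B * C)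
    simpa [mul_assoc] using h1
  rw [Metric.tendsto_atTop] at hS
  obtain ⟨n₀, hn₀⟩ := hS (ε / 2) (by positivity)
  refine ⟨n₀, fun n hn' => ?_⟩
  have h1 := key _ F C (by positivity) hC hb n
  have h2 := hn₀ n hn'
  rw [Real.dist_eq, sub_zero] at h2 ⊢
  rw [abs_of_nonneg (N_nonneg hF.tr _)]
  have h3 := (abs_lt.1 h2).2
  have h4 : B * (ε / (2 * B ^ 2) * (2 * K ^ 2)) ≤ ε / 2 := by
    have h5 : 2 * K ^ 2 ≤ B := by rw [hB]; linarith
    calc B * (ε / (2 * B ^ 2) * (2 * K ^ 2)) ≤ B * (ε / (2 * B ^ 2) * B) :=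
          mul_le_mul_of_nonneg_left (mul_le_mul_of_nonneg_left h5 (by positivity)) hB0.le
      _ = ε / 2 := by
          field_simp
  calc N τ (cm (x n) (y n)) ≤ B * (ε / (2 * B ^ 2) * (2 * K ^ 2)) +
        B * (C * (S τ F (x n) + S τ F (y n))) := by
        rw [← mul_add]
        exact h1
    _ < ε := by linarith

theorem not_mcduff_iff (hF : Fac τ) (hs : Sep τ) : ¬ McDuff τ ↔ CommLOne τ :=
  ⟨commLOne_of_not_mcduff hF hs, not_mcduff_of_commLOne hF⟩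

end Pool.McT
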