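import Pool.Agent.McT.W.Defs

/-! Calculus of 2-norm limits. -/

set_option autoImplicit false

namespace Pool.McT

open Filter Topology

variable {A : Type*} [CStarAlgebra A] {τ : A →ₗ[ℂ] ℂ}

private theorem sub_le_mcw (hW : WT τ) (a b : A) :
    N τ (a - b) ≤ 2 * N τ a + 2 * N τ b := by
  have h := N_add_le hW.tr a (-b)
  rwa [N_neg, ← sub_eq_add_neg] at h

private theorem symm_mcw (a b : A) : N τ (a - b) = N τ (b - a) := by
  rw [← N_neg (τ := τ) (a - b), neg_sub]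

private theorem squeeze_mcw (hW : WT τ) {f : ℕ → A} {g : ℕ → ℝ}
    (hg : Tendsto g atTop (𝓝 0)) (h : ∀ n, N τ (f n) ≤ g n) :
    Tendsto (fun n => N τ (f n)) atTop (𝓝 0) :=
  squeeze_zero (fun n => N_nonneg hW.tr (f n)) h hg

private theorem N_one_mcw (hW : WT τ) : N τ (1 : A) = 1 := by
  unfold N
  rw [star_one, one_mul, hW.one, Complex.one_re]

private theorem smul_mcw (c : ℂ) {x : ℕ → A} {y : A} (h : Lim2 τ x y) :
    Lim2 τ (fun n => c • x n) (c • y) := by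
  have h1 : Tendsto (fun n => N τ (x n - y)) atTop (𝓝 0) := h
  have h2 : Tendsto (fun n => ‖c‖ ^ 2 * N τ (x n - y)) atTop (𝓝 (‖c‖ ^ 2 * 0)) :=
    h1.const_mul _
  rw [mul_zero] at h2
  have h3 : (fun n => N τ (c • x n - c • y)) = fun n => ‖c‖ ^ 2 * N τ (x n - y) := by
    funext n
    rw [← smul_sub, N_smul]
  show Tendsto (fun n => N τ (c • x n - c • y)) atTop (𝓝 0)
  rw [h3]
  exact h2

private theorem unique_mcw (hW : WT τ) {x : ℕ → A} {y y' : A} (h : Lim2 τ x y)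
    (h' : Lim2 τ x y') : y = y' := by
  have g : Tendsto (fun n => N τ (x n - y)) atTop (𝓝 0) := h
  have g' : Tendsto (fun n => N τ (x n - y')) atTop (𝓝 0) := h'
  have h1 : Tendsto (fun n => 2 * N τ (x n - y') + 2 * N τ (x n - y)) atTop
      (𝓝 (2 * 0 + 2 * 0)) := (g'.const_mul 2).add (g.const_mul 2)
  have h2 : N τ (y - y') ≤ 2 * 0 + 2 * 0 := by
    refine ge_of_tendsto h1 (Eventually.of_forall fun n => ?_)
    have e : y - y' = (x n - y') - (x n - y) := by abel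
    rw [e]
    exact sub_le_mcw hW _ _
  have h3 : N τ (y - y') = 0 := le_antisymm (by linarith) (N_nonneg hW.tr _)
  exact sub_eq_zero.1 (hW.faithful _ h3)

private theorem const_mcw (y : A) : Lim2 τ (fun _ => y) y := by
  show Tendsto (fun _ : ℕ => N τ (y - y)) atTop (𝓝 0)
  rw [sub_self, N_zero]
  exact tendsto_const_nhds

private theorem add_mcw (hW : WT τ) {x x' : ℕ → A} {y y' : A} (h : Lim2 τ x y)
    (h' : Lim2 τ x' y') : Lim2 τ (fun n => x n + x' n) (y + y') := by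
  have g : Tendsto (fun n => N τ (x n - y)) atTop (𝓝 0) := h
  have g' : Tendsto (fun n => N τ (x' n - y')) atTop (𝓝 0) := h'
  have h1 : Tendsto (fun n => 2 * N τ (x n - y) + 2 * N τ (x' n - y')) atTop
      (𝓝 (2 * 0 + 2 * 0)) := (g.const_mul 2).add (g'.const_mul 2)
  rw [mul_zero, add_zero] at h1
  refine squeeze_mcw hW h1 fun n => ?_
  have e : x n + x' n - (y + y') = (x n - y) + (x' n - y') := by abel
  rw [e]
  exact N_add_le hW.tr _ _

private theorem sub_mcw (hW : WT τ) {x x' : ℕ → A} {y y' : A} (h : Lim2 τ x y)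
    (h' : Lim2 τ x' y') : Lim2 τ (fun n => x n - x' n) (y - y') := by
  have g : Tendsto (fun n => N τ (x n - y)) atTop (𝓝 0) := h
  have g' : Tendsto (fun n => N τ (x' n - y')) atTop (𝓝 0) := h'
  have h1 : Tendsto (fun n => 2 * N τ (x n - y) + 2 * N τ (x' n - y')) atTop
      (𝓝 (2 * 0 + 2 * 0)) := (g.const_mul 2).add (g'.const_mul 2)
  rw [mul_zero, add_zero] at h1
  refine squeeze_mcw hW h1 fun n => ?_
  have e : x n - x' n - (y - y') = (x n - y) - (x' n - y') := by abel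
  rw [e]
  exact sub_le_mcw hW _ _

private theorem star_mcw (hW : WT τ) {x : ℕ → A} {y : A} (h : Lim2 τ x y) :
    Lim2 τ (fun n => star (x n)) (star y) := by
  have g : Tendsto (fun n => N τ (x n - y)) atTop (𝓝 0) := h
  refine squeeze_mcw hW g fun n => ?_
  have e : star (x n) - star y = star (x n - y) := (star_sub _ _).symm
  rw [e, N_star hW.tr]

private theorem mul_mcw (hW : WT τ) {C : ℝ} {x x' : ℕ → A} {y y' : A} (h : Lim2 τ x y)
    (h' : Lim2 τ x' y') (hC : ∀ n, ‖x n‖ ≤ C) :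
    Lim2 τ (fun n => x n * x' n) (y * y') := by
  have g : Tendsto (fun n => N τ (x n - y)) atTop (𝓝 0) := h
  have g' : Tendsto (fun n => N τ (x' n - y')) atTop (𝓝 0) := h'
  have h1 : Tendsto (fun n => 2 * (C ^ 2 * N τ (x' n - y')) +
      2 * (‖y'‖ ^ 2 * N τ (x n - y))) atTop (𝓝 (2 * (C ^ 2 * 0) + 2 * (‖y'‖ ^ 2 * 0))) :=
    ((g'.const_mul _).const_mul 2).add ((g.const_mul _).const_mul 2)
  have e0 : 2 * (C ^ 2 * 0) + 2 * (‖y'‖ ^ 2 * 0) = (0 : ℝ) := by ring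
  rw [e0] at h1
  refine squeeze_mcw hW h1 fun n => ?_
  have e : x n * x' n - y * y' = x n * (x' n - y') + (x n - y) * y' := by noncomm_ring
  rw [e]
  have h2 := N_add_le hW.tr (x n * (x' n - y')) ((x n - y) * y')
  have h3 := N_mul_le_left hW.tr (x n) (x' n - y')
  have h4 := N_mul_le_right hW.tr (x n - y) y'
  have h5 : ‖x n‖ ^ 2 * N τ (x' n - y') ≤ C ^ 2 * N τ (x' n - y') :=
    mul_le_mul_of_nonneg_right (pow_le_pow_left₀ (norm_nonneg _) (hC n) 2)
      (N_nonneg hW.tr _)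
  linarith

private theorem exists_mcw (hW : WT τ) {C : ℝ} {x : ℕ → A} (hC : ∀ n, ‖x n‖ ≤ C)
    (hc : ∀ ε : ℝ, 0 < ε → ∃ n₀ : ℕ, ∀ m n : ℕ, n₀ ≤ m → n₀ ≤ n → N τ (x m - x n) ≤ ε) :
    ∃ y : A, ‖y‖ ≤ C ∧ Lim2 τ x y := by
  have hC0 : 0 ≤ C := (norm_nonneg _).trans (hC 0)
  rcases hC0.eq_or_lt with h0 | h0
  · have hx : x = fun _ => 0 := by
      funext n
      have h1 : ‖x n‖ ≤ 0 := by rw [h0]; exact hC n
      exact norm_le_zero_iff.1 h1
    refine ⟨0, by rw [norm_zero]; exact hC0, ?_⟩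
    rw [hx]
    exact const_mcw 0
  · have hn : ‖((C⁻¹ : ℝ) : ℂ)‖ = C⁻¹ := by
      rw [Complex.norm_real, Real.norm_of_nonneg (inv_nonneg.2 hC0)]
    have hn' : ‖((C : ℝ) : ℂ)‖ = C := by
      rw [Complex.norm_real, Real.norm_of_nonneg hC0]
    obtain ⟨y, hy, hl⟩ := hW.complete (fun n => ((C⁻¹ : ℝ) : ℂ) • x n) (fun n => by
        rw [norm_smul, hn]
        have h1 := mul_le_mul_of_nonneg_left (hC n) (inv_nonneg.2 hC0)
        rwa [inv_mul_cancel₀ h0.ne'] at h1) (fun ε hε => by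
        obtain ⟨n₀, h1⟩ := hc (C ^ 2 * ε) (by positivity)
        refine ⟨n₀, fun m n hm hn₁ => ?_⟩
        have h2 := h1 m n hm hn₁
        rw [← smul_sub, N_smul, hn]
        have h3 : C⁻¹ ^ 2 * N τ (x m - x n) ≤ C⁻¹ ^ 2 * (C ^ 2 * ε) :=
          mul_le_mul_of_nonneg_left h2 (by positivity)
        have h4 : C⁻¹ ^ 2 * (C ^ 2 * ε) = ε := by
          field_simp
        rwa [h4] at h3)
    refine ⟨((C : ℝ) : ℂ) • y, ?_, ?_⟩
    · rw [norm_smul, hn']
      exact mul_le_of_le_one_right hC0 hy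
    · have h5 := smul_mcw ((C : ℝ) : ℂ) hl
      have h6 : (fun n => ((C : ℝ) : ℂ) • ((C⁻¹ : ℝ) : ℂ) • x n) = x := by
        funext n
        rw [smul_smul, ← Complex.ofReal_mul, mul_inv_cancel₀ h0.ne', Complex.ofReal_one,
          one_smul]
      rwa [h6] at h5

private theorem norm_mcw (hW : WT τ) {C : ℝ} {x : ℕ → A} {y : A} (h : Lim2 τ x y)
    (hC : ∀ n, ‖x n‖ ≤ C) : ‖y‖ ≤ C := by
  have g : Tendsto (fun n => N τ (x n - y)) atTop (𝓝 0) := h
  obtain ⟨z, hz, hl⟩ := exists_mcw hW hC (fun ε hε => by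
    have h1 : ∀ᶠ n in atTop, N τ (x n - y) < ε / 4 :=
      g.eventually (gt_mem_nhds (by positivity))
    obtain ⟨n₀, h2⟩ := eventually_atTop.1 h1
    refine ⟨n₀, fun m n hm hn => ?_⟩
    have h3 := h2 m hm
    have h4 := h2 n hn
    have e : x m - x n = (x m - y) - (x n - y) := by abel
    rw [e]
    have h5 := sub_le_mcw hW (x m - y) (x n - y)
    linarith)
  rw [unique_mcw hW h hl]
  exact hz

private theorem tau_mcw (hW : WT τ) {x : ℕ → A} {y : A} (h : Lim2 τ x y) :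
    Tendsto (fun n => τ (x n)) atTop (𝓝 (τ y)) := by
  have g : Tendsto (fun n => N τ (x n - y)) atTop (𝓝 0) := h
  rw [tendsto_iff_norm_sub_tendsto_zero]
  have h1 : Tendsto (fun n => Real.sqrt (N τ (x n - y))) atTop (𝓝 (Real.sqrt 0)) :=
    (Real.continuous_sqrt.tendsto 0).comp g
  rw [Real.sqrt_zero] at h1
  refine squeeze_zero (fun n => norm_nonneg _) (fun n => ?_) h1
  have h2 := tau_mul_sq_le hW.tr 1 (x n - y)
  rw [one_mul, N_one_mcw hW, one_mul, map_sub] at h2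
  exact Real.le_sqrt_of_sq_le h2

private theorem N_mcw (hW : WT τ) {x : ℕ → A} {y : A} (h : Lim2 τ x y) :
    Tendsto (fun n => N τ (x n)) atTop (𝓝 (N τ y)) := by
  have g : Tendsto (fun n => N τ (x n - y)) atTop (𝓝 0) := h
  have h1 : Tendsto (fun n => Real.sqrt (N τ (x n - y))) atTop (𝓝 (Real.sqrt 0)) :=
    (Real.continuous_sqrt.tendsto 0).comp g
  rw [Real.sqrt_zero] at h1
  have h2 : Tendsto (fun n => Real.sqrt (N τ (x n))) atTop (𝓝 (Real.sqrt (N τ y))) := by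
    rw [tendsto_iff_norm_sub_tendsto_zero]
    refine squeeze_zero (fun n => norm_nonneg _) (fun n => ?_) h1
    rw [Real.norm_eq_abs, abs_le]
    have h3 := sqrt_N_add_le hW.tr (x n) (-(x n - y))
    have h4 := sqrt_N_add_le hW.tr (x n - y) y
    rw [sub_add_cancel] at h4
    have e : x n + -(x n - y) = y := by abel
    rw [e, N_neg] at h3
    constructor <;> linarith
  have h5 := h2.pow 2
  rw [Real.sq_sqrt (N_nonneg hW.tr y)] at h5
  have h6 : (fun n => Real.sqrt (N τ (x n)) ^ 2) = fun n => N τ (x n) := by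
    funext n
    exact Real.sq_sqrt (N_nonneg hW.tr (x n))
  rwa [h6] at h5

theorem Lim2.unique (hW : WT τ) {x : ℕ → A} {y y' : A} (h : Lim2 τ x y) (h' : Lim2 τ x y') :
    y = y' := unique_mcw hW h h'

theorem Lim2.const (y : A) : Lim2 τ (fun _ => y) y := const_mcw y

theorem Lim2.add (hW : WT τ) {x x' : ℕ → A} {y y' : A} (h : Lim2 τ x y) (h' : Lim2 τ x' y') :
    Lim2 τ (fun n => x n + x' n) (y + y') := add_mcw hW h h'

theorem Lim2.sub (hW : WT τ) {x x' : ℕ → A} {y y' : A} (h : Lim2 τ x y) (h' : Lim2 τ x' y') :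
    Lim2 τ (fun n => x n - x' n) (y - y') := sub_mcw hW h h'

theorem Lim2.star (hW : WT τ) {x : ℕ → A} {y : A} (h : Lim2 τ x y) :
    Lim2 τ (fun n => star (x n)) (star y) := star_mcw hW h

theorem Lim2.mul_left (hW : WT τ) (c : A) {x : ℕ → A} {y : A} (h : Lim2 τ x y) :
    Lim2 τ (fun n => c * x n) (c * y) :=
  mul_mcw hW (const_mcw c) h (fun _ => le_refl ‖c‖)

theorem Lim2.mul_right (hW : WT τ) (c : A) {x : ℕ → A} {y : A} (h : Lim2 τ x y) :
    Lim2 τ (fun n => x n * c) (y * c) := by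
  have g : Tendsto (fun n => N τ (x n - y)) atTop (𝓝 0) := h
  have h1 : Tendsto (fun n => ‖c‖ ^ 2 * N τ (x n - y)) atTop (𝓝 (‖c‖ ^ 2 * 0)) :=
    g.const_mul _
  rw [mul_zero] at h1
  refine squeeze_mcw hW h1 fun n => ?_
  have e : x n * c - y * c = (x n - y) * c := (sub_mul _ _ _).symm
  rw [e]
  exact N_mul_le_right hW.tr _ _

/-- The norm bound passes to the limit: `WT.complete` (after scaling) and uniqueness. -/
theorem Lim2.norm_le (hW : WT τ) {C : ℝ} {x : ℕ → A} {y : A} (h : Lim2 τ x y)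
    (hC : ∀ n, ‖x n‖ ≤ C) : ‖y‖ ≤ C := norm_mcw hW h hC

/-- `x x' - y y' = x (x' - y') + (x - y) y'`. -/
theorem Lim2.mul (hW : WT τ) {C : ℝ} {x x' : ℕ → A} {y y' : A} (h : Lim2 τ x y)
    (h' : Lim2 τ x' y') (hC : ∀ n, ‖x n‖ ≤ C) :
    Lim2 τ (fun n => x n * x' n) (y * y') := mul_mcw hW h h' hC

theorem Lim2.tendsto_tau (hW : WT τ) {x : ℕ → A} {y : A} (h : Lim2 τ x y) :
    Tendsto (fun n => τ (x n)) atTop (𝓝 (τ y)) := tau_mcw hW h

theorem Lim2.tendsto_N (hW : WT τ) {x : ℕ → A} {y : A} (h : Lim2 τ x y) :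
    Tendsto (fun n => N τ (x n)) atTop (𝓝 (N τ y)) := N_mcw hW h

/-- Norm convergence implies 2-norm convergence. -/
theorem lim2_of_norm (hW : WT τ) {x : ℕ → A} {y : A}
    (h : Tendsto (fun n => ‖x n - y‖) atTop (𝓝 0)) : Lim2 τ x y := by
  have h1 := h.pow 2
  have e0 : (0 : ℝ) ^ 2 = 0 := by norm_num
  rw [e0] at h1
  refine squeeze_mcw hW h1 fun n => ?_
  have h2 := N_mul_le_left hW.tr (x n - y) 1
  rwa [mul_one, N_one_mcw hW, mul_one] at h2

/-- A bounded 2-norm Cauchy sequence converges. -/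
theorem exists_lim2 (hW : WT τ) {C : ℝ} {x : ℕ → A} (hC : ∀ n, ‖x n‖ ≤ C)
    (hc : ∀ ε : ℝ, 0 < ε → ∃ n₀ : ℕ, ∀ m n : ℕ, n₀ ≤ m → n₀ ≤ n → N τ (x m - x n) ≤ ε) :
    ∃ y : A, ‖y‖ ≤ C ∧ Lim2 τ x y := exists_mcw hW hC hc

/-- If `0 ≤ N (x m - x n) ≤ |f m - f n|` for a bounded monotone sequence of reals then the
sequence converges. -/
theorem exists_lim2_mono (hW : WT τ) {C K : ℝ} {x : ℕ → A} (hC : ∀ n, ‖x n‖ ≤ C) (f : ℕ → ℝ)
    (hf : Monotone f) (hK : ∀ n, f n ≤ K) (h : ∀ m n, m ≤ n → N τ (x n - x m) ≤ f n - f m) :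
    ∃ y : A, ‖y‖ ≤ C ∧ Lim2 τ x y := by
  refine exists_mcw hW hC fun ε hε => ?_
  have hb : BddAbove (Set.range f) := ⟨K, by rintro _ ⟨n, rfl⟩; exact hK n⟩
  obtain ⟨n₀, hn₀⟩ := exists_lt_of_lt_ciSup (show (⨆ n, f n) - ε < ⨆ n, f n by linarith)
  refine ⟨n₀, ?_⟩
  have key : ∀ m n : ℕ, n₀ ≤ m → m ≤ n → N τ (x n - x m) ≤ ε := by
    intro m n hm hmn
    have h1 := h m n hmn
    have h2 := hf hm
    have h3 := le_ciSup hb n
    linarith
  intro m n hm hn
  rcases le_total m n with hmn | hmn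
  · rw [symm_mcw]
    exact key m n hm hmn
  · exact key n m hn hmn

/-- Projections have `N e = (τ e).re`. -/
theorem IsPr.N_eq {e : A} (he : IsPr e) : N τ e = (τ e).re := by
  unfold N
  rw [he.1, he.2]

theorem IsPr.norm_le {e : A} (he : IsPr e) : ‖e‖ ≤ 1 := by
  have h1 : ‖star e * e‖ = ‖e‖ * ‖e‖ := CStarRing.norm_star_mul_self
  rw [he.1, he.2] at h1
  by_contra hlt
  rw [not_le] at hlt
  nlinarith

private theorem right_mcw {u : A} (hu : IsPI u) : IsPr (star u * u) := by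
  refine ⟨by rw [star_mul, star_star], ?_⟩
  have h1 : u * star u * u = u := hu
  calc star u * u * (star u * u) = star u * (u * star u * u) := by noncomm_ring
    _ = star u * u := by rw [h1]

theorem IsPI.norm_le {u : A} (hu : IsPI u) : ‖u‖ ≤ 1 := by
  have h1 : ‖star u * u‖ = ‖u‖ * ‖u‖ := CStarRing.norm_star_mul_self
  have h2 := (right_mcw hu).norm_le
  rw [h1] at h2
  by_contra hlt
  rw [not_le] at hlt
  nlinarith

theorem IsPI.isPr_right {u : A} (hu : IsPI u) : IsPr (star u * u) := right_mcw hu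

theorem IsPI.isPr_left {u : A} (hu : IsPI u) : IsPr (u * star u) := by
  refine ⟨by rw [star_mul, star_star], ?_⟩
  have h1 : u * star u * u = u := hu
  calc u * star u * (u * star u) = (u * star u * u) * star u := by noncomm_ring
    _ = u * star u := by rw [h1]

end Pool.McT
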