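import Pool.Agent.McT.W.PI

/-! In a factor any two nonzero projections are linked. -/

set_option autoImplicit false

namespace Pool.McT

open Filter Topology

variable {A : Type*} [CStarAlgebra A] {τ : A →ₗ[ℂ] ℂ}

/-- Finite averages `1/n ∑ u_i e u_i*` over unitaries. -/
def Avg (e k : A) : Prop :=
  ∃ (n : ℕ) (u : Fin n → A), 0 < n ∧ (∀ i, u i ∈ unitary A) ∧
    k = ((1 : ℂ) / n) • ∑ i, u i * e * star (u i)

theorem Avg.norm_le {e k : A} (he : IsPr e) (h : Avg e k) : ‖k‖ ≤ 1 := by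
  obtain ⟨n, u, hn, hu, rfl⟩ := h
  have hn' : (0 : ℝ) < n := Nat.cast_pos.2 hn
  have h1 : ∀ i, ‖u i * e * star (u i)‖ ≤ 1 := by
    intro i
    rw [CStarRing.norm_mul_mem_unitary _ (Unitary.star_mem (hu i)),
      CStarRing.norm_mem_unitary_mul _ (hu i)]
    exact he.norm_le
  have h2 : ‖∑ i, u i * e * star (u i)‖ ≤ n := by
    refine (norm_sum_le _ _).trans ?_
    refine (Finset.sum_le_sum fun i _ => h1 i).trans ?_
    simp
  rw [norm_smul, norm_div, norm_one, Complex.norm_natCast, div_mul_eq_mul_div, one_mul,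
    div_le_one hn']
  exact h2

theorem Avg.tau_eq (hW : WT τ) {e k : A} (h : Avg e k) : τ k = τ e := by
  obtain ⟨n, u, hn, hu, rfl⟩ := h
  have hn' : (n : ℂ) ≠ 0 := Nat.cast_ne_zero.2 hn.ne'
  have h1 : ∀ i, τ (u i * e * star (u i)) = τ e := by
    intro i
    rw [hW.tr.comm, ← mul_assoc, Unitary.star_mul_self_of_mem (hu i), one_mul]
  rw [map_smul, map_sum, Finset.sum_congr rfl fun i _ => h1 i, Finset.sum_const,
    Finset.card_univ, Fintype.card_fin, smul_eq_mul, nsmul_eq_mul, ← mul_assoc,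
    one_div_mul_cancel hn', one_mul]

theorem Avg.conj {e k v : A} (hv : v ∈ unitary A) (h : Avg e k) : Avg e (v * k * star v) := by
  obtain ⟨n, u, hn, hu, rfl⟩ := h
  refine ⟨n, fun i => v * u i, hn, fun i => mul_mem hv (hu i), ?_⟩
  rw [mul_smul_comm, smul_mul_assoc, Finset.mul_sum, Finset.sum_mul]
  congr 1
  refine Finset.sum_congr rfl fun i _ => ?_
  rw [star_mul]
  simp only [mul_assoc]

private theorem linkAvg_of_fintype {ι : Type*} [Fintype ι] [Nonempty ι] {e : A} (u : ι → A)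
    (hu : ∀ i, u i ∈ unitary A) :
    Avg e (((1 : ℂ) / Fintype.card ι) • ∑ i, u i * e * star (u i)) := by
  refine ⟨Fintype.card ι, fun i => u ((Fintype.equivFin ι).symm i), Fintype.card_pos,
    fun i => hu _, ?_⟩
  congr 1
  exact (Equiv.sum_comp (Fintype.equivFin ι).symm fun i => u i * e * star (u i)).symm

/-- The mean of two averages is an average (families of size `2 n n'`). -/
theorem Avg.mid {e k k' : A} (h : Avg e k) (h' : Avg e k') :
    Avg e (((1 : ℂ) / 2) • (k + k')) := by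
  obtain ⟨n, u, hn, hu, rfl⟩ := h
  obtain ⟨m, v, hm, hv, rfl⟩ := h'
  have hn' : (n : ℂ) ≠ 0 := Nat.cast_ne_zero.2 hn.ne'
  have hm' : (m : ℂ) ≠ 0 := Nat.cast_ne_zero.2 hm.ne'
  have : Nonempty (Fin n) := ⟨⟨0, hn⟩⟩
  have : Nonempty (Fin m) := ⟨⟨0, hm⟩⟩
  have key := linkAvg_of_fintype (e := e)
    (Sum.elim (fun p : Fin n × Fin m => u p.1) (fun p : Fin n × Fin m => v p.2))
    (by
      rintro (p | p)
      · exact hu _
      · exact hv _)
  convert key using 1
  rw [Fintype.sum_sum_type]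
  simp only [Sum.elim_inl, Sum.elim_inr, Fintype.card_sum, Fintype.card_prod, Fintype.card_fin]
  rw [Fintype.sum_prod_type, Fintype.sum_prod_type]
  simp only [Finset.sum_const, Finset.card_univ, Fintype.card_fin]
  rw [← Finset.smul_sum, ← Nat.cast_smul_eq_nsmul ℂ, ← Nat.cast_smul_eq_nsmul ℂ, smul_add,
    smul_add, smul_smul, smul_smul, smul_smul, smul_smul]
  congr 2
  · push_cast
    field_simp
    norm_num
  · push_cast
    field_simp
    norm_num

private theorem link_N_conj (hW : WT τ) {v : A} (hv : v ∈ unitary A) (x : A) :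
    N τ (v * x * star v) = N τ x := by
  unfold N
  have h1 : star (v * x * star v) * (v * x * star v) =
      v * (star x * (star v * v) * x * star v) := by
    rw [star_mul, star_mul, star_star]
    simp only [mul_assoc]
  rw [h1, Unitary.star_mul_self_of_mem hv, mul_one, hW.tr.comm, mul_assoc (star x * x),
    Unitary.star_mul_self_of_mem hv, mul_one]

private theorem link_N_diff {e k k' : A} {I : ℝ}
    (hI : ∀ x : A, Avg e x → I ≤ N τ x) (h : Avg e k) (h' : Avg e k') :
    N τ (k - k') ≤ 2 * (N τ k - I) + 2 * (N τ k' - I) := by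
  have h1 := N_par (τ := τ) k k'
  have h2 := hI _ (h.mid h')
  rw [N_smul] at h2
  have h3 : ‖(1 : ℂ) / 2‖ ^ 2 = 1 / 4 := by
    rw [norm_div, norm_one]
    norm_num
  rw [h3] at h2
  linarith

private theorem link_central {y : A} (hy : ∀ v ∈ unitary A, v * y * star v = y) (a : A) :
    y * a = a * y := by
  have ha : a ∈ Submodule.span ℂ (unitary A : Set A) := by
    rw [CStarAlgebra.span_unitary]
    exact Submodule.mem_top
  induction ha using Submodule.span_induction with
  | mem v hv =>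
    have h1 := hy v hv
    have h2 : v * y * star v * v = y * v := by rw [h1]
    rw [mul_assoc, Unitary.star_mul_self_of_mem hv, mul_one] at h2
    exact h2.symm
  | zero => rw [mul_zero, zero_mul]
  | add a b _ _ ha hb => rw [mul_add, add_mul, ha, hb]
  | smul c a _ ha => rw [mul_smul_comm, smul_mul_assoc, ha]

/-- Let `I` be the infimum of `N` on the averages and `k n` averages with `N (k n) → I`. By
`N_par` and `Avg.mid`, `N (k n - k m) ≤ 2 N (k n) + 2 N (k m) - 4 I`: the sequence converges to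
some `y`; the same estimate for `k n` and `v (k n) v*` shows `v y v* = y` for all unitaries `v`,
so `y` is central (`CStarAlgebra.span_unitary`), `y = c 1` with `c = τ e`. -/
theorem exists_avg_lim (hF : Fac τ) {e : A} (he : IsPr e) :
    ∃ k : ℕ → A, (∀ n, Avg e (k n)) ∧ Lim2 τ k ((τ e) • (1 : A)) := by
  have hW : WT τ := hF.toWT
  set S : Set ℝ := {r | ∃ k : A, Avg e k ∧ N τ k = r} with hS
  have hne : S.Nonempty := by
    refine ⟨_, _, ⟨1, fun _ => 1, one_pos, fun _ => one_mem _, rfl⟩, rfl⟩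
  have hbd : BddBelow S := by
    refine ⟨0, ?_⟩
    rintro r ⟨k, _, rfl⟩
    exact N_nonneg hW.tr k
  set I : ℝ := sInf S with hIdef
  have hI : ∀ x : A, Avg e x → I ≤ N τ x := fun x hx => csInf_le hbd ⟨x, hx, rfl⟩
  have hex : ∀ n : ℕ, ∃ k : A, Avg e k ∧ N τ k < I + 1 / ((n : ℝ) + 1) := by
    intro n
    have hpos : (0 : ℝ) < 1 / ((n : ℝ) + 1) := Nat.one_div_pos_of_nat
    obtain ⟨r, ⟨k, hk, rfl⟩, hr⟩ := exists_lt_of_csInf_lt hne (lt_add_of_pos_right I hpos)
    exact ⟨k, hk, hr⟩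
  choose k hk hkN using hex
  have hlim : Tendsto (fun n : ℕ => 1 / ((n : ℝ) + 1)) atTop (𝓝 0) :=
    tendsto_one_div_add_atTop_nhds_zero_nat
  have hcauchy : ∀ ε : ℝ, 0 < ε → ∃ n₀ : ℕ, ∀ m n : ℕ, n₀ ≤ m → n₀ ≤ n →
      N τ (k m - k n) ≤ ε := by
    intro ε hε
    obtain ⟨n₀, hn₀⟩ := exists_nat_one_div_lt (show (0 : ℝ) < ε / 4 by positivity)
    refine ⟨n₀, fun m n hm hn => ?_⟩
    have h1 := link_N_diff hI (hk m) (hk n)
    have h2 := hkN m
    have h3 := hkN n
    have h4 : 1 / ((m : ℝ) + 1) ≤ 1 / ((n₀ : ℝ) + 1) := Nat.one_div_le_one_div hm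
    have h5 : 1 / ((n : ℝ) + 1) ≤ 1 / ((n₀ : ℝ) + 1) := Nat.one_div_le_one_div hn
    linarith
  obtain ⟨y, _, hy⟩ := exists_lim2 hW (fun n => (hk n).norm_le he) hcauchy
  have hinv : ∀ v ∈ unitary A, v * y * star v = y := by
    intro v hv
    have h1 : Lim2 τ (fun n => v * k n * star v) (v * y * star v) :=
      (hy.mul_left hW v).mul_right hW (star v)
    have h2 : Lim2 τ (fun n => v * k n * star v - k n) (v * y * star v - y) := h1.sub hW hy
    have h3 : Lim2 τ (fun n => v * k n * star v - k n) 0 := by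
      unfold Lim2
      have hub : Tendsto (fun n : ℕ => 4 * (1 / ((n : ℝ) + 1))) atTop (𝓝 0) := by
        simpa using hlim.const_mul 4
      refine squeeze_zero (fun n => N_nonneg hW.tr _) (fun n => ?_) hub
      rw [sub_zero]
      have h4 := link_N_diff hI ((hk n).conj hv) (hk n)
      rw [link_N_conj hW hv] at h4
      have h5 := hkN n
      linarith
    have h4 := h2.unique hW h3
    exact sub_eq_zero.1 h4
  obtain ⟨c, hc⟩ := hF.center y (link_central hinv)
  have h6 : Tendsto (fun n => τ (k n)) atTop (𝓝 (τ y)) := hy.tendsto_tau hW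
  have h7 : (fun n => τ (k n)) = fun _ => τ e := funext fun n => (hk n).tau_eq hW
  rw [h7] at h6
  have h8 : τ e = τ y := tendsto_nhds_unique tendsto_const_nhds h6
  have h9 : τ y = c := by rw [hc, map_smul, hW.one, smul_eq_mul, mul_one]
  refine ⟨k, hk, ?_⟩
  rw [h8, h9, ← hc]
  exact hy

/-- If `f a e = 0` for all `a` then `f k = 0` for all averages `k`, so `(τ e) f = 0`. -/
theorem exists_link (hF : Fac τ) {e f : A} (he : IsPr e) (hf : IsPr f) (he0 : e ≠ 0)
    (hf0 : f ≠ 0) : ∃ a : A, f * a * e ≠ 0 := by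
  have hW : WT τ := hF.toWT
  by_contra hcon
  push Not at hcon
  obtain ⟨k, hk, hlim⟩ := exists_avg_lim hF he
  have h1 : ∀ n, f * k n = 0 := by
    intro n
    obtain ⟨m, u, _, _, hu⟩ := hk n
    rw [hu, mul_smul_comm, Finset.mul_sum, Finset.sum_eq_zero, smul_zero]
    intro i _
    rw [← mul_assoc, ← mul_assoc, hcon, zero_mul]
  have h2 := hlim.mul_left hW f
  have h3 : (fun n => f * k n) = fun _ => (0 : A) := funext h1
  rw [h3] at h2
  have h4 := h2.unique hW (Lim2.const 0)
  rw [mul_smul_comm, mul_one] at h4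
  rcases smul_eq_zero.1 h4 with h5 | h5
  · apply he0
    apply hW.faithful
    rw [he.N_eq, h5, Complex.zero_re]
  · exact hf0 h5

/-- A nonzero partial isometry `u` with `u = f u e` (`exists_pi` for `f a e`). -/
theorem exists_link_pi (hF : Fac τ) {e f : A} (he : IsPr e) (hf : IsPr f) (he0 : e ≠ 0)
    (hf0 : f ≠ 0) : ∃ u : A, u ≠ 0 ∧ IsPI u ∧ f * u = u ∧ u * e = u := by
  obtain ⟨a, ha⟩ := exists_link hF he hf he0 hf0
  obtain ⟨u, hu0, hu, hl, hr⟩ := exists_pi hF.toWT ha
  refine ⟨u, hu0, hu, ?_, ?_⟩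
  · have h1 : (1 - f) * (f * a * e) = 0 := by
      rw [sub_mul, one_mul, ← mul_assoc, ← mul_assoc, hf.2, sub_self]
    have h2 := hl _ h1
    rw [sub_mul, one_mul, sub_eq_zero] at h2
    exact h2.symm
  · have h1 : (f * a * e) * (1 - e) = 0 := by
      rw [mul_sub, mul_one, mul_assoc (f * a), he.2, sub_self]
    have h2 := hr _ h1
    rw [mul_sub, mul_one, sub_eq_zero] at h2
    exact h2.symm

end Pool.McT
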