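import Pool.Agent.McT.Main
import Pool.Agent.McT.W.Crit

/-! The main theorem for finite factors which are not McDuff. -/

set_option autoImplicit false

namespace Pool.McT

theorem NM.mono {A : Type*} [CStarAlgebra A] {τ : A →ₗ[ℂ] ℂ} (hτ : IsTr τ) {F : Finset A}
    {κ κ' : ℝ} (h : NM τ F κ) (hk : κ ≤ κ') : NM τ F κ' := fun w hw =>
  (h w hw).trans (mul_le_mul_of_nonneg_right hk
    (Finset.sum_nonneg fun u _ => N_nonneg hτ _))

theorem main_factors {A B D : Type*} [CStarAlgebra A] [CStarAlgebra B] [CStarAlgebra D]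
    {τA : A →ₗ[ℂ] ℂ} {τB : B →ₗ[ℂ] ℂ} {τD : D →ₗ[ℂ] ℂ} {iA : A →⋆ₐ[ℂ] D} {iB : B →⋆ₐ[ℂ] D}
    (T : Tens τA τB τD iA iB) (hA : Fac τA) (hB : Fac τB) (sA : Sep τA) (sB : Sep τB)
    (mA : ¬ McDuff τA) (mB : ¬ McDuff τB) :
    ∃ (FA : Finset A) (FB : Finset B) (C : ℝ), ∀ k : ℕ, 1 ≤ k → ∀ (a : Fin k → A)
      (b : Fin k → B) (v v' : D), Sch τD iA iB a b v v' → v * v = 0 →
      64 * N τD (v - v') ≤ N τD v →
      N τD v ≤ C * k ^ 2 * (1 + Real.log k) *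
        (∑ u ∈ FA, (N τD (cm v (iA u)) + N τD (cm v (star (iA u))))
          + ∑ u ∈ FB, (N τD (cm v (iB u)) + N τD (cm v (star (iB u))))) := by
  obtain ⟨FA, κA, hκA, hNA⟩ := exists_NM hA sA mA
  obtain ⟨FB, κB, hκB, hNB⟩ := exists_NM hB sB mB
  refine ⟨FA, FB, 2 * 10 ^ 7 * max κA κB, fun k hk a b v v' h hvv h64 => ?_⟩
  exact main T hA.faithful hB.faithful (hκA.trans (le_max_left _ _))
    (hNA.mono hA.tr (le_max_left _ _)) (hNB.mono hB.tr (le_max_right _ _)) hk h hvv h64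

end Pool.McT
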