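import Pool.Agent.McT.W.CornerB
import Pool.Agent.McT.W.Connes

/-! One step of the exhaustion. -/

set_option autoImplicit false

namespace Pool.McT

variable {A : Type*} [CStarAlgebra A] {τ : A →ₗ[ℂ] ℂ}

/-- In the corner of `q`, `τ q ≥ 1/2`, there are nonzero nilpotent partial isometries `y` with
`S τ G y ≤ δ N y`: `connes` for `G`, and a witness `w` of `corner_not_NM` for `G` and its
adjoints with large `κ` (`N_cm_star`). -/
theorem exists_corner_pi (hF : Fac τ) (hno : ∀ (F : Finset A) (κ : ℝ), ¬ NM τ F κ) {q : A}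
    (hq : IsPr q) (hq2 : 1 / 2 ≤ (τ q).re) {G : Finset A}
    (hG : ∀ g ∈ G, q * g = g ∧ g * q = g) {δ : ℝ} (hδ : 0 < δ) :
    ∃ y : A, y ≠ 0 ∧ IsPI y ∧ y * y = 0 ∧ q * y = y ∧ y * q = y ∧ S τ G y ≤ δ * N τ y := by
  classical
  obtain ⟨δ₀, hδ₀, H⟩ := connes hF.toWT G hδ
  set G' : Finset A := G ∪ G.image star with hG'
  have hsq : star q = q := hq.1
  have hG2 : ∀ g ∈ G', q * g = g ∧ g * q = g := by
    intro g hg
    rw [hG', Finset.mem_union, Finset.mem_image] at hg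
    rcases hg with hg | ⟨g₀, hg₀, rfl⟩
    · exact hG g hg
    · obtain ⟨h1, h2⟩ := hG g₀ hg₀
      constructor
      · calc q * star g₀ = star (g₀ * q) := by rw [star_mul, hsq]
          _ = star g₀ := by rw [h2]
      · calc star g₀ * q = star (q * g₀) := by rw [star_mul, hsq]
          _ = star g₀ := by rw [h1]
  have hκ : (0 : ℝ) < 2 / δ₀ := div_pos two_pos hδ₀
  have h0 := corner_not_NM hF hno hq hq2 hG2 (2 / δ₀)
  unfold NMq at h0
  push Not at h0
  obtain ⟨w, hw1, hw2, hww, hlt⟩ := h0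
  have hnn : ∀ u, 0 ≤ N τ (cm w u) := fun u => N_nonneg hF.tr _
  have hsum : 0 ≤ ∑ u ∈ G', N τ (cm w u) := Finset.sum_nonneg fun u _ => hnn u
  have hw0 : w ≠ 0 := by
    rintro rfl
    rw [N_zero] at hlt
    exact absurd hlt (not_lt.2 (mul_nonneg hκ.le hsum))
  have hS : S τ G w ≤ δ₀ * N τ w := by
    have h1 : S τ G w = ∑ u ∈ G, N τ (cm w u) + ∑ u ∈ G.image star, N τ (cm w u) := by
      unfold S
      rw [Finset.sum_add_distrib, Finset.sum_image fun _ _ _ _ h => star_injective h]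
      congr 1
      exact Finset.sum_congr rfl fun u _ => N_cm_star hF.tr w u
    have h2 : ∑ u ∈ G, N τ (cm w u) ≤ ∑ u ∈ G', N τ (cm w u) :=
      Finset.sum_le_sum_of_subset_of_nonneg Finset.subset_union_left fun u _ _ => hnn u
    have h3 : ∑ u ∈ G.image star, N τ (cm w u) ≤ ∑ u ∈ G', N τ (cm w u) :=
      Finset.sum_le_sum_of_subset_of_nonneg Finset.subset_union_right fun u _ _ => hnn u
    have h4 : δ₀ * (2 / δ₀ * ∑ u ∈ G', N τ (cm w u)) = 2 * ∑ u ∈ G', N τ (cm w u) := by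
      field_simp
    have h5 := mul_le_mul_of_nonneg_left hlt.le hδ₀.le
    rw [h4] at h5
    linarith
  obtain ⟨y, hy0, hy1, hy2, hy3, hy4, hy5⟩ := H w hww hw0 hS
  refine ⟨y, hy0, hy1, hy2, ?_, ?_, hy5⟩
  · have h1 : (1 - q) * w = 0 := by rw [sub_mul, one_mul, hw1, sub_self]
    have h2 := hy3 _ h1
    rw [sub_mul, one_mul, sub_eq_zero] at h2
    exact h2.symm
  · have h1 : w * (1 - q) = 0 := by rw [mul_sub, mul_one, hw2, sub_self]
    have h2 := hy4 _ h1
    rw [mul_sub, mul_one, sub_eq_zero] at h2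
    exact h2.symm

end Pool.McT
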