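import Pool.Agent.McT.W.Comp

/-! Computations for the stage lemma. -/

set_option autoImplicit false

namespace Pool.McT

variable {A : Type*} [CStarAlgebra A] {τ : A →ₗ[ℂ] ℂ}

/-- The support projection of a nilpotent partial isometry. -/
def sp (v : A) : A := star v * v + v * star v

private theorem sa_expand (hτ : IsTr τ) (x y : A) :
    N τ (x + y) = N τ x + N τ y + 2 * (τ (star x * y)).re := by
  have h : star (x + y) * (x + y) = star x * x + star y * y + star x * y + star (star x * y) := by
    rw [star_add, star_mul, star_star]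
    noncomm_ring
  unfold N
  rw [h]
  simp only [map_add, Complex.add_re]
  rw [tau_star hτ, Complex.conj_re]
  ring

private theorem sa_norm {v : A} (hv : IsPI v) : ‖v‖ ≤ 1 := by
  have h1 : ‖star v * v‖ = ‖v‖ * ‖v‖ := CStarRing.norm_star_mul_self
  have h2 : star (star v * v) * (star v * v) = star v * v := by
    have hv' : v * star v * v = v := hv
    rw [star_mul, star_star]
    calc star v * v * (star v * v) = star v * (v * star v * v) := by noncomm_ring
      _ = star v * v := by rw [hv']
  have h3 : ‖star v * v‖ = ‖star v * v‖ * ‖star v * v‖ := by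
    conv_lhs => rw [← h2]
    exact CStarRing.norm_star_mul_self
  by_contra hlt
  rw [not_le] at hlt
  have h4 : 1 < ‖v‖ * ‖v‖ := by nlinarith
  rw [h1] at h3
  nlinarith

theorem sp_isPr {v : A} (hv : IsPI v) (hvv : v * v = 0) : IsPr (sp v) := by
  have hv' : v * star v * v = v := hv
  have hs : star v * star v = 0 := by
    rw [← star_mul, hvv, star_zero]
  refine ⟨by unfold sp; rw [star_add, star_mul, star_mul, star_star], ?_⟩
  unfold sp
  calc (star v * v + v * star v) * (star v * v + v * star v)
      = star v * (v * star v * v) + star v * (v * v) * star v + v * (star v * star v) * v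
        + (v * star v * v) * star v := by noncomm_ring
    _ = star v * v + v * star v := by
      rw [hv', hvv, hs]
      simp

theorem tau_sp (hτ : IsTr τ) (v : A) : (τ (sp v)).re = 2 * N τ v := by
  unfold sp N
  rw [map_add, Complex.add_re, hτ.comm v (star v)]
  ring

theorem sp_mul {v : A} (hv : IsPI v) (hvv : v * v = 0) : sp v * v = v ∧ v * sp v = v := by
  have hv' : v * star v * v = v := hv
  unfold sp
  constructor
  · rw [add_mul, mul_assoc (star v) v v, hvv, mul_zero, zero_add, hv']
  · rw [mul_add, ← mul_assoc, ← mul_assoc, hvv, zero_mul, add_zero, hv']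

theorem N_cm_sp_le (hτ : IsTr τ) {v : A} (hv : IsPI v) (u : A) :
    N τ (cm (sp v) u) ≤ 8 * (N τ (cm v u) + N τ (cm (star v) u)) := by
  have hn := sa_norm hv
  have hn' : ‖star v‖ ≤ 1 := by rwa [norm_star]
  have h : cm (sp v) u = cm (star v * v) u + cm (v * star v) u := by
    unfold cm sp
    noncomm_ring
  rw [h]
  have h1 := N_add_le hτ (cm (star v * v) u) (cm (v * star v) u)
  have h2 := N_cm_mul_le hτ hn' hn u
  have h3 := N_cm_mul_le hτ hn hn' u
  linarith

/-- `y = q y q`, `p = 1 - q`: `[y, u] = [y, q u q] + y u p - p u y`, in orthogonal blocks. -/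
theorem N_cm_corner (hτ : IsTr τ) {q y : A} (hq : IsPr q) (h1 : q * y = y) (h2 : y * q = y)
    (u : A) :
    N τ (cm y u) = N τ (cm y (q * u * q)) + N τ (y * u * (1 - q)) + N τ ((1 - q) * u * y) := by
  obtain ⟨hq1, hq2⟩ := hq
  have s1 : star y * q = star y := by
    have := congrArg star h1
    rwa [star_mul, hq1] at this
  have s2 : q * star y = star y := by
    have := congrArg star h2
    rwa [star_mul, hq1] at this
  have e : cm y u = cm y (q * u * q) + y * u * (1 - q) + -((1 - q) * u * y) := by
    unfold cm
    have a1 : y * (q * u * q) = y * u * q := by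
      rw [← mul_assoc, ← mul_assoc, h2]
    have a2 : q * u * q * y = q * u * y := by
      rw [mul_assoc (q * u), h1]
    rw [a1, a2]
    noncomm_ring
  have c1 : (τ (star (cm y (q * u * q)) * (y * u * (1 - q)))).re = 0 := by
    have b1 : star (cm y (q * u * q)) * (y * u * (1 - q)) =
        q * (star (cm y (q * u * q)) * (y * u * (1 - q))) := by
      have b2 : q * star (cm y (q * u * q)) = star (cm y (q * u * q)) := by
        have b3 : cm y (q * u * q) * q = cm y (q * u * q) := by
          unfold cm
          rw [sub_mul, mul_assoc y, mul_assoc (q * u) q q, hq2, mul_assoc (q * u * q) y q, h2]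
        have := congrArg star b3
        rwa [star_mul, hq1] at this
      rw [← mul_assoc q, b2]
    rw [b1, hτ.comm]
    have b4 : star (cm y (q * u * q)) * (y * u * (1 - q)) * q = 0 := by
      have : (1 - q) * q = 0 := by rw [sub_mul, one_mul, hq2, sub_self]
      rw [mul_assoc, mul_assoc (y * u), this, mul_zero, mul_zero]
    rw [b4, map_zero, Complex.zero_re]
  have c2 : star (cm y (q * u * q) + y * u * (1 - q)) * -((1 - q) * u * y) = 0 := by
    have b1 : star (cm y (q * u * q)) * (1 - q) = 0 := by
      have b3 : q * cm y (q * u * q) = cm y (q * u * q) := by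
        unfold cm
        rw [mul_sub, ← mul_assoc q y, h1, ← mul_assoc q (q * u * q) y, ← mul_assoc q (q * u) q,
          ← mul_assoc q q u, hq2]
      have := congrArg star b3
      rw [star_mul, hq1] at this
      rw [mul_sub, mul_one, this, sub_self]
    have b5 : star (y * u * (1 - q)) * (1 - q) = 0 := by
      have : star y * (1 - q) = 0 := by rw [mul_sub, mul_one, s1, sub_self]
      rw [star_mul, star_mul]
      rw [mul_assoc, mul_assoc, this, mul_zero, mul_zero]
    rw [star_add, mul_neg, ← mul_assoc, ← mul_assoc, add_mul, b1, b5, add_zero, zero_mul,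
      zero_mul, neg_zero]
  rw [e, sa_expand hτ, sa_expand hτ, c1, c2, N_neg, map_zero, Complex.zero_re]
  ring

theorem N_right (hτ : IsTr τ) {q y : A} (hq : IsPr q) (h1 : q * y = y) (h2 : y * q = y)
    (u : A) :
    N τ (y * u * (1 - q)) = (τ (star y * y * (q * u * (1 - q) * star u * q))).re := by
  obtain ⟨hq1, hq2⟩ := hq
  have s2 : q * star y = star y := by
    have := congrArg star h2
    rwa [star_mul, hq1] at this
  have hp : star (1 - q) = 1 - q := by rw [star_sub, star_one, hq1]
  have hp2 : (1 - q) * (1 - q) = 1 - q := by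
    rw [mul_sub, mul_one, sub_mul, one_mul, hq2, sub_self, sub_zero]
  unfold N
  have e1 : star (y * u * (1 - q)) * (y * u * (1 - q)) =
      ((1 - q) * star u) * (star y * y * u * (1 - q)) := by
    rw [star_mul, star_mul, hp]
    noncomm_ring
  have e2 : star y * y * (q * u * (1 - q) * star u * q) =
      (star y * (y * q) * u * (1 - q) * star u) * q := by noncomm_ring
  rw [e1, e2, hτ.comm, hτ.comm _ q, h2]
  have e3 : star y * y * u * (1 - q) * ((1 - q) * star u) =
      star y * y * u * ((1 - q) * (1 - q)) * star u := by
    simp only [mul_assoc]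
  have e4 : q * (star y * y * u * (1 - q) * star u) =
      (q * star y) * y * u * (1 - q) * star u := by
    simp only [mul_assoc]
  rw [e3, e4, hp2, s2]

theorem N_left (hτ : IsTr τ) {q y : A} (hq : IsPr q) (h1 : q * y = y) (h2 : y * q = y)
    (u : A) :
    N τ ((1 - q) * u * y) = (τ (y * star y * (q * star u * (1 - q) * u * q))).re := by
  obtain ⟨hq1, hq2⟩ := hq
  have s1 : star y * q = star y := by
    have := congrArg star h1
    rwa [star_mul, hq1] at this
  have hp : star (1 - q) = 1 - q := by rw [star_sub, star_one, hq1]
  have hp2 : (1 - q) * (1 - q) = 1 - q := by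
    rw [mul_sub, mul_one, sub_mul, one_mul, hq2, sub_self, sub_zero]
  unfold N
  have e1 : star ((1 - q) * u * y) * ((1 - q) * u * y) =
      (star y * star u * ((1 - q) * (1 - q)) * u) * y := by
    rw [star_mul, star_mul, hp]
    simp only [mul_assoc]
  have e2 : y * star y * (q * star u * (1 - q) * u * q) =
      (y * (star y * q) * star u * (1 - q) * u) * q := by
    simp only [mul_assoc]
  rw [e1, e2, hτ.comm, hτ.comm _ q, s1, hp2]
  have e4 : q * (y * star y * star u * (1 - q) * u) =
      (q * y) * star y * star u * (1 - q) * u := by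
    simp only [mul_assoc]
  have e3 : y * (star y * star u * (1 - q) * u) = y * star y * star u * (1 - q) * u := by
    simp only [mul_assoc]
  rw [e3, e4, h1]

/-- `N [1 - q, u] = N ((1 - q) u q) + N (q u (1 - q))`. -/
theorem tau_blocks (hτ : IsTr τ) {q : A} (hq : IsPr q) (u : A) :
    (τ (q * u * (1 - q) * star u * q)).re + (τ (q * star u * (1 - q) * u * q)).re
      = N τ (cm (1 - q) u) := by
  obtain ⟨hq1, hq2⟩ := hq
  have hp : star (1 - q) = 1 - q := by rw [star_sub, star_one, hq1]
  have hp2 : (1 - q) * (1 - q) = 1 - q := by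
    rw [mul_sub, mul_one, sub_mul, one_mul, hq2, sub_self, sub_zero]
  have hpq : (1 - q) * q = 0 := by rw [sub_mul, one_mul, hq2, sub_self]
  have hqp : q * (1 - q) = 0 := by rw [mul_sub, mul_one, hq2, sub_self]
  have e : cm (1 - q) u = (1 - q) * u * q + -(q * u * (1 - q)) := by
    unfold cm
    noncomm_ring
  have c : star ((1 - q) * u * q) * -(q * u * (1 - q)) = 0 := by
    rw [star_mul, star_mul, hp, hq1]
    have : q * (star u * (1 - q)) * -(q * u * (1 - q)) =
      -(q * star u * ((1 - q) * q) * u * (1 - q)) := by
      simp only [mul_assoc, mul_neg]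
    rw [this, hpq]
    simp
  rw [e, sa_expand hτ, c, N_neg, map_zero, Complex.zero_re]
  have n1 : N τ ((1 - q) * u * q) = (τ (q * star u * (1 - q) * u * q)).re := by
    unfold N
    rw [star_mul, star_mul, hp, hq1]
    have : q * (star u * (1 - q)) * ((1 - q) * u * q) =
      q * star u * ((1 - q) * (1 - q)) * u * q := by simp only [mul_assoc]
    rw [this, hp2]
  have n2 : N τ (q * u * (1 - q)) = (τ (q * u * (1 - q) * star u * q)).re := by
    unfold N
    rw [hτ.comm, star_mul, star_mul, hp, hq1]
    have : q * u * (1 - q) * ((1 - q) * (star u * q)) =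
      q * u * ((1 - q) * (1 - q)) * star u * q := by simp only [mul_assoc]
    rw [this, hp2]
  rw [n1, n2]
  ring

/-- `τ (y b) = τ (y y* y b) = τ ([y, b] y y*)`, as `y b y = [y, b] y`. -/
theorem tau_nil_le (hτ : IsTr τ) {y : A} (hy : IsPI y) (hyy : y * y = 0) (b : A) :
    ‖τ (y * b)‖ ≤ Real.sqrt (N τ y) * Real.sqrt (N τ (cm y b)) := by
  have hy' : y * star y * y = y := hy
  have e : τ (y * b) = τ (cm y b * (y * star y)) := by
    have e1 : cm y b * (y * star y) = (y * b) * (y * star y) := by
      unfold cm
      rw [sub_mul]
      have : b * y * (y * star y) = b * (y * y) * star y := by simp only [mul_assoc]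
      rw [this, hyy]
      simp
    rw [e1, hτ.comm (y * b)]
    have : y * star y * (y * b) = (y * star y * y) * b := by simp only [mul_assoc]
    rw [this, hy']
  have hN : N τ (y * star y) = N τ y := by
    unfold N
    rw [star_mul, star_star]
    have : y * star y * (y * star y) = (y * star y * y) * star y := by simp only [mul_assoc]
    rw [this, hy', hτ.comm]
  have h := tau_mul_sq_le hτ (cm y b) (y * star y)
  rw [hN, ← e] at h
  rw [← Real.sqrt_mul (N_nonneg hτ y), mul_comm (N τ y)]
  exact Real.le_sqrt_of_sq_le h

/-- `v = p v p`, `y = q y q`, `p = 1 - q`. In `τ ([v, u]* [y, u])` only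
`- τ (y (q u* v* u q)) - τ (y (q u v* u* q))` remains. -/
theorem cross_le (hτ : IsTr τ) {q v y : A} (hq : IsPr q) (hv1 : q * v = 0) (hv2 : v * q = 0)
    (h1 : q * y = y) (h2 : y * q = y) (hy : IsPI y) (hyy : y * y = 0) (u : A) :
    N τ (cm (v + y) u) ≤ N τ (cm v u) + N τ (cm y u) + 2 * Real.sqrt (N τ y) *
      (Real.sqrt (N τ (cm y (q * star u * star v * u * q)))
        + Real.sqrt (N τ (cm y (q * u * star v * star u * q)))) := by
  obtain ⟨hq1, hq2⟩ := hq
  have t1 : star v * q = 0 := by
    have := congrArg star hv1
    rwa [star_mul, hq1, star_zero] at this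
  have t2 : q * star v = 0 := by
    have := congrArg star hv2
    rwa [star_mul, hq1, star_zero] at this
  have e0 : cm (v + y) u = cm v u + cm y u := by
    unfold cm
    noncomm_ring
  have vy : star v * y = 0 := by
    rw [← h1, ← mul_assoc, t1, zero_mul]
  have yv : y * star v = 0 := by
    rw [← h2, mul_assoc, t2, mul_zero]
  have cy : ∀ b : A, τ (y * (q * b * q)) = τ (y * b) := by
    intro b
    have a1 : y * (q * b * q) = (y * q) * b * q := by simp only [mul_assoc]
    rw [a1, hτ.comm _ q, h2, ← mul_assoc, h1]
  have e1 : τ (star (cm v u) * cm y u) =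
      -τ (y * (q * star u * star v * u * q)) - τ (y * (q * u * star v * star u * q)) := by
    have a1 : star (cm v u) * cm y u =
        star u * (star v * y) * u - (star u * star v * u) * y - (star v * star u) * (y * u)
          + (star v * star u * u) * y := by
      unfold cm
      rw [star_sub, star_mul, star_mul]
      noncomm_ring
    have a2 : τ ((star u * star v * u) * y) = τ (y * (q * star u * star v * u * q)) := by
      rw [hτ.comm]
      have := cy (star u * star v * u)
      rw [← this]
      simp only [mul_assoc]
    have a3 : τ ((star v * star u) * (y * u)) = τ (y * (q * u * star v * star u * q)) := by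
      rw [hτ.comm]
      have := cy (u * star v * star u)
      have b1 : y * u * (star v * star u) = y * (u * star v * star u) := by
        simp only [mul_assoc]
      rw [b1, ← this]
      simp only [mul_assoc]
    have a4 : τ ((star v * star u * u) * y) = 0 := by
      rw [hτ.comm]
      have : y * (star v * star u * u) = (y * star v) * star u * u := by
        simp only [mul_assoc]
      rw [this, yv]
      simp
    rw [a1, vy, map_add, map_sub, map_sub, a2, a3, a4]
    simp
  have n1 := tau_nil_le hτ hy hyy (q * star u * star v * u * q)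
  have n2 := tau_nil_le hτ hy hyy (q * u * star v * star u * q)
  have r1 : (τ (star (cm v u) * cm y u)).re ≤ Real.sqrt (N τ y) *
      (Real.sqrt (N τ (cm y (q * star u * star v * u * q)))
        + Real.sqrt (N τ (cm y (q * u * star v * star u * q)))) := by
    rw [e1]
    refine (Complex.re_le_norm _).trans ?_
    refine (norm_sub_le _ _).trans ?_
    rw [norm_neg, mul_add]
    exact add_le_add n1 n2
  rw [e0, sa_expand hτ]
  nlinarith

end Pool.McT
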