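import Pool.Agent.McT.W.Stage
import Pool.Agent.McT.W.StageA

/-! The stage lemma. -/

set_option autoImplicit false

namespace Pool.McT

variable {A : Type*} [CStarAlgebra A] {τ : A →ₗ[ℂ] ℂ}

private theorem single_le (hτ : IsTr τ) {G : Finset A} {g : A} (hg : g ∈ G) (y : A) :
    N τ (cm y g) + N τ (cm (star y) g) ≤ S τ G y :=
  Finset.single_le_sum
    (f := fun u => N τ (cm y u) + N τ (cm (star y) u))
    (fun _ _ => add_nonneg (N_nonneg hτ _) (N_nonneg hτ _)) hg

private theorem subset_le (hτ : IsTr τ) {G G' : Finset A} (h : G' ⊆ G) (y : A) :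
    ∑ g ∈ G', N τ (cm y g) + ∑ g ∈ G', N τ (cm (star y) g) ≤ S τ G y := by
  rw [← Finset.sum_add_distrib]
  exact Finset.sum_le_sum_of_subset_of_nonneg h
    (fun _ _ _ => add_nonneg (N_nonneg hτ _) (N_nonneg hτ _))

/-- Near traces for `y` and `star y` and both blocks. -/
private theorem near (hF : Fac τ) {q : A} (hq : IsPr q) (hq0 : q ≠ 0) {δ : ℝ} (hδ : 0 < δ)
    {b : A} (hb : IsSelfAdjoint b) (h1 : q * b = b) (h2 : b * q = b) :
    ∃ (G : Finset A) (C : ℝ), 0 ≤ C ∧ (∀ g ∈ G, q * g = g ∧ g * q = g) ∧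
      ∀ y : A, q * y = y → y * q = y →
        (τ (star y * y * b)).re + (τ (y * star y * b)).re ≤
          2 * ((τ b).re / (τ q).re) * N τ y + 2 * δ * N τ y +
            C * (∑ g ∈ G, N τ (cm y g) + ∑ g ∈ G, N τ (cm (star y) g)) := by
  obtain ⟨G, C, hC, hG, h⟩ := near_trace hF hq hq0 hb h1 h2 hδ
  refine ⟨G, C, hC, hG, fun y hy1 hy2 => ?_⟩
  have hs1 : q * star y = star y := by
    have := congrArg star hy2
    rwa [star_mul, hq.1] at this
  have hs2 : star y * q = star y := by
    have := congrArg star hy1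
    rwa [star_mul, hq.1] at this
  have e1 := (abs_le.1 (h y hy1 hy2)).2
  have e2 := (abs_le.1 (h (star y) hs1 hs2)).2
  rw [star_star, N_star hF.tr] at e2
  rw [mul_add]
  linarith

/-- The corner estimate for one `u`. -/
private theorem corner_one (hτ : IsTr τ) {q y : A} (hq : IsPr q) (h1 : q * y = y)
    (h2 : y * q = y) (u : A) :
    N τ (cm y u) + N τ (cm (star y) u) =
      (N τ (cm y (q * u * q)) + N τ (cm (star y) (q * u * q))) +
      ((τ (star y * y * (q * u * (1 - q) * star u * q))).re +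
        (τ (y * star y * (q * u * (1 - q) * star u * q))).re) +
      ((τ (star y * y * (q * star u * (1 - q) * u * q))).re +
        (τ (y * star y * (q * star u * (1 - q) * u * q))).re) := by
  have hs1 : q * star y = star y := by
    have := congrArg star h2
    rwa [star_mul, hq.1] at this
  have hs2 : star y * q = star y := by
    have := congrArg star h1
    rwa [star_mul, hq.1] at this
  rw [N_cm_corner hτ hq h1 h2 u, N_cm_corner hτ hq hs1 hs2 u, N_right hτ hq h1 h2 u,
    N_left hτ hq h1 h2 u, N_right hτ hq hs1 hs2 u, N_left hτ hq hs1 hs2 u, star_star]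
  ring

private theorem block_sa {q : A} (hq : IsPr q) (u : A) :
    IsSelfAdjoint (q * u * (1 - q) * star u * q) := by
  show star (q * u * (1 - q) * star u * q) = _
  simp only [star_mul, star_sub, star_one, star_star, hq.1, mul_assoc]

private theorem block_left {q : A} (hq : IsPr q) (a : A) : q * (q * a) = q * a := by
  rw [← mul_assoc, hq.2]

/-- Let `p = sp v`, `q = 1 - p`, `τ q = 1 - 2 N v ≥ 19/20`. For `u ∈ F` put
`b = q u p u* q`, `b' = q u* p u q`. Let `G` contain, for `u ∈ F`: `q u q`, `q u* q`,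
`q u* v* u q`, `q u v* u* q`, `q u* v u q`, `q u v u* q`, and the sets of `near_trace` for all
`b`, `b'` with a small constant `δ₁`, and let `y` be given by `exists_corner_pi` with a very
small `δ`. By `N_cm_corner`, `N_right`, `N_left`, `near_trace` (for `y` and `star y`),
`tau_blocks`, `N_cm_sp_le`:
`S τ F y ≤ N y (small + 2 ∑ N [p, u] / τ q) ≤ N y (small + 16 S τ F v / τ q)
≤ N y (small + ε / 2)`, as `S τ F v ≤ ε N v ≤ ε / 40`. By `cross_le` (for `v, y` and for
`star v, star y`) `S τ F (v + y) ≤ S τ F v + S τ F y + small N y < ε (N v + N y)`. -/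
theorem stage (hF : Fac τ) (hno : ∀ (F : Finset A) (κ : ℝ), ¬ NM τ F κ) (F : Finset A)
    {ε : ℝ} (hε : 0 < ε) {v : A} (hv : IsPI v) (hvv : v * v = 0) (hN : N τ v ≤ 1 / 40)
    (hS : S τ F v ≤ ε * N τ v) :
    ∃ y : A, y ≠ 0 ∧ IsPI y ∧ y * y = 0 ∧ star v * y = 0 ∧ v * star y = 0 ∧ v * y = 0 ∧
      y * v = 0 ∧ S τ F (v + y) < ε * N τ (v + y) := by
  classical
  have hτ : IsTr τ := hF.tr
  have hp := sp_isPr hv hvv
  obtain ⟨q, hqe⟩ : ∃ q : A, q = 1 - sp v := ⟨_, rfl⟩
  have hpe : 1 - q = sp v := by rw [hqe, sub_sub_cancel]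
  have hq : IsPr q := by
    constructor
    · rw [hqe, star_sub, star_one, hp.1]
    · rw [hqe, mul_sub, mul_one, sub_mul, one_mul, hp.2, sub_self, sub_zero]
  have hqv : q * v = 0 := by rw [hqe, sub_mul, one_mul, (sp_mul hv hvv).1, sub_self]
  have hvq : v * q = 0 := by rw [hqe, mul_sub, mul_one, (sp_mul hv hvv).2, sub_self]
  have hqv' : q * star v = 0 := by
    have := congrArg star hvq
    rwa [star_mul, hq.1, star_zero] at this
  have hvq' : star v * q = 0 := by
    have := congrArg star hqv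
    rwa [star_mul, hq.1, star_zero] at this
  have hτq : (τ q).re = 1 - 2 * N τ v := by
    rw [hqe, map_sub, Complex.sub_re, tau_sp hτ, hF.one, Complex.one_re]
  have hNv := N_nonneg hτ v
  have hτq' : 19 / 20 ≤ (τ q).re := by rw [hτq]; linarith
  have hq0 : q ≠ 0 := by
    rintro h
    rw [h, map_zero, Complex.zero_re] at hτq'
    linarith
  -- near traces
  have hnn : (0 : ℝ) ≤ F.card := Nat.cast_nonneg _
  obtain ⟨δ₁, hδ₁e⟩ : ∃ δ₁ : ℝ, δ₁ = ε / (16 * (F.card + 1)) := ⟨_, rfl⟩
  have hδ₁ : 0 < δ₁ := by rw [hδ₁e]; positivity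
  have hδ₁' : 4 * F.card * δ₁ ≤ ε / 4 := by
    rw [hδ₁e, mul_div_assoc', div_le_div_iff₀ (by positivity) (by norm_num)]
    nlinarith
  have hB := fun u : A => near hF hq hq0 hδ₁ (block_sa hq u)
    (by simp only [mul_assoc]; rw [block_left hq])
    (by simp only [mul_assoc]; rw [hq.2])
  choose G₁ C₁ hC₁ hG₁ hn₁ using hB
  -- the finite set
  obtain ⟨K, hKe⟩ : ∃ K : ℝ, K = ∑ u ∈ F, (C₁ u + C₁ (star u)) := ⟨_, rfl⟩
  have hK : 0 ≤ K := by
    rw [hKe]
    exact Finset.sum_nonneg fun u _ => add_nonneg (hC₁ _) (hC₁ _)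
  obtain ⟨G, hGe⟩ : ∃ G : Finset A, G = F.biUnion fun u =>
      G₁ u ∪ (G₁ (star u) ∪ {q * u * q, q * star u * star v * u * q,
        q * u * star v * star u * q, q * star u * v * u * q, q * u * v * star u * q}) := ⟨_, rfl⟩
  have hGq : ∀ g ∈ G, q * g = g ∧ g * q = g := by
    intro g hg
    rw [hGe, Finset.mem_biUnion] at hg
    obtain ⟨u, -, hg⟩ := hg
    have hfin : ∀ a : A, q * (q * a * q) = q * a * q ∧ q * a * q * q = q * a * q := fun a => by
      constructor
      · simp only [mul_assoc]; rw [block_left hq]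
      · rw [mul_assoc, hq.2]
    rcases Finset.mem_union.1 hg with hg | hg
    · exact hG₁ u g hg
    · rcases Finset.mem_union.1 hg with hg | hg
      · exact hG₁ (star u) g hg
      · simp only [Finset.mem_insert, Finset.mem_singleton] at hg
        rcases hg with rfl | rfl | rfl | rfl | rfl
        · exact hfin u
        · have := hfin (star u * star v * u)
          simp only [← mul_assoc] at this ⊢
          exact this
        · have := hfin (u * star v * star u)
          simp only [← mul_assoc] at this ⊢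
          exact this
        · have := hfin (star u * v * u)
          simp only [← mul_assoc] at this ⊢
          exact this
        · have := hfin (u * v * star u)
          simp only [← mul_assoc] at this ⊢
          exact this
  have hsub : ∀ u ∈ F, G₁ u ⊆ G ∧ G₁ (star u) ⊆ G ∧ q * u * q ∈ G ∧
      q * star u * star v * u * q ∈ G ∧ q * u * star v * star u * q ∈ G ∧
      q * star u * v * u * q ∈ G ∧ q * u * v * star u * q ∈ G := by
    intro u hu
    have hm : ∀ g ∈ G₁ u ∪ (G₁ (star u) ∪ {q * u * q, q * star u * star v * u * q,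
        q * u * star v * star u * q, q * star u * v * u * q, q * u * v * star u * q}),
        g ∈ G := fun g hg => by
      rw [hGe]
      exact Finset.mem_biUnion.2 ⟨u, hu, hg⟩
    refine ⟨fun g hg => hm g (Finset.mem_union_left _ hg), fun g hg => hm g
      (Finset.mem_union_right _ (Finset.mem_union_left _ hg)), ?_, ?_, ?_, ?_, ?_⟩ <;>
    · apply hm
      simp
  -- the element
  obtain ⟨s, hse⟩ : ∃ s : ℝ, s = min 1 (ε / (64 * (F.card + K + 1))) := ⟨_, rfl⟩
  have hs0 : 0 < s := by rw [hse]; exact lt_min one_pos (by positivity)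
  have hs1 : s ≤ 1 := by rw [hse]; exact min_le_left _ _
  have hs2 : (F.card + K + 1) * s ≤ ε / 64 := by
    have h1 : s ≤ ε / (64 * (F.card + K + 1)) := by rw [hse]; exact min_le_right _ _
    rw [le_div_iff₀ (by positivity)] at h1
    linarith
  obtain ⟨y, hy0, hy, hyy, hqy, hyq, hSy⟩ := exists_corner_pi hF hno hq (by linarith) hGq
    (δ := s ^ 2) (by positivity)
  have hy' : IsPI (star y) := by
    have := congrArg star hy
    rw [star_mul, star_mul, star_star, ← mul_assoc] at this
    show star y * star (star y) * star y = star y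
    rw [star_star]
    exact this
  have hyy' : star y * star y = 0 := by rw [← star_mul, hyy, star_zero]
  have hqy' : q * star y = star y := by
    have := congrArg star hyq
    rwa [star_mul, hq.1] at this
  have hyq' : star y * q = star y := by
    have := congrArg star hqy
    rwa [star_mul, hq.1] at this
  have hNy : 0 < N τ y := by
    refine lt_of_le_of_ne (N_nonneg hτ y) fun h => hy0 (hF.faithful y h.symm)
  have o1 : star v * y = 0 := by rw [← hqy, ← mul_assoc, hvq', zero_mul]
  have o2 : v * star y = 0 := by rw [← hqy', ← mul_assoc, hvq, zero_mul]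
  have o3 : v * y = 0 := by rw [← hqy, ← mul_assoc, hvq, zero_mul]
  have o4 : y * v = 0 := by rw [← hyq, mul_assoc, hqv, mul_zero]
  refine ⟨y, hy0, hy, hyy, o1, o2, o3, o4, ?_⟩
  rw [N_add_of_orth hτ o1 o2]
  -- the estimate for one `u`
  have hone : ∀ u ∈ F, N τ (cm (v + y) u) + N τ (cm (star (v + y)) u) ≤
      (N τ (cm v u) + N τ (cm (star v) u)) +
        ((1 + (C₁ u + C₁ (star u))) * s ^ 2 + 4 * δ₁ + 8 * s) * N τ y +
        320 / 19 * (N τ (cm v u) + N τ (cm (star v) u)) * N τ y := by
    intro u hu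
    obtain ⟨k1, k2, k3, k4, k5, k6, k7⟩ := hsub u hu
    have c1 := cross_le hτ hq hqv hvq hqy hyq hy hyy u
    have c2 := cross_le hτ hq hqv' hvq' hqy' hyq' hy' hyy' u
    rw [star_star] at c2
    rw [N_star hτ] at c2
    have hsq : ∀ g ∈ G, Real.sqrt (N τ (cm y g)) ≤ s * Real.sqrt (N τ y) ∧
        Real.sqrt (N τ (cm (star y) g)) ≤ s * Real.sqrt (N τ y) := by
      intro g hg
      have h1 := single_le hτ hg y
      have h2 := N_nonneg hτ (cm y g)
      have h3 := N_nonneg hτ (cm (star y) g)
      have h4 : s * Real.sqrt (N τ y) = Real.sqrt (s ^ 2 * N τ y) := by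
        rw [Real.sqrt_mul (by positivity), Real.sqrt_sq hs0.le]
      rw [h4]
      exact ⟨Real.sqrt_le_sqrt (by linarith), Real.sqrt_le_sqrt (by linarith)⟩
    have hsy := Real.mul_self_sqrt hNy.le
    have hsy0 := Real.sqrt_nonneg (N τ y)
    have d1 : 2 * Real.sqrt (N τ y) *
        (Real.sqrt (N τ (cm y (q * star u * star v * u * q)))
          + Real.sqrt (N τ (cm y (q * u * star v * star u * q)))) ≤ 4 * s * N τ y := by
      have e1 := (hsq _ k4).1
      have e2 := (hsq _ k5).1
      calc 2 * Real.sqrt (N τ y) *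
        (Real.sqrt (N τ (cm y (q * star u * star v * u * q)))
          + Real.sqrt (N τ (cm y (q * u * star v * star u * q))))
          ≤ 2 * Real.sqrt (N τ y) * (s * Real.sqrt (N τ y) + s * Real.sqrt (N τ y)) :=
            mul_le_mul_of_nonneg_left (add_le_add e1 e2) (by positivity)
        _ = 4 * s * (Real.sqrt (N τ y) * Real.sqrt (N τ y)) := by ring
        _ = 4 * s * N τ y := by rw [hsy]
    have d2 : 2 * Real.sqrt (N τ y) *
        (Real.sqrt (N τ (cm (star y) (q * star u * v * u * q)))
          + Real.sqrt (N τ (cm (star y) (q * u * v * star u * q)))) ≤ 4 * s * N τ y := by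
      have e1 := (hsq _ k6).2
      have e2 := (hsq _ k7).2
      calc 2 * Real.sqrt (N τ y) *
        (Real.sqrt (N τ (cm (star y) (q * star u * v * u * q)))
          + Real.sqrt (N τ (cm (star y) (q * u * v * star u * q))))
          ≤ 2 * Real.sqrt (N τ y) * (s * Real.sqrt (N τ y) + s * Real.sqrt (N τ y)) :=
            mul_le_mul_of_nonneg_left (add_le_add e1 e2) (by positivity)
        _ = 4 * s * (Real.sqrt (N τ y) * Real.sqrt (N τ y)) := by ring
        _ = 4 * s * N τ y := by rw [hsy]
    have f1 := corner_one hτ hq hqy hyq u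
    have f2 := single_le hτ k3 y
    have f3 := hn₁ u y hqy hyq
    have f4 := hn₁ (star u) y hqy hyq
    rw [star_star] at f4
    have f5 := subset_le hτ k1 y
    have f6 := subset_le hτ k2 y
    have f7 := tau_blocks hτ hq u
    rw [hpe] at f7
    have f8 := N_cm_sp_le hτ hv u
    have f9 := mul_le_mul_of_nonneg_left (f5.trans hSy) (hC₁ u)
    have f10 := mul_le_mul_of_nonneg_left (f6.trans hSy) (hC₁ (star u))
    rw [hpe] at f1 f3 f4
    have hNc : 0 ≤ N τ (cm (sp v) u) := N_nonneg hτ _
    have f11 : 2 * ((τ (q * u * sp v * star u * q)).re / (τ q).re) * N τ y +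
        2 * ((τ (q * star u * sp v * u * q)).re / (τ q).re) * N τ y ≤
        320 / 19 * (N τ (cm v u) + N τ (cm (star v) u)) * N τ y := by
      have g1 : 2 * ((τ (q * u * sp v * star u * q)).re / (τ q).re) * N τ y +
          2 * ((τ (q * star u * sp v * u * q)).re / (τ q).re) * N τ y =
          2 * (N τ (cm (sp v) u) / (τ q).re) * N τ y := by
        rw [← f7]
        ring
      rw [g1]
      refine mul_le_mul_of_nonneg_right ?_ hNy.le
      have g2 : N τ (cm (sp v) u) / (τ q).re ≤ N τ (cm (sp v) u) / (19 / 20) :=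
        div_le_div_of_nonneg_left hNc (by norm_num) hτq'
      linarith
    have hstar : star (v + y) = star v + star y := star_add v y
    rw [hstar]
    nlinarith [c1, c2, d1, d2, f1, f2, f3, f4, f9, f10, f11]
  have hsum : S τ F (v + y) ≤ S τ F v +
      (∑ u ∈ F, ((1 + (C₁ u + C₁ (star u))) * s ^ 2 + 4 * δ₁ + 8 * s)) * N τ y +
      320 / 19 * S τ F v * N τ y := by
    calc S τ F (v + y) ≤ ∑ u ∈ F, ((N τ (cm v u) + N τ (cm (star v) u)) +
        ((1 + (C₁ u + C₁ (star u))) * s ^ 2 + 4 * δ₁ + 8 * s) * N τ y +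
        320 / 19 * (N τ (cm v u) + N τ (cm (star v) u)) * N τ y) := Finset.sum_le_sum hone
      _ = _ := by
        rw [Finset.sum_add_distrib, Finset.sum_add_distrib, Finset.sum_mul, S, Finset.mul_sum,
          Finset.sum_mul]
  have hsum2 : ∑ u ∈ F, ((1 + (C₁ u + C₁ (star u))) * s ^ 2 + 4 * δ₁ + 8 * s) =
      (F.card + K) * s ^ 2 + 4 * F.card * δ₁ + 8 * F.card * s := by
    rw [Finset.sum_add_distrib, Finset.sum_add_distrib, ← Finset.sum_mul,
      Finset.sum_add_distrib, ← hKe]
    simp only [Finset.sum_const, nsmul_eq_mul, mul_one]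
    ring
  rw [hsum2] at hsum
  have t1 : (F.card + K) * s ^ 2 ≤ ε / 64 := by
    have h1 : (F.card + K) * s ^ 2 ≤ (F.card + K) * s := by
      refine mul_le_mul_of_nonneg_left ?_ (by positivity)
      nlinarith
    nlinarith
  have t2 : 8 * F.card * s ≤ ε / 8 := by nlinarith
  have t3 : 320 / 19 * S τ F v ≤ 8 / 19 * ε := by nlinarith
  have t4 : ((F.card + K) * s ^ 2 + 4 * F.card * δ₁ + 8 * F.card * s) + 320 / 19 * S τ F v
      < ε := by linarith
  have t5 := mul_lt_mul_of_pos_right t4 hNy
  nlinarith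

end Pool.McT
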